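import Pool.Agent.P.MP_f981b0_an.Bish.Final

/-! Removing the invertibility of the transformation and the non-vanishing of the weight. -/

open MeasureTheory Filter Topology
open scoped ENNReal

noncomputable section
namespace Pool.Agent.P.MP_f981b0_an.Bish

variable {X : Type*} [MeasurableSpace X]

lemma exists_equiv_of_ae_inverse [StandardBorelSpace X] {μ : Measure X} {τ σ : X → X}
    (hτ : MeasurePreserving τ μ μ) (hσm : Measurable σ) (h1 : ∀ᵐ x ∂μ, σ (τ x) = x) :
    ∃ e : X ≃ᵐ X, ∀ᵐ x ∂μ, ∀ n : ℕ, e^[n] x = τ^[n] x := by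
  classical
  have hσ : MeasurePreserving σ μ μ := by
    refine ⟨hσm, ?_⟩
    conv_lhs => rw [← hτ.map_eq]
    rw [Measure.map_map hσm hτ.measurable, Measure.map_congr (f := σ ∘ τ) (g := id) h1, Measure.map_id]
  have h2 : ∀ᵐ y ∂μ, τ (σ y) = y := by
    rw [← hτ.map_eq, ae_map_iff (p := fun y => τ (σ y) = y) hτ.measurable.aemeasurable
      (measurableSet_eq_fun (hτ.measurable.comp hσm) measurable_id)]
    filter_upwards [h1] with x hx
    rw [hx]
  set G : Set X := {x | σ (τ x) = x ∧ τ (σ x) = x} with hG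
  have hGm : MeasurableSet G :=
    (measurableSet_eq_fun (hσm.comp hτ.measurable) measurable_id).inter
      (measurableSet_eq_fun (hτ.measurable.comp hσm) measurable_id)
  have hGa : ∀ᵐ x ∂μ, x ∈ G := h1.and h2
  set X0 : Set X := ⋂ n : ℕ, (τ^[n] ⁻¹' G ∩ σ^[n] ⁻¹' G) with hX0
  have hm : MeasurableSet X0 := MeasurableSet.iInter fun n =>
    ((hτ.iterate n).measurable hGm).inter ((hσ.iterate n).measurable hGm)
  have ha : ∀ᵐ x ∂μ, x ∈ X0 := by
    simp only [hX0, Set.mem_iInter]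
    exact ae_all_iff.mpr fun n => ((hτ.iterate n).quasiMeasurePreserving.ae hGa).and
      ((hσ.iterate n).quasiMeasurePreserving.ae hGa)
  have hmem : ∀ x, x ∈ X0 ↔ ∀ n : ℕ, τ^[n] x ∈ G ∧ σ^[n] x ∈ G := fun x => by
    simp only [hX0, Set.mem_iInter, Set.mem_inter_iff, Set.mem_preimage]
  have hτ0 : ∀ x ∈ X0, τ x ∈ X0 := by
    intro x hx
    rw [hmem] at hx ⊢
    intro n
    refine ⟨(hx (n + 1)).1, ?_⟩
    cases n with
    | zero => exact (hx 1).1
    | succ n =>
      rw [Function.iterate_succ_apply, show σ (τ x) = x from (hx 0).1.1]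
      exact (hx n).2
  have hσ0 : ∀ x ∈ X0, σ x ∈ X0 := by
    intro x hx
    rw [hmem] at hx ⊢
    intro n
    refine ⟨?_, (hx (n + 1)).2⟩
    cases n with
    | zero => exact (hx 1).2
    | succ n =>
      rw [Function.iterate_succ_apply, show τ (σ x) = x from (hx 0).1.2]
      exact (hx n).1
  have hG0 : ∀ x ∈ X0, x ∈ G := fun x hx => ((hmem x).mp hx 0).1
  refine ⟨⟨⟨X0.piecewise τ id, X0.piecewise σ id, fun x => ?_, fun x => ?_⟩,
    hτ.measurable.piecewise hm measurable_id, hσm.piecewise hm measurable_id⟩, ?_⟩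
  · by_cases hx : x ∈ X0
    · rw [Set.piecewise_eq_of_mem _ _ _ hx, Set.piecewise_eq_of_mem _ _ _ (hτ0 x hx)]
      exact (hG0 x hx).1
    · rw [Set.piecewise_eq_of_notMem _ _ _ hx, id, Set.piecewise_eq_of_notMem _ _ _ hx, id]
  · by_cases hx : x ∈ X0
    · rw [Set.piecewise_eq_of_mem _ _ _ hx, Set.piecewise_eq_of_mem _ _ _ (hσ0 x hx)]
      exact (hG0 x hx).2
    · rw [Set.piecewise_eq_of_notMem _ _ _ hx, id, Set.piecewise_eq_of_notMem _ _ _ hx, id]
  · filter_upwards [ha] with x hx n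
    induction n generalizing x with
    | zero => rfl
    | succ n ih =>
      rw [Function.iterate_succ_apply, Function.iterate_succ_apply, ← ih (τ x) (hτ0 x hx)]
      congr 1
      exact Set.piecewise_eq_of_mem _ _ _ hx

theorem strong [StandardBorelSpace X] (μ : Measure X) [IsProbabilityMeasure μ]
    (τ : X → X) (hτ : MeasurePreserving τ μ μ) (hap : ∀ n : ℕ, 0 < n → μ {x | τ^[n] x = x} = 0)
    (w : X → ℂ) (hw : MemLp w ∞ μ) (h0 : ¬ w =ᵐ[μ] 0)
    (hlog : Integrable (fun x => Real.log ‖w x‖) μ) (p : ℝ≥0∞) [Fact (1 ≤ p)] (hp : p ≠ ∞) :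
    ∃ T : Lp ℂ p μ →L[ℂ] Lp ℂ p μ, (∀ f, T f =ᵐ[μ] fun x => w x * f (τ x)) ∧
      ∃ V : Submodule ℂ (Lp ℂ p μ), IsClosed (V : Set (Lp ℂ p μ)) ∧ V ≠ ⊥ ∧ V ≠ ⊤ ∧
        ∀ Y : Lp ℂ p μ →L[ℂ] Lp ℂ p μ, Y * T = T * Y → ∀ f ∈ V, Y f ∈ V := by
  obtain ⟨T, hT⟩ : ∃ T : Lp ℂ p μ →L[ℂ] Lp ℂ p μ, ∀ f, T f =ᵐ[μ] fun x => w x * f (τ x) := by
    refine ⟨((ContinuousLinearMap.mul ℂ ℂ).holderL μ ∞ p p (hw.toLp w)).comp
      (Lp.compMeasurePreservingₗᵢ ℂ τ hτ).toContinuousLinearMap, fun f => ?_⟩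
    filter_upwards [(ContinuousLinearMap.mul ℂ ℂ).coeFn_holder (r := p) (hw.toLp w)
      (Lp.compMeasurePreserving τ hτ f), hw.coeFn_toLp, Lp.coeFn_compMeasurePreserving f hτ]
      with x h1 h2 h3
    refine h1.trans ?_
    rw [h2, h3]
    rfl
  refine ⟨T, hT, ?_⟩
  by_cases hd : (LinearMap.range (T : Lp ℂ p μ →ₗ[ℂ] Lp ℂ p μ)).topologicalClosure = ⊤
  swap
  · refine ⟨_, Submodule.isClosed_topologicalClosure _, fun h => h0 ?_, hd, fun Y hY f hf => ?_⟩
    · have h1 : T ((memLp_const (1 : ℂ)).toLp _) ∈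
          (LinearMap.range (T : Lp ℂ p μ →ₗ[ℂ] Lp ℂ p μ)).topologicalClosure :=
        Submodule.le_topologicalClosure _ ⟨_, rfl⟩
      rw [h, Submodule.mem_bot] at h1
      have h2 := hT ((memLp_const (1 : ℂ)).toLp _)
      rw [h1] at h2
      filter_upwards [h2, Lp.coeFn_zero ℂ p μ,
        hτ.quasiMeasurePreserving.ae (memLp_const (μ := μ) (p := p) (1 : ℂ)).coeFn_toLp]
        with x h3 h4 h5
      rw [h4, h5, mul_one] at h3
      exact h3.symm
    · refine map_mem_closure Y.continuous hf ?_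
      rintro _ ⟨g, rfl⟩
      exact ⟨Y g, (congrArg (fun S : Lp ℂ p μ →L[ℂ] Lp ℂ p μ => S g) hY).symm⟩
  have key : ∀ g : X → ℂ, MemLp g p μ → ∃ f : ℕ → Lp ℂ p μ,
      ∀ᵐ x ∂μ, Tendsto (fun n => w x * f n (τ x)) atTop (𝓝 (g x)) := by
    intro g hg
    have h1 : hg.toLp g ∈ closure (LinearMap.range (T : Lp ℂ p μ →ₗ[ℂ] Lp ℂ p μ) : Set _) := by
      rw [← Submodule.topologicalClosure_coe, hd]
      trivial
    obtain ⟨u, hu, hlim⟩ := mem_closure_iff_seq_limit.mp h1
    choose f hf using hu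
    obtain ⟨φ, -, hφ⟩ := (tendstoInMeasure_of_tendsto_Lp hlim).exists_seq_tendsto_ae
    refine ⟨fun n => f (φ n), ?_⟩
    filter_upwards [hφ, hg.coeFn_toLp, ae_all_iff.mpr fun n => hT (f n)] with x h2 h3 h4
    rw [← h3]
    refine h2.congr fun n => ?_
    rw [← h4, ← hf]
    rfl
  have hw0 : ∀ᵐ x ∂μ, w x ≠ 0 := by
    obtain ⟨f, hf⟩ := key (fun _ => 1) (memLp_const 1)
    filter_upwards [hf] with x hx h
    simp only [h, zero_mul] at hx
    exact zero_ne_one (tendsto_nhds_unique tendsto_const_nhds hx)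
  have : Nonempty X := nonempty_of_isProbabilityMeasure μ
  have hg := measurableEmbedding_sigmoid_comp_embeddingReal X
  set g := unitInterval.sigmoid ∘ embeddingReal X
  have hgm : Measurable fun x => ((g x : ℝ) : ℂ) :=
    Complex.measurable_ofReal.comp (measurable_subtype_coe.comp hg.measurable)
  obtain ⟨f, hf⟩ := key (fun x => w x * ((g x : ℝ) : ℂ)) (by
    refine MemLp.of_le (hw.mono_exponent le_top)
      (hw.aestronglyMeasurable.mul hgm.aestronglyMeasurable) (Eventually.of_forall fun x => ?_)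
    rw [norm_mul, Complex.norm_real, Real.norm_of_nonneg (g x).2.1]
    exact mul_le_of_le_one_right (norm_nonneg _) (g x).2.2)
  have hF : Measurable fun y => limUnder atTop fun n => f n y :=
    (StronglyMeasurable.limUnder fun n => Lp.stronglyMeasurable (f n)).measurable
  have hσm : Measurable fun y => hg.invFun (Set.projIcc 0 1 zero_le_one
      (limUnder atTop fun n => f n y).re) :=
    hg.measurable_invFun.comp (continuous_projIcc.measurable.comp (Complex.measurable_re.comp hF))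
  obtain ⟨e, he⟩ := exists_equiv_of_ae_inverse hτ hσm (by
    filter_upwards [hf, hw0] with x hx h
    have h1 : Tendsto (fun n => f n (τ x)) atTop (𝓝 ((g x : ℝ) : ℂ)) := by
      have := hx.const_mul (w x)⁻¹
      simpa only [inv_mul_cancel_left₀ h] using this
    rw [h1.limUnder_eq, Complex.ofReal_re, Set.projIcc_val, hg.leftInverse_invFun])
  have he1 : τ =ᵐ[μ] e := by
    filter_upwards [he] with x hx
    exact (hx 1).symm
  refine (general μ e (hτ.congr e.measurable he1) (fun n hn => ?_) w hw hw0 hlog p hp).2 T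
    fun f => ?_
  · rw [← hap n hn]
    refine measure_congr ?_
    filter_upwards [he] with x hx
    change (e^[n] x = x) = (τ^[n] x = x)
    rw [hx]
  · filter_upwards [hT f, he1] with x h1 h2
    rw [h1, h2]

end Pool.Agent.P.MP_f981b0_an.Bish
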