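import Pool.Agent.P.MP_f981b0_an.Bish.Tr

/-! Concrete tracial C*-algebra of bounded measurable equivariant fields of operators on l2(Z). -/

open MeasureTheory
open scoped ENNReal

noncomputable section
namespace Pool.Agent.P.MP_f981b0_an.Bish

/-- a measure preserving action of the integers on a probability space -/
structure Sys (X : Type*) [MeasurableSpace X] where
  μ : Measure X
  prob : IsProbabilityMeasure μ
  σ : ℤ → X → X
  σ_zero : ∀ x, σ 0 x = x
  σ_add : ∀ i j x, σ (i + j) x = σ i (σ j x)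
  mp : ∀ i, MeasurePreserving (σ i) μ μ

abbrev H : Type := lp (fun _ : ℤ => ℂ) 2

abbrev Big (X : Type*) : Type _ := lp (fun _ : X => H →L[ℂ] H) ∞

instance : Nontrivial H := ⟨⟨lp.single 2 0 1, 0, by
  intro h
  have := congrArg (fun v : H => v 0) h
  simp at this⟩⟩

instance (X : Type*) : CStarAlgebra (Big X) where

/-- the standard basis vectors -/
abbrev dl (j : ℤ) : H := lp.single 2 j 1

theorem norm_dl (j : ℤ) : ‖dl j‖ = 1 := by
  rw [dl, lp.norm_single (by norm_num)]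
  simp

theorem inner_dl (i : ℤ) (ξ : H) : inner ℂ (dl i) ξ = ξ i := by
  rw [dl, lp.inner_single_left]
  simp

theorem hasSum_dl (ξ : H) : HasSum (fun k => ξ k • dl k) ξ := by
  have := lp.hasSum_single (p := 2) (by norm_num) ξ
  refine this.congr_fun ?_ |>.congr_fun (fun _ => rfl)
  intro k
  rw [dl, ← lp.single_smul]
  simp

theorem hasSum_sq (ξ : H) : HasSum (fun k => ‖ξ k‖ ^ 2) (‖ξ‖ ^ 2) := by
  have := lp.hasSum_norm (p := 2) (by norm_num) ξ
  simpa using this

theorem hasSum_apply (T : H →L[ℂ] H) (ξ : H) (i : ℤ) :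
    HasSum (fun k => T (dl k) i * ξ k) (T ξ i) := by
  have h1 := (hasSum_dl ξ).mapL ((lp.evalCLM ℂ (fun _ : ℤ => ℂ) 2 i).comp T)
  refine h1.congr_fun fun k => ?_
  show _ = T (ξ k • dl k) i
  simp [mul_comm]

theorem op_ext {T T' : H →L[ℂ] H} (h : ∀ i j, T (dl j) i = T' (dl j) i) : T = T' := by
  ext ξ i
  have h1 := hasSum_apply T ξ i
  simp only [h] at h1
  exact h1.unique (hasSum_apply T' ξ i)

variable {X : Type*} [MeasurableSpace X]

/-- matrix entries of the fibre at `x` -/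
def ker (a : Big X) (x : X) (i j : ℤ) : ℂ := (a x) (lp.single 2 j 1) i

omit [MeasurableSpace X] in
theorem hasSum_ker_mul (a b : Big X) (x : X) (i j : ℤ) :
    HasSum (fun k => ker a x i k * ker b x k j) (ker (a * b) x i j) :=
  hasSum_apply (a x) (b x (dl j)) i

omit [MeasurableSpace X] in
theorem ker_add (a b : Big X) (x : X) (i j : ℤ) : ker (a + b) x i j = ker a x i j + ker b x i j :=
  rfl

omit [MeasurableSpace X] in
theorem ker_sub (a b : Big X) (x : X) (i j : ℤ) : ker (a - b) x i j = ker a x i j - ker b x i j :=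
  rfl

omit [MeasurableSpace X] in
theorem ker_smul (c : ℂ) (a : Big X) (x : X) (i j : ℤ) : ker (c • a) x i j = c * ker a x i j :=
  rfl

omit [MeasurableSpace X] in
theorem ker_one (x : X) (i j : ℤ) : ker (1 : Big X) x i j = if i = j then 1 else 0 := by
  show (dl j) i = _
  simp [dl, lp.single_apply, Pi.single_apply]

omit [MeasurableSpace X] in
theorem ker_algebraMap (c : ℂ) (x : X) (i j : ℤ) :
    ker (algebraMap ℂ (Big X) c) x i j = if i = j then c else 0 := by
  rw [Algebra.algebraMap_eq_smul_one, ker_smul, ker_one]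
  simp

omit [MeasurableSpace X] in
theorem ker_star (a : Big X) (x : X) (i j : ℤ) :
    ker (star a) x i j = (starRingEnd ℂ) (ker a x j i) := by
  show (star (a x)) (dl j) i = (starRingEnd ℂ) ((a x) (dl i) j)
  rw [← inner_dl, ← inner_dl, ContinuousLinearMap.star_eq_adjoint,
    ContinuousLinearMap.adjoint_inner_right, inner_conj_symm]

omit [MeasurableSpace X] in
theorem norm_fibre_le (a : Big X) (x : X) : ‖a x‖ ≤ ‖a‖ := lp.norm_apply_le_norm (by simp) a x

omit [MeasurableSpace X] in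
theorem norm_col_le (a : Big X) (x : X) (j : ℤ) : ‖a x (dl j)‖ ≤ ‖a‖ := by
  have := (a x).le_opNorm (dl j)
  rw [norm_dl, mul_one] at this
  exact this.trans (norm_fibre_le a x)

omit [MeasurableSpace X] in
theorem norm_ker_le (a : Big X) (x : X) (i j : ℤ) : ‖ker a x i j‖ ≤ ‖a‖ :=
  (lp.norm_apply_le_norm (by simp) (a x (dl j)) i).trans (norm_col_le a x j)

/-- norm of the `i`-th row of the fibre at `x` -/
def row (a : Big X) (x : X) (i : ℤ) : ℝ := ‖(star a) x (dl i)‖

omit [MeasurableSpace X] in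
theorem row_nonneg (a : Big X) (x : X) (i : ℤ) : 0 ≤ row a x i := norm_nonneg _

omit [MeasurableSpace X] in
theorem row_le (a : Big X) (x : X) (i : ℤ) : row a x i ≤ ‖a‖ := by
  have := norm_col_le (star a) x i
  rwa [norm_star] at this

omit [MeasurableSpace X] in
theorem hasSum_row (a : Big X) (x : X) (i : ℤ) :
    HasSum (fun k => ‖ker a x i k‖ ^ 2) (row a x i ^ 2) := by
  refine (hasSum_sq ((star a) x (dl i))).congr_fun fun k => ?_
  have : (star a) x (dl i) k = (starRingEnd ℂ) (ker a x i k) := ker_star a x k i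
  rw [this, Complex.norm_conj]

omit [MeasurableSpace X] in
theorem hasSum_col (a : Big X) (x : X) (j : ℤ) :
    HasSum (fun k => ‖ker a x k j‖ ^ 2) (‖a x (dl j)‖ ^ 2) := hasSum_sq _

omit [MeasurableSpace X] in
theorem ker_mul_star (a : Big X) (x : X) (i : ℤ) :
    ker (a * star a) x i i = (row a x i ^ 2 : ℝ) := by
  refine (hasSum_ker_mul a (star a) x i i).unique ?_
  refine (Complex.hasSum_ofReal.mpr (hasSum_row a x i)).congr_fun fun k => ?_
  rw [ker_star, Complex.mul_conj']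
  push_cast
  rfl

omit [MeasurableSpace X] in
theorem continuous_ker (x : X) (i j : ℤ) : Continuous fun a : Big X => ker a x i j := by
  refine (LipschitzWith.of_dist_le_mul (K := 1) fun a b => ?_).continuous
  rw [dist_eq_norm, dist_eq_norm, ← ker_sub, NNReal.coe_one, one_mul]
  exact norm_ker_le _ _ _ _

def Sys.alg (S : Sys X) : StarSubalgebra ℂ (Big X) where
  carrier := {a | (∀ i j, Measurable fun x => ker a x i j) ∧
    ∀ k x i j, ker a (S.σ k x) i j = ker a x (i + k) (j + k)}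
  mul_mem' := by
    rintro a b ⟨ha, ha'⟩ ⟨hb, hb'⟩
    refine ⟨fun i j => ?_, fun k x i j => ?_⟩
    · simp only [← (hasSum_ker_mul a b _ i j).tsum_eq]
      exact Measurable.tsum fun l => (ha i l).mul (hb l j)
    · refine (hasSum_ker_mul a b _ i j).unique ?_
      simp only [ha', hb']
      exact (Equiv.addRight k).hasSum_iff.mpr (hasSum_ker_mul a b x (i + k) (j + k))
  add_mem' := by
    rintro a b ⟨ha, ha'⟩ ⟨hb, hb'⟩
    exact ⟨fun i j => (ha i j).add (hb i j), fun k x i j => by simp only [ker_add, ha', hb']⟩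
  algebraMap_mem' := by
    intro c
    refine ⟨fun i j => ?_, fun k x i j => ?_⟩
    · simp only [ker_algebraMap]
      exact measurable_const
    · simp only [ker_algebraMap, add_left_inj]
  star_mem' := by
    rintro a ⟨ha, ha'⟩
    refine ⟨fun i j => ?_, fun k x i j => ?_⟩
    · simp only [ker_star]
      exact Complex.continuous_conj.measurable.comp (ha j i)
    · simp only [ker_star, ha']

instance (S : Sys X) : IsClosed (S.alg : Set (Big X)) := by
  refine isClosed_of_closure_subset fun a ha => ?_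
  obtain ⟨u, hu, hlim⟩ := mem_closure_iff_seq_limit.mp ha
  have h1 : ∀ x i j, Filter.Tendsto (fun n => ker (u n) x i j) Filter.atTop (nhds (ker a x i j)) :=
    fun x i j => ((continuous_ker x i j).tendsto a).comp hlim
  refine ⟨fun i j => ?_, fun k x i j => ?_⟩
  · exact measurable_of_tendsto_metrizable (fun n => (hu n).1 i j)
      (tendsto_pi_nhds.mpr fun x => h1 x i j)
  · refine tendsto_nhds_unique (h1 (S.σ k x) i j) ?_
    simp only [(hu _).2]
    exact h1 x (i + k) (j + k)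

abbrev Sys.A (S : Sys X) : Type _ := S.alg

example (S : Sys X) : CStarAlgebra S.A := inferInstance

theorem Sys.meas_ker (S : Sys X) (a : S.A) (i j : ℤ) : Measurable fun x => ker a.1 x i j :=
  a.2.1 i j

theorem Sys.ker_σ (S : Sys X) (a : S.A) (k : ℤ) (x : X) (i j : ℤ) :
    ker a.1 (S.σ k x) i j = ker a.1 x (i + k) (j + k) := a.2.2 k x i j

theorem Sys.integrable_of_le (S : Sys X) {E : Type*} [NormedAddCommGroup E] {f : X → E}
    (hf : AEStronglyMeasurable f S.μ) (C : ℝ) (h : ∀ x, ‖f x‖ ≤ C) : Integrable f S.μ := by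
  have := S.prob
  exact Integrable.of_bound hf C (Filter.Eventually.of_forall h)

theorem Sys.integrable_ker (S : Sys X) (a : S.A) (i j : ℤ) :
    Integrable (fun x => ker a.1 x i j) S.μ :=
  S.integrable_of_le (S.meas_ker a i j).aestronglyMeasurable ‖a.1‖ fun x => norm_ker_le _ x i j

theorem Sys.integral_σ (S : Sys X) {E : Type*} [NormedAddCommGroup E] [NormedSpace ℝ E]
    {f : X → E} (hf : AEStronglyMeasurable f S.μ) (k : ℤ) :
    ∫ x, f (S.σ k x) ∂S.μ = ∫ x, f x ∂S.μ := by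
  rw [← integral_map (S.mp k).measurable.aemeasurable (by rwa [(S.mp k).map_eq]), (S.mp k).map_eq]

omit [MeasurableSpace X] in
theorem sum_norm_mul_le (a b : Big X) (x : X) (i j : ℤ) (s : Finset ℤ) :
    ∑ k ∈ s, ‖ker a x i k * ker b x k j‖ ≤ (‖a‖ ^ 2 + ‖b‖ ^ 2) / 2 := by
  have h1 : ∑ k ∈ s, ‖ker a x i k‖ ^ 2 ≤ ‖a‖ ^ 2 :=
    (sum_le_hasSum s (fun k _ => by positivity) (hasSum_row a x i)).trans
      (pow_le_pow_left₀ (row_nonneg _ _ _) (row_le _ _ _) 2)
  have h2 : ∑ k ∈ s, ‖ker b x k j‖ ^ 2 ≤ ‖b‖ ^ 2 :=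
    (sum_le_hasSum s (fun k _ => by positivity) (hasSum_col b x j)).trans
      (pow_le_pow_left₀ (norm_nonneg _) (norm_col_le _ _ _) 2)
  calc ∑ k ∈ s, ‖ker a x i k * ker b x k j‖
      ≤ ∑ k ∈ s, (‖ker a x i k‖ ^ 2 + ‖ker b x k j‖ ^ 2) / 2 := by
        refine Finset.sum_le_sum fun k _ => ?_
        rw [norm_mul]
        nlinarith [sq_nonneg (‖ker a x i k‖ - ‖ker b x k j‖)]
    _ = (∑ k ∈ s, ‖ker a x i k‖ ^ 2 + ∑ k ∈ s, ‖ker b x k j‖ ^ 2) / 2 := by
        rw [← Finset.sum_add_distrib, Finset.sum_div]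
    _ ≤ _ := by linarith

theorem Sys.hasSum_integral_mul (S : Sys X) (a b : S.A) (i j : ℤ) :
    HasSum (fun k => ∫ x, ker a.1 x i k * ker b.1 x k j ∂S.μ) (∫ x, ker (a * b).1 x i j ∂S.μ) := by
  have := S.prob
  have hint : ∀ k, Integrable (fun x => ker a.1 x i k * ker b.1 x k j) S.μ := fun k =>
    S.integrable_of_le ((S.meas_ker a i k).mul (S.meas_ker b k j)).aestronglyMeasurable
      (‖a.1‖ * ‖b.1‖) fun x => by
        rw [norm_mul]
        exact mul_le_mul (norm_ker_le _ _ _ _) (norm_ker_le _ _ _ _) (norm_nonneg _) (norm_nonneg _)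
  have hs : Summable fun k => ∫ x, ‖ker a.1 x i k * ker b.1 x k j‖ ∂S.μ := by
    refine summable_of_sum_le (c := (‖a.1‖ ^ 2 + ‖b.1‖ ^ 2) / 2)
      (fun k => integral_nonneg fun x => norm_nonneg _) fun s => ?_
    rw [← integral_finsetSum s fun k _ => (hint k).norm]
    have := integral_mono (integrable_finsetSum s fun k _ => (hint k).norm)
      (integrable_const ((‖a.1‖ ^ 2 + ‖b.1‖ ^ 2) / 2)) (fun x => sum_norm_mul_le a.1 b.1 x i j s)
    simpa using this
  have := hasSum_integral_of_summable_integral_norm hint hs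
  simp only [(hasSum_ker_mul a.1 b.1 _ i j).tsum_eq] at this
  exact this

theorem Sys.integral_ker_comm (S : Sys X) (a b : S.A) :
    ∫ x, ker (a * b).1 x 0 0 ∂S.μ = ∫ x, ker (b * a).1 x 0 0 ∂S.μ := by
  refine (S.hasSum_integral_mul a b 0 0).unique ?_
  refine ((Equiv.neg ℤ).hasSum_iff.mpr (S.hasSum_integral_mul b a 0 0)).congr_fun fun k => ?_
  simp only [Function.comp, Equiv.neg_apply]
  rw [← S.integral_σ (f := fun x => ker b.1 x 0 (-k) * ker a.1 x (-k) 0)
    ((S.meas_ker b 0 (-k)).mul (S.meas_ker a (-k) 0)).aestronglyMeasurable k]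
  simp only [S.ker_σ, zero_add, neg_add_cancel, mul_comm]

theorem Sys.integral_re_ker (S : Sys X) (a : S.A) (i j : ℤ) :
    ∫ x, (ker a.1 x i j).re ∂S.μ = (∫ x, ker a.1 x i j ∂S.μ).re :=
  integral_re (S.integrable_ker a i j)

/-- the trace as a real linear map -/
def Sys.trLin (S : Sys X) : S.A →ₗ[ℝ] ℝ where
  toFun a := ∫ x, (ker a.1 x 0 0).re ∂S.μ
  map_add' a b := by
    exact integral_add (S.integrable_ker a 0 0).re (S.integrable_ker b 0 0).re
  map_smul' c a := by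
    rw [RingHom.id_apply, ← integral_smul]
    refine integral_congr_ae (Filter.Eventually.of_forall fun x => ?_)
    have : ker (c • a).1 x 0 0 = (c : ℂ) * ker a.1 x 0 0 := rfl
    simp only [this, Complex.re_ofReal_mul, smul_eq_mul]

theorem Sys.trLin_le (S : Sys X) (a : S.A) : ‖S.trLin a‖ ≤ 1 * ‖a‖ := by
  have := S.prob
  have := norm_integral_le_of_norm_le_const (μ := S.μ) (f := fun x => (ker a.1 x 0 0).re)
    (C := ‖a‖) (Filter.Eventually.of_forall fun x =>
      (Complex.abs_re_le_norm _).trans (norm_ker_le a.1 x 0 0))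
  rw [probReal_univ, mul_one] at this
  rw [one_mul]
  exact this

/-- the trace -/
def Sys.tr (S : Sys X) : Tr S.A where
  t := S.trLin.mkContinuous 1 S.trLin_le
  one := by
    have := S.prob
    show ∫ x, (ker (1 : Big X) x 0 0).re ∂S.μ = 1
    simp [ker_one]
  comm a b := by
    show ∫ x, (ker (a * b).1 x 0 0).re ∂S.μ = ∫ x, (ker (b * a).1 x 0 0).re ∂S.μ
    rw [S.integral_re_ker, S.integral_re_ker, S.integral_ker_comm]
  star a := by
    show ∫ x, (ker (star a.1) x 0 0).re ∂S.μ = ∫ x, (ker a.1 x 0 0).re ∂S.μ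
    simp [ker_star]
  nonneg a := by
    show 0 ≤ ∫ x, (ker (star a.1 * a.1) x 0 0).re ∂S.μ
    refine integral_nonneg fun x => ?_
    have := ker_mul_star (star a.1) x 0
    rw [star_star] at this
    simp only [this, Complex.ofReal_re, Pi.zero_apply]
    positivity

theorem Sys.tr_apply (S : Sys X) (a : S.A) : S.tr.t a = ∫ x, (ker a.1 x 0 0).re ∂S.μ := rfl

theorem Sys.tr_mul_star (S : Sys X) (a : S.A) :
    S.tr.t (a * star a) = ∫ x, row a.1 x 0 ^ 2 ∂S.μ := by
  show ∫ x, (ker (a.1 * star a.1) x 0 0).re ∂S.μ = _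
  simp only [ker_mul_star, Complex.ofReal_re]

theorem Sys.meas_row_sq (S : Sys X) (a : S.A) (i : ℤ) : Measurable fun x => row a.1 x i ^ 2 := by
  have := Complex.measurable_re.comp (S.meas_ker (a * star a) i i)
  convert this using 1
  funext x
  show _ = (ker (a.1 * star a.1) x i i).re
  simp only [ker_mul_star, Complex.ofReal_re]

theorem Sys.meas_row (S : Sys X) (a : S.A) (i : ℤ) : Measurable fun x => row a.1 x i := by
  have := (S.meas_row_sq a i).sqrt
  simpa only [Real.sqrt_sq (row_nonneg _ _ _)] using this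

/-- bounded measurable functions -/
structure Bdd (b : X → ℂ) (M : ℝ) : Prop where
  meas : Measurable b
  le : ∀ x, ‖b x‖ ≤ M

theorem ws_summable (c : ℤ → ℂ) {M : ℝ} (hc : ∀ i, ‖c i‖ ≤ M) (k : ℤ) (ξ : H) :
    Summable (fun i => ‖c i * ξ (i + k)‖ ^ 2) ∧ ∑' i, ‖c i * ξ (i + k)‖ ^ 2 ≤ (M * ‖ξ‖) ^ 2 := by
  have h1 : HasSum (fun i => M ^ 2 * ‖ξ (i + k)‖ ^ 2) (M ^ 2 * ‖ξ‖ ^ 2) :=
    ((Equiv.addRight k).hasSum_iff.mpr (hasSum_sq ξ)).mul_left _
  have h2 : ∀ i, ‖c i * ξ (i + k)‖ ^ 2 ≤ M ^ 2 * ‖ξ (i + k)‖ ^ 2 := fun i => by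
    rw [norm_mul, mul_pow]
    exact mul_le_mul_of_nonneg_right (pow_le_pow_left₀ (norm_nonneg _) (hc i) 2) (by positivity)
  have h3 := Summable.of_nonneg_of_le (fun i => by positivity) h2 h1.summable
  refine ⟨h3, ?_⟩
  rw [mul_pow, ← h1.tsum_eq]
  exact h3.tsum_le_tsum h2 h1.summable

/-- a weighted shift as a linear map on `H` -/
def wsLin (c : ℤ → ℂ) {M : ℝ} (hc : ∀ i, ‖c i‖ ≤ M) (k : ℤ) : H →ₗ[ℂ] H where
  toFun ξ := ⟨fun i => c i * ξ (i + k), by
    apply memℓp_gen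
    simpa using (ws_summable c hc k ξ).1⟩
  map_add' ξ η := by
    ext i
    simp [mul_add]
  map_smul' r ξ := by
    ext i
    simp [mul_left_comm]

theorem wsLin_le (c : ℤ → ℂ) {M : ℝ} (hc : ∀ i, ‖c i‖ ≤ M) (k : ℤ) (ξ : H) :
    ‖wsLin c hc k ξ‖ ≤ M * ‖ξ‖ := by
  have hM : 0 ≤ M := (norm_nonneg _).trans (hc 0)
  refine (pow_le_pow_iff_left₀ (norm_nonneg _) (by positivity) two_ne_zero).mp ?_
  rw [← (hasSum_sq _).tsum_eq]
  exact (ws_summable c hc k ξ).2

/-- a weighted shift on `H` -/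
def ws (c : ℤ → ℂ) {M : ℝ} (hc : ∀ i, ‖c i‖ ≤ M) (k : ℤ) : H →L[ℂ] H :=
  (wsLin c hc k).mkContinuous M (wsLin_le c hc k)

theorem norm_ws_le (c : ℤ → ℂ) {M : ℝ} (hc : ∀ i, ‖c i‖ ≤ M) (k : ℤ) : ‖ws c hc k‖ ≤ M :=
  LinearMap.mkContinuous_norm_le _ ((norm_nonneg _).trans (hc 0)) _

/-- the field of weighted shifts -/
def Sys.Wbig (S : Sys X) (b : X → ℂ) {M : ℝ} (hb : Bdd b M) (k : ℤ) : Big X :=
  ⟨fun x => ws (fun i => b (S.σ i x)) (fun _ => hb.le _) k,
    memℓp_infty ⟨M, by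
      rintro _ ⟨x, rfl⟩
      exact norm_ws_le _ _ _⟩⟩

theorem Sys.ker_Wbig (S : Sys X) (b : X → ℂ) {M : ℝ} (hb : Bdd b M) (k : ℤ) (x : X) (i j : ℤ) :
    ker (S.Wbig b hb k) x i j = if i + k = j then b (S.σ i x) else 0 := by
  show b (S.σ i x) * (dl j) (i + k) = _
  simp [dl, lp.single_apply, Pi.single_apply]

/-- weighted shifts `ξ ↦ (i ↦ b (σ i x) * ξ (i + k))` -/
def Sys.W (S : Sys X) (b : X → ℂ) {M : ℝ} (hb : Bdd b M) (k : ℤ) : S.A :=
  ⟨S.Wbig b hb k, fun i j => by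
    simp only [S.ker_Wbig]
    split_ifs
    · exact hb.meas.comp (S.mp i).measurable
    · exact measurable_const, fun l x i j => by
    simp only [S.ker_Wbig, S.σ_add]
    congr 1
    simp only [eq_iff_iff]
    omega⟩

theorem Sys.W_apply (S : Sys X) (b : X → ℂ) {M : ℝ} (hb : Bdd b M) (k : ℤ) (x : X) (ξ : H) (i : ℤ) :
    (S.W b hb k).1 x ξ i = b (S.σ i x) * ξ (i + k) := rfl

theorem Sys.ker_W (S : Sys X) (b : X → ℂ) {M : ℝ} (hb : Bdd b M) (k : ℤ) (x : X) (i j : ℤ) :
    ker (S.W b hb k).1 x i j = if i + k = j then b (S.σ i x) else 0 := S.ker_Wbig b hb k x i j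

theorem Sys.ker_W_mul (S : Sys X) (b : X → ℂ) {M : ℝ} (hb : Bdd b M) (k : ℤ) (u : S.A) (x : X)
    (i j : ℤ) : ker (S.W b hb k * u).1 x i j = b (S.σ i x) * ker u.1 x (i + k) j := rfl

theorem Sys.norm_W_le (S : Sys X) (b : X → ℂ) {M : ℝ} (hb : Bdd b M) (hM : 0 ≤ M) (k : ℤ) :
    ‖S.W b hb k‖ ≤ M :=
  lp.norm_le_of_forall_le (f := S.Wbig b hb k) hM fun _ => norm_ws_le _ _ _

theorem Sys.ext_ker (S : Sys X) {a b : S.A} (h : ∀ x i j, ker a.1 x i j = ker b.1 x i j) :
    a = b := by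
  apply Subtype.ext
  apply lp.ext
  funext x
  exact op_ext (h x)

theorem Sys.W_mul (S : Sys X) (b c : X → ℂ) {M N L : ℝ} (hb : Bdd b M) (hc : Bdd c N) (k l : ℤ)
    (h : Bdd (fun x => b x * c (S.σ k x)) L) :
    S.W b hb k * S.W c hc l = S.W (fun x => b x * c (S.σ k x)) h (k + l) := by
  refine S.ext_ker fun x i j => ?_
  rw [S.ker_W_mul, S.ker_W, S.ker_W, add_assoc, ← S.σ_add, add_comm k i]
  split_ifs <;> simp

theorem Sys.W_star (S : Sys X) (b : X → ℂ) {M L : ℝ} (hb : Bdd b M) (k : ℤ)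
    (h : Bdd (fun x => (starRingEnd ℂ) (b (S.σ (-k) x))) L) :
    star (S.W b hb k) = S.W (fun x => (starRingEnd ℂ) (b (S.σ (-k) x))) h (-k) := by
  refine S.ext_ker fun x i j => ?_
  have : ker (star (S.W b hb k)).1 x i j = (starRingEnd ℂ) (ker (S.W b hb k).1 x j i) :=
    ker_star _ x i j
  rw [this, S.ker_W, S.ker_W, ← S.σ_add]
  by_cases hij : j + k = i
  · rw [if_pos hij, if_pos (by omega), show -k + i = j by omega]
  · rw [if_neg hij, if_neg (by omega), map_zero]

theorem Sys.tr_W (S : Sys X) (b : X → ℂ) {M : ℝ} (hb : Bdd b M) (k : ℤ) :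
    S.tr.t (S.W b hb k) = if k = 0 then ∫ x, (b x).re ∂S.μ else 0 := by
  rw [S.tr_apply]
  simp only [S.ker_W, zero_add, S.σ_zero]
  split_ifs <;> simp

omit [MeasurableSpace X] in
/-- pull back of fields along a map -/
def pull {Y : Type*} (π : Y → X) (a : Big X) : Big Y :=
  ⟨fun y => a (π y), memℓp_infty ⟨‖a‖, by
    rintro _ ⟨y, rfl⟩
    exact norm_fibre_le a _⟩⟩

/-- pull back along a factor map -/
def Sys.lift {Y : Type*} [MeasurableSpace Y] (S : Sys X) (S' : Sys Y) (π : Y → X)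
    (hπ : MeasurePreserving π S'.μ S.μ) (he : ∀ k y, π (S'.σ k y) = S.σ k (π y)) :
    S.A →⋆ₐ[ℂ] S'.A where
  toFun a := ⟨pull π a.1, fun i j => (S.meas_ker a i j).comp hπ.measurable, fun k y i j => by
    show ker a.1 (π (S'.σ k y)) i j = ker a.1 (π y) (i + k) (j + k)
    rw [he, S.ker_σ]⟩
  map_one' := rfl
  map_mul' _ _ := rfl
  map_zero' := rfl
  map_add' _ _ := rfl
  commutes' _ := rfl
  map_star' _ := rfl

theorem Sys.lift_apply {Y : Type*} [MeasurableSpace Y] (S : Sys X) (S' : Sys Y) (π : Y → X)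
    (hπ : MeasurePreserving π S'.μ S.μ) (he : ∀ k y, π (S'.σ k y) = S.σ k (π y)) (a : S.A) (y : Y) :
    (S.lift S' π hπ he a).1 y = a.1 (π y) := rfl

theorem Sys.tr_lift {Y : Type*} [MeasurableSpace Y] (S : Sys X) (S' : Sys Y) (π : Y → X)
    (hπ : MeasurePreserving π S'.μ S.μ) (he : ∀ k y, π (S'.σ k y) = S.σ k (π y)) (a : S.A) :
    S'.tr.t (S.lift S' π hπ he a) = S.tr.t a := by
  rw [S.tr_apply, S'.tr_apply, ← hπ.map_eq,
    integral_map (f := fun x => (ker a.1 x 0 0).re) hπ.measurable.aemeasurable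
      (Complex.measurable_re.comp (S.meas_ker a 0 0)).aestronglyMeasurable]
  rfl

end Pool.Agent.P.MP_f981b0_an.Bish
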