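import Pool.Agent.P.MP_f981b0_an.Bish.Final

open MeasureTheory Filter
open scoped ENNReal

noncomputable section
namespace Pool.Agent.P.MP_f981b0_an.Bish

/-- rotation by `α` on every interval `[k, k + 1)` -/
def rotFun (α x : ℝ) : ℝ := ⌊x⌋ + Int.fract (x + α)

theorem measurable_rotFun (α : ℝ) : Measurable (rotFun α) := by
  unfold rotFun
  exact ((measurable_from_top (f := fun k : ℤ => (k : ℝ))).comp Int.measurable_floor).add
    ((measurable_id.add_const α).fract)

theorem floor_rotFun (α x : ℝ) : ⌊rotFun α x⌋ = ⌊x⌋ := by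
  unfold rotFun
  rw [Int.floor_intCast_add, Int.floor_fract, add_zero]

theorem rotFun_rotFun (α β x : ℝ) : rotFun α (rotFun β x) = rotFun (β + α) x := by
  rw [rotFun, floor_rotFun, rotFun, rotFun]
  congr 1
  rw [Int.fract_eq_fract]
  refine ⟨⌊x⌋ - ⌊x + β⌋, ?_⟩
  rw [Int.fract]
  push_cast
  ring

theorem rotFun_zero (x : ℝ) : rotFun 0 x = x := by
  rw [rotFun, add_zero, Int.floor_add_fract]

/-- the rotation as a measurable equivalence -/
def rot (α : ℝ) : ℝ ≃ᵐ ℝ where
  toFun := rotFun α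
  invFun := rotFun (-α)
  left_inv x := by rw [rotFun_rotFun, add_neg_cancel, rotFun_zero]
  right_inv x := by rw [rotFun_rotFun, neg_add_cancel, rotFun_zero]
  measurable_toFun := measurable_rotFun α
  measurable_invFun := measurable_rotFun (-α)

theorem rot_iterate (α : ℝ) (n : ℕ) (x : ℝ) : (rot α)^[n] x = rotFun (n * α) x := by
  induction n with
  | zero => simp [rotFun_zero]
  | succ n ih =>
    rw [Function.iterate_succ_apply', ih]
    show rotFun α _ = _
    rw [rotFun_rotFun]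
    push_cast
    ring_nf

theorem rotFun_of_mem (α : ℝ) {x : ℝ} (hx : x ∈ Set.Ico (0 : ℝ) 1) :
    rotFun α x = Int.fract (x + α) := by
  rw [rotFun, Int.floor_eq_zero_iff.mpr hx]
  simp

theorem mp_rot (α : ℝ) : MeasurePreserving (rot α) (volume.restrict (Set.Ico (0 : ℝ) 1))
    (volume.restrict (Set.Ico (0 : ℝ) 1)) := by
  set β := Int.fract α with hβ
  have b0 : 0 ≤ β := Int.fract_nonneg α
  have b1 : β < 1 := Int.fract_lt_one α
  have hfr : ∀ x : ℝ, Int.fract (x + α) = Int.fract (x + β) := by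
    intro x
    rw [Int.fract_eq_fract]
    exact ⟨⌊α⌋, by rw [hβ, Int.fract]; ring⟩
  have h1 : MeasurePreserving (rot α) (volume.restrict (Set.Ico (0 : ℝ) (1 - β)))
      (volume.restrict (Set.Ico β 1)) := by
    have h := (measurePreserving_add_right (volume : Measure ℝ) β).restrict_preimage
      (s := Set.Ico β 1) measurableSet_Ico
    rw [Set.preimage_add_const_Ico, sub_self] at h
    refine h.congr (rot α).measurable ?_
    filter_upwards [ae_restrict_mem measurableSet_Ico] with x hx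
    show _ = rotFun α x
    rw [rotFun_of_mem α ⟨hx.1, by linarith [hx.2]⟩, hfr, Int.fract_eq_self.mpr
      ⟨by linarith [hx.1], by linarith [hx.2]⟩]
  have h2 : MeasurePreserving (rot α) (volume.restrict (Set.Ico (1 - β) (1 : ℝ)))
      (volume.restrict (Set.Ico 0 β)) := by
    have h := (measurePreserving_add_right (volume : Measure ℝ) (β - 1)).restrict_preimage
      (s := Set.Ico 0 β) measurableSet_Ico
    rw [Set.preimage_add_const_Ico, show 0 - (β - 1) = 1 - β by ring,
      show β - (β - 1) = 1 by ring] at h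
    refine h.congr (rot α).measurable ?_
    filter_upwards [ae_restrict_mem measurableSet_Ico] with x hx
    show _ = rotFun α x
    rw [rotFun_of_mem α ⟨by linarith [hx.1], hx.2⟩, hfr, ← Int.fract_sub_one,
      Int.fract_eq_self.mpr ⟨by linarith [hx.1], by linarith [hx.2]⟩]
    ring
  have h3 := h1.add_measure h2
  rw [← Measure.restrict_union (Set.Ico_disjoint_Ico_same) measurableSet_Ico,
    Set.Ico_union_Ico_eq_Ico (by linarith) (by linarith), add_comm,
    ← Measure.restrict_union (Set.Ico_disjoint_Ico_same) measurableSet_Ico,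
    Set.Ico_union_Ico_eq_Ico b0 b1.le] at h3
  exact h3

theorem bishop (α : ℝ) (hα : Irrational α) (p : ℝ≥0∞) [Fact (1 ≤ p)] (hp : p ≠ ∞) :
    (∃ T : Lp ℂ p (volume.restrict (Set.Ico (0 : ℝ) 1)) →L[ℂ] Lp ℂ p (volume.restrict (Set.Ico (0 : ℝ) 1)),
      ∀ f, T f =ᵐ[volume.restrict (Set.Ico (0 : ℝ) 1)] fun x => (x : ℂ) * f (Int.fract (x + α))) ∧
    ∀ T : Lp ℂ p (volume.restrict (Set.Ico (0 : ℝ) 1)) →L[ℂ] Lp ℂ p (volume.restrict (Set.Ico (0 : ℝ) 1)),
      (∀ f, T f =ᵐ[volume.restrict (Set.Ico (0 : ℝ) 1)] fun x => (x : ℂ) * f (Int.fract (x + α))) →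
      ∃ V : Submodule ℂ (Lp ℂ p (volume.restrict (Set.Ico (0 : ℝ) 1))),
        IsClosed (V : Set (Lp ℂ p (volume.restrict (Set.Ico (0 : ℝ) 1)))) ∧ V ≠ ⊥ ∧ V ≠ ⊤ ∧
        ∀ Y : Lp ℂ p (volume.restrict (Set.Ico (0 : ℝ) 1)) →L[ℂ] Lp ℂ p (volume.restrict (Set.Ico (0 : ℝ) 1)),
          Y * T = T * Y → ∀ f ∈ V, Y f ∈ V := by
  have hP : IsProbabilityMeasure (volume.restrict (Set.Ico (0 : ℝ) 1)) := ⟨by simp⟩
  have hap : ∀ n : ℕ, 0 < n →
      (volume.restrict (Set.Ico (0 : ℝ) 1)) {x | (rot α)^[n] x = x} = 0 := by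
    intro n hn
    have : {x | (rot α)^[n] x = x} = ∅ := by
      refine Set.eq_empty_of_forall_notMem fun x hx => ?_
      rw [Set.mem_ofPred_eq, rot_iterate, rotFun, Int.fract] at hx
      refine (hα.natCast_mul hn.ne').ne_int (⌊x + n * α⌋ - ⌊x⌋) ?_
      push_cast
      linarith
    rw [this, measure_empty]
  have hw : MemLp (fun x : ℝ => (x : ℂ)) ∞ (volume.restrict (Set.Ico (0 : ℝ) 1)) := by
    refine memLp_top_of_bound Complex.continuous_ofReal.aestronglyMeasurable 1 ?_
    filter_upwards [ae_restrict_mem measurableSet_Ico] with x hx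
    rw [Complex.norm_real, Real.norm_eq_abs, abs_of_nonneg hx.1]
    exact hx.2.le
  have h0 : ∀ᵐ x : ℝ ∂(volume.restrict (Set.Ico (0 : ℝ) 1)), (x : ℂ) ≠ 0 := by
    refine ae_restrict_of_ae ?_
    filter_upwards [Measure.ae_ne volume (0 : ℝ)] with x hx
    exact Complex.ofReal_ne_zero.mpr hx
  have hlog : Integrable (fun x : ℝ => Real.log ‖(x : ℂ)‖)
      (volume.restrict (Set.Ico (0 : ℝ) 1)) := by
    simp only [Complex.norm_real, Real.norm_eq_abs, Real.log_abs]
    have h := (intervalIntegrable_iff_integrableOn_Ico_of_le zero_le_one).mp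
      (intervalIntegral.intervalIntegrable_log' (a := 0) (b := 1))
    exact h
  obtain ⟨⟨T0, hT0⟩, h2⟩ := general _ (rot α) (mp_rot α) hap _ hw h0 hlog p hp
  refine ⟨⟨T0, fun f => ?_⟩, fun T hT => h2 T fun f => ?_⟩
  · filter_upwards [hT0 f, ae_restrict_mem measurableSet_Ico] with x h1 hx
    rw [h1]
    show _ * f (rotFun α x) = _
    rw [rotFun_of_mem α hx]
  · filter_upwards [hT f, ae_restrict_mem measurableSet_Ico] with x h1 hx
    rw [h1]
    show _ = _ * f (rotFun α x)
    rw [rotFun_of_mem α hx]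

end Pool.Agent.P.MP_f981b0_an.Bish
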