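import Pool.Agent.P.MP_f981b0_an.Bish.Walk
import Pool.Agent.P.MP_f981b0_an.Bish.Alg

/-! Lower bounds for determinants of bidiagonal fields; the soft projections of a weighted shift. -/

open MeasureTheory Filter Ring
open scoped ENNReal

noncomputable section
namespace Pool.Agent.P.MP_f981b0_an.Bish

lemma Tr.D_map {A B : Type*} [CStarAlgebra A] [PartialOrder A] [StarOrderedRing A] [CStarAlgebra B]
    (τ : Tr A) (τ' : Tr B) (φ : A →⋆ₐ[ℂ] B) (h : ∀ a, τ'.t (φ a) = τ.t a) {ε : ℝ} (hε : 0 < ε)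
    (x : A) : τ'.D ε (φ x) = τ.D ε x := by
  have hs : ∀ (c : ℝ) (a : A), φ (c • a) = c • φ a := fun c a => by
    rw [← Complex.coe_smul, map_smul, Complex.coe_smul]
  have e : ε • (1 : B) + star (φ x) * φ x = φ (ε • (1 : A) + star x * x) := by
    rw [map_add, hs, map_one, map_mul, map_star]
  unfold Tr.D
  rw [e]
  have hz := sp_eps hε x
  generalize ε • (1 : A) + star x * x = z at hz ⊢
  unfold Tr.Lam
  refine intervalIntegral.integral_congr fun s hs' => ?_
  rw [Set.uIcc_of_le zero_le_one] at hs'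
  have hu := (seg_sp hz hs').isUnit
  have e1 : seg (φ z) s = φ (seg z s) := by
    unfold seg
    rw [map_add, hs, map_one, map_sub, map_one]
  have e2 : (φ (seg z s))⁻¹ʳ = φ (seg z s)⁻¹ʳ := by
    apply inv_eq_of
    · rw [← map_mul, Ring.mul_inverse_cancel _ hu, map_one]
    · rw [← map_mul, Ring.inverse_mul_cancel _ hu, map_one]
  rw [e1, e2, ← h, map_mul φ, map_sub φ, map_one φ]

lemma Tr.D_sub_comm {A : Type*} [CStarAlgebra A] (τ : Tr A) (ε : ℝ) (x y : A) :
    τ.D ε (x - y) = τ.D ε (y - x) := by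
  rw [← neg_sub, Tr.D, star_neg, neg_mul_neg, Tr.D]

variable {X : Type*} [MeasurableSpace X]

instance (S : Sys X) : PartialOrder S.A := CStarAlgebra.spectralOrder S.A

instance (S : Sys X) : StarOrderedRing S.A := CStarAlgebra.spectralOrderedRing S.A

/-- `u` is the weighted shift of step `k` with weight `b` -/
def IsW {S : Sys X} (u : S.A) (b : X → ℂ) (k : ℤ) : Prop :=
  ∀ x i j, ker u.1 x i j = if i + k = j then b (S.σ i x) else 0

namespace IsW
variable {S : Sys X} {u v : S.A} {b c : X → ℂ} {k l : ℤ}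

lemma W (S : Sys X) (b : X → ℂ) {M : ℝ} (hb : Bdd b M) (k : ℤ) : IsW (S.W b hb k) b k :=
  S.ker_W b hb k

lemma congr (hu : IsW u b k) (h : ∀ x, b x = c x) (hk : k = l) : IsW u c l := by
  obtain rfl : b = c := funext h
  exact hk ▸ hu

lemma unique (hu : IsW u b k) (hv : IsW v b k) : u = v :=
  S.ext_ker fun x i j => (hu x i j).trans (hv x i j).symm

lemma algebraMap (S : Sys X) (z : ℂ) : IsW (algebraMap ℂ S.A z) (fun _ => z) 0 := fun x i j => by
  rw [add_zero]
  exact ker_algebraMap z x i j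

lemma one (S : Sys X) : IsW (1 : S.A) (fun _ => 1) 0 := fun x i j => by
  rw [add_zero]
  exact ker_one x i j

lemma zero (S : Sys X) (k : ℤ) : IsW (0 : S.A) (fun _ => 0) k := fun x i j => by
  rw [ite_self]
  rfl

lemma add (hu : IsW u b k) (hv : IsW v c k) : IsW (u + v) (fun x => b x + c x) k := fun x i j => by
  change ker (u.1 + v.1) x i j = _
  rw [ker_add, hu, hv]
  split_ifs <;> simp

lemma sub (hu : IsW u b k) (hv : IsW v c k) : IsW (u - v) (fun x => b x - c x) k := fun x i j => by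
  change ker (u.1 - v.1) x i j = _
  rw [ker_sub, hu, hv]
  split_ifs <;> simp

lemma smul (hu : IsW u b k) (r : ℝ) : IsW (r • u) (fun x => r * b x) k := fun x i j => by
  change (r : ℂ) * ker u.1 x i j = _
  rw [hu]
  split_ifs <;> simp

lemma mul (hu : IsW u b k) (hv : IsW v c l) :
    IsW (u * v) (fun x => b x * c (S.σ k x)) (k + l) := fun x i j => by
  have h1 := hasSum_ker_mul u.1 v.1 x i j
  have h2 : HasSum (fun m => ker u.1 x i m * ker v.1 x m j)
      (ker u.1 x i (i + k) * ker v.1 x (i + k) j) :=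
    hasSum_single (i + k) fun m hm => by rw [hu, if_neg (Ne.symm hm), zero_mul]
  change ker (u.1 * v.1) x i j = _
  rw [h1.unique h2, hu, hv, if_pos rfl, add_assoc]
  simp only [← S.σ_add, add_comm k i]
  split_ifs <;> simp

lemma star (hu : IsW u b k) :
    IsW (star u) (fun x => (starRingEnd ℂ) (b (S.σ (-k) x))) (-k) := fun x i j => by
  change ker (Star.star u.1) x i j = _
  rw [ker_star, hu]
  simp only [← S.σ_add]
  by_cases hij : j + k = i
  · rw [if_pos hij, if_pos (by omega), show -k + i = j by omega]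
  · rw [if_neg hij, if_neg (by omega), map_zero]

lemma tr_zero (hu : IsW u b k) (hk : k ≠ 0) : S.tr.t u = 0 := by
  rw [S.tr_apply]
  simp [hu _ 0 0, hk]

lemma tr (hu : IsW u b 0) : S.tr.t u = ∫ x, (b x).re ∂S.μ := by
  rw [S.tr_apply]
  simp [hu _ 0 0, S.σ_zero]

lemma pow (hu : IsW u b 1) (n : ℕ) :
    IsW (u ^ n) (fun x => ∏ i ∈ Finset.range n, b (S.σ i x)) n := by
  induction n with
  | zero => simpa using one S
  | succ n ih =>
    rw [pow_succ]
    refine (ih.mul hu).congr (fun x => ?_) (by push_cast; rfl)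
    rw [Finset.prod_range_succ]

lemma tr_pow (hu : IsW u b 1) (n : ℕ) : S.tr.t (u ^ (n + 1)) = 0 :=
  (hu.pow (n + 1)).tr_zero (by omega)

lemma mul_star (hu : IsW u b k) : IsW (u * Star.star u) (fun x => ((‖b x‖ ^ 2 : ℝ) : ℂ)) 0 := by
  refine (hu.mul hu.star).congr (fun x => ?_) (add_neg_cancel k)
  rw [← S.σ_add, neg_add_cancel, S.σ_zero, Complex.mul_conj']
  push_cast
  rfl

lemma lift {Y : Type*} [MeasurableSpace Y] (hu : IsW u b k) (S' : Sys Y) (π : Y → X)
    (hπ : MeasurePreserving π S'.μ S.μ) (he : ∀ k y, π (S'.σ k y) = S.σ k (π y)) :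
    IsW (S.lift S' π hπ he u) (fun y => b (π y)) k := fun y i j => by
  change ker u.1 (π y) i j = _
  rw [hu]
  simp only [he]

end IsW

lemma integral_log_aux {m : ℝ} (hm : 0 < m) :
    ∫ s in (0 : ℝ)..1, (m - 1) / (1 + s * (m - 1)) = Real.log m := by
  have hp : ∀ s ∈ Set.uIcc (0 : ℝ) 1, 0 < 1 + s * (m - 1) := by
    intro s hs
    rw [Set.uIcc_of_le zero_le_one] at hs
    rcases eq_or_lt_of_le hs.1 with h | h
    · subst h; simp
    · nlinarith [hs.2, mul_pos h hm]
  have hd : ∀ s ∈ Set.uIcc (0 : ℝ) 1, HasDerivAt (fun s : ℝ => Real.log (1 + s * (m - 1)))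
      ((m - 1) / (1 + s * (m - 1))) s := fun s hs => by
    simpa using (((hasDerivAt_id s).mul_const (m - 1)).const_add 1).log (hp s hs).ne'
  rw [intervalIntegral.integral_eq_sub_of_hasDerivAt hd]
  · simp
  · refine ContinuousOn.intervalIntegrable ?_
    exact continuousOn_const.div (by fun_prop) fun s hs => (hp s hs).ne'

lemma Sys.Lam_diag (S : Sys X) {z : S.A} {m : X → ℝ} (hz : IsW z (fun x => (m x : ℂ)) 0)
    (hm : Measurable m) {m0 M : ℝ} (h0 : 0 < m0) (h1 : m0 ≤ 1) (hl : ∀ x, m0 ≤ m x)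
    (hu : ∀ x, m x ≤ M) : S.tr.Lam z = ∫ x, Real.log (m x) ∂S.μ := by
  have := S.prob
  have hp : ∀ s ∈ Set.Icc (0 : ℝ) 1, ∀ x, m0 ≤ 1 + s * (m x - 1) := by
    intro s hs x
    nlinarith [hs.1, hs.2, hl x, mul_nonneg hs.1 (sub_nonneg.mpr (hl x)),
      mul_nonneg (sub_nonneg.mpr hs.2) (sub_nonneg.mpr h1)]
  have e : S.tr.Lam z = ∫ s in (0 : ℝ)..1, ∫ x, (m x - 1) / (1 + s * (m x - 1)) ∂S.μ := by
    unfold Tr.Lam
    refine intervalIntegral.integral_congr fun s hs => ?_
    rw [Set.uIcc_of_le zero_le_one] at hs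
    have hb : Bdd (fun x => (((1 + s * (m x - 1))⁻¹ : ℝ) : ℂ)) m0⁻¹ := by
      refine ⟨by fun_prop, fun x => ?_⟩
      rw [Complex.norm_real, Real.norm_of_nonneg (inv_nonneg.mpr (h0.le.trans (hp s hs x)))]
      exact inv_anti₀ h0 (hp s hs x)
    have h2 := IsW.W S _ hb 0
    have h3 : IsW (seg z s) (fun x => ((1 + s * (m x - 1) : ℝ) : ℂ)) 0 :=
      ((IsW.one S).add ((hz.sub (IsW.one S)).smul s)).congr (fun x => by push_cast; rfl) rfl
    have h4 : (seg z s)⁻¹ʳ = S.W _ hb 0 := by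
      apply inv_eq_of
      · refine IsW.unique ((h3.mul h2).congr (fun x => ?_) (add_zero 0)) (IsW.one S)
        rw [S.σ_zero, ← Complex.ofReal_mul, mul_inv_cancel₀ (h0.trans_le (hp s hs x)).ne',
          Complex.ofReal_one]
      · refine IsW.unique ((h2.mul h3).congr (fun x => ?_) (add_zero 0)) (IsW.one S)
        rw [S.σ_zero, ← Complex.ofReal_mul, inv_mul_cancel₀ (h0.trans_le (hp s hs x)).ne',
          Complex.ofReal_one]
    have h5 : IsW ((z - 1) * S.W _ hb 0) (fun x => (((m x - 1) / (1 + s * (m x - 1)) : ℝ) : ℂ)) 0 :=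
      ((hz.sub (IsW.one S)).mul h2).congr (fun x => by
        rw [S.σ_zero, div_eq_mul_inv]; push_cast; rfl) (add_zero 0)
    rw [h4, h5.tr]
    simp only [Complex.ofReal_re]
  rw [e, intervalIntegral.integral_of_le zero_le_one, integral_integral_swap]
  · refine integral_congr_ae (Eventually.of_forall fun x => ?_)
    simp only
    rw [← intervalIntegral.integral_of_le zero_le_one, integral_log_aux (h0.trans_le (hl x))]
  · refine Integrable.of_bound (C := (M + 1) / m0) ?_ ?_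
    · refine Measurable.aestronglyMeasurable ?_
      unfold Function.uncurry
      fun_prop
    · have : ∀ᵐ p : ℝ × X ∂((volume.restrict (Set.Ioc (0 : ℝ) 1)).prod S.μ),
          p.1 ∈ Set.Ioc (0 : ℝ) 1 :=
        Measure.quasiMeasurePreserving_fst.ae (ae_restrict_mem measurableSet_Ioc)
      filter_upwards [this] with p hp'
      have h2 := hp p.1 (Set.Ioc_subset_Icc_self hp') p.2
      unfold Function.uncurry
      rw [norm_div, Real.norm_of_nonneg (h0.le.trans h2)]
      refine div_le_div₀ (by linarith [hl p.2, hu p.2]) ?_ h0 h2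
      rw [Real.norm_eq_abs, abs_le]
      constructor <;> linarith [hl p.2, hu p.2]

lemma Sys.jensen_marker (S : Sys X) {u v : S.A} {d b : X → ℂ} {M m0 : ℝ} (hu : IsW u d 0)
    (hv : IsW v b 1) (hd : Bdd d M) (hb : Bdd b M) (h0 : 0 < m0) (hl : ∀ x, m0 ≤ ‖d x‖)
    {E : Set X} (hE : MeasurableSet E) {N : ℕ} (hN : ∀ x, ∃ l < N, S.σ (l : ℕ) x ∈ E)
    {ε l : ℝ} (hε : 0 < ε) (hl0 : 0 < l) :
    ∫ x, Real.log (‖d x‖ ^ 2) ∂S.μ ≤ S.tr.D ε (u - v) + l + M ^ 2 * S.μ.real E / (l * ε) := by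
  have := S.prob
  have hd0 : ∀ x, d x ≠ 0 := fun x => norm_pos_iff.mp (h0.trans_le (hl x))
  have hbk : Bdd (E.indicator b) M :=
    ⟨hb.meas.indicator hE, fun x => (norm_indicator_le_norm_self _ _).trans (hb.le x)⟩
  have hbB : Bdd (fun x => (d x)⁻¹ * (b x - E.indicator b x)) (m0⁻¹ * (M + M)) := by
    refine ⟨hd.meas.inv.mul (hb.meas.sub hbk.meas), fun x => ?_⟩
    rw [norm_mul, norm_inv]
    exact mul_le_mul (inv_anti₀ h0 (hl x)) ((norm_sub_le _ _).trans
      (add_le_add (hb.le x) (hbk.le x))) (norm_nonneg _) (inv_nonneg.mpr h0.le)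
  have hbd : Bdd (fun x => (d x)⁻¹) m0⁻¹ :=
    ⟨hd.meas.inv, fun x => by rw [norm_inv]; exact inv_anti₀ h0 (hl x)⟩
  have hk := IsW.W S _ hbk 1
  have hB := IsW.W S _ hbB 1
  have hdi := IsW.W S _ hbd 0
  set k := S.W _ hbk 1
  set B := S.W _ hbB 1
  have hBN : B ^ N = 0 := by
    refine IsW.unique ((hB.pow N).congr (fun x => ?_) rfl) (IsW.zero S N)
    obtain ⟨i, hi, hi'⟩ := hN x
    refine Finset.prod_eq_zero (Finset.mem_range.mpr hi) ?_
    rw [Set.indicator_of_mem hi', sub_self, mul_zero]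
  obtain ⟨hunit, hlam⟩ := S.tr.Lam_one_sub (B := B) (fun s _ => by
    refine summable_of_ne_finset_zero (s := Finset.range N) fun n hn => ?_
    rw [Finset.mem_range, not_lt] at hn
    rw [smul_pow, pow_eq_zero_of_le hn hBN, smul_zero]) hB.tr_pow
  have huu : IsUnit u := by
    refine ⟨⟨u, S.W _ hbd 0, ?_, ?_⟩, rfl⟩
    · refine IsW.unique ((hu.mul hdi).congr (fun x => ?_) (add_zero 0)) (IsW.one S)
      rw [S.σ_zero, mul_inv_cancel₀ (hd0 x)]
    · refine IsW.unique ((hdi.mul hu).congr (fun x => ?_) (add_zero 0)) (IsW.one S)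
      rw [S.σ_zero, inv_mul_cancel₀ (hd0 x)]
  have e1 : u - v + k = u * (1 - B) := by
    have : u * B = v - k := by
      refine IsW.unique ((hu.mul hB).congr (fun x => ?_) (zero_add 1)) (hv.sub hk)
      rw [S.σ_zero, mul_inv_cancel_left₀ (hd0 x)]
    rw [mul_sub, mul_one, this]
    abel
  have h1 := S.tr.D_add_le hε hl0 (u - v) k
  have h2 : S.tr.t (star k * k) ≤ M ^ 2 * S.μ.real E := by
    rw [S.tr.comm, hk.mul_star.tr]
    simp only [Complex.ofReal_re]
    rw [mul_comm, ← smul_eq_mul, ← integral_indicator_const _ hE]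
    refine integral_mono_of_nonneg (Eventually.of_forall fun x => by positivity)
      ((integrable_const _).indicator hE) (Eventually.of_forall fun x => ?_)
    by_cases hx : x ∈ E
    · simp only [Set.indicator_of_mem hx]
      exact pow_le_pow_left₀ (norm_nonneg _) (hb.le x) 2
    · simp [Set.indicator_of_notMem hx]
  have h3 : S.tr.Lam (star u * u) = ∫ x, Real.log (‖d x‖ ^ 2) ∂S.μ := by
    refine S.Lam_diag (m := fun x => ‖d x‖ ^ 2) ?_ (hd.meas.norm.pow_const 2)
      (m0 := min 1 (m0 ^ 2)) (M := M ^ 2) (by positivity) (min_le_left _ _)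
      (fun x => (min_le_right _ _).trans (pow_le_pow_left₀ h0.le (hl x) 2))
      (fun x => pow_le_pow_left₀ (norm_nonneg _) (hd.le x) 2)
    refine (hu.star.mul hu).congr (fun x => ?_) (by simp)
    rw [neg_zero, S.σ_zero, Complex.conj_mul']
    push_cast
    rfl
  have h4 := S.tr.Lam_conj (sp_star_mul huu) hunit
  have h5 : S.tr.Lam (star (1 - B) * (star u * u) * (1 - B)) ≤ S.tr.D ε (u * (1 - B)) := by
    have e2 : star (1 - B) * (star u * u) * (1 - B) = star (u * (1 - B)) * (u * (1 - B)) := by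
      rw [star_mul]; noncomm_ring
    rw [e2]
    exact S.tr.Lam_mono (sp_star_mul (huu.mul hunit)) (le_add_of_nonneg_left (sp_smul_one hε).nonneg)
  rw [e1] at h1
  have h6 : S.tr.t (star k * k) / (l * ε) ≤ M ^ 2 * S.μ.real E / (l * ε) := by gcongr
  linarith

/-- extension by a cyclic rotation -/
def Sys.cyc (S : Sys X) (N : ℕ) [NeZero N] : Sys (X × ZMod N) where
  μ := S.μ.prod ((N : ℝ≥0∞)⁻¹ • Measure.count)
  prob := by
    have := S.prob
    have : IsProbabilityMeasure ((N : ℝ≥0∞)⁻¹ • (Measure.count : Measure (ZMod N))) := ⟨by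
      rw [Measure.smul_apply, Measure.count_univ, smul_eq_mul, ENat.card_eq_coe_fintype_card,
        ZMod.card]
      exact ENNReal.inv_mul_cancel (by simp [NeZero.ne N]) (by simp)⟩
    infer_instance
  σ k y := (S.σ k y.1, y.2 + k)
  σ_zero y := by simp [S.σ_zero]
  σ_add i j y := by simp [S.σ_add, add_comm, add_left_comm]
  mp k := by
    have := S.prob
    exact (S.mp k).prod (measurePreserving_add_right _ (k : ZMod N))

lemma Sys.jensen (S : Sys X) {u v : S.A} {d b : X → ℂ} {M m0 : ℝ} (hu : IsW u d 0)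
    (hv : IsW v b 1) (hd : Bdd d M) (hb : Bdd b M) (h0 : 0 < m0) (hl : ∀ x, m0 ≤ ‖d x‖)
    {ε : ℝ} (hε : 0 < ε) : ∫ x, Real.log (‖d x‖ ^ 2) ∂S.μ ≤ S.tr.D ε (u - v) := by
  have := S.prob
  refine le_of_forall_pos_le_add fun η hη => ?_
  obtain ⟨N, hN, hN0⟩ := ((ev_const_le (M ^ 2) (η := η / 2 * (η / 2 * ε)) (by positivity)).and
    (eventually_gt_atTop 0)).exists
  have : NeZero N := ⟨hN0.ne'⟩
  have hν : IsProbabilityMeasure ((N : ℝ≥0∞)⁻¹ • (Measure.count : Measure (ZMod N))) := ⟨by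
      rw [Measure.smul_apply, Measure.count_univ, smul_eq_mul, ENat.card_eq_coe_fintype_card,
        ZMod.card]
      exact ENNReal.inv_mul_cancel (by simp [NeZero.ne N]) (by simp)⟩
  have hπ : MeasurePreserving Prod.fst (S.cyc N).μ S.μ := measurePreserving_fst
  have he : ∀ k y, Prod.fst ((S.cyc N).σ k y) = S.σ k (Prod.fst y) := fun _ _ => rfl
  have h1 := (S.cyc N).jensen_marker (hu.lift _ _ hπ he) (hv.lift _ _ hπ he)
    (M := M) ⟨hd.meas.comp measurable_fst, fun y => hd.le _⟩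
    ⟨hb.meas.comp measurable_fst, fun y => hb.le _⟩ h0 (fun y => hl _)
    (E := Set.univ ×ˢ {0}) (MeasurableSet.univ.prod (measurableSet_singleton _)) (N := N)
    (fun y => ⟨(-y.2).val, ZMod.val_lt _, by simp [Sys.cyc]⟩) hε (half_pos hη)
  rw [← map_sub, S.tr.D_map _ _ (S.tr_lift _ _ hπ he) hε] at h1
  have h2 : ∫ y, Real.log (‖d (Prod.fst y)‖ ^ 2) ∂(S.cyc N).μ = ∫ x, Real.log (‖d x‖ ^ 2) ∂S.μ := by
    rw [← hπ.map_eq, integral_map (f := fun x => Real.log (‖d x‖ ^ 2)) hπ.measurable.aemeasurable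
      (hd.meas.norm.pow_const 2).log.aestronglyMeasurable]
  have h3 : (S.cyc N).μ.real (Set.univ ×ˢ {0}) = (N : ℝ)⁻¹ := by
    rw [Measure.real]
    change (S.μ.prod _ _).toReal = _
    rw [Measure.prod_prod]
    simp
  rw [h2, h3] at h1
  have hN' : (0 : ℝ) < N := by exact_mod_cast hN0
  have h4 : M ^ 2 * (N : ℝ)⁻¹ / (η / 2 * ε) ≤ η / 2 := by
    rw [div_le_iff₀ (by positivity), ← div_eq_mul_inv, div_le_iff₀ hN']
    linarith
  linarith

theorem Sys.soft (S : Sys X) (a : X → ℂ) {C : ℝ} (ha : Bdd a C) (hC : 0 ≤ C)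
    (h0 : ∀ᵐ x ∂S.μ, a x ≠ 0) (hlog : Integrable (fun x => Real.log ‖a x‖) S.μ) :
    ∃ c > 0, ∀ δ > 0, ∃ ζ : ℂ, c ≤ ‖ζ‖ ∧ ‖ζ‖ ≤ 2 * C + 2 ∧ ∃ θ > 0, ∃ p : ℕ → S.A,
      (∀ n, IsSelfAdjoint (p n)) ∧ (∀ n, ‖p n‖ ≤ 1) ∧
      (∀ n, ‖(S.W a ha 1 - algebraMap ℂ S.A ζ) ^ n * p n‖ ≤ δ ^ n) ∧
      (∀ᶠ n in atTop, θ ≤ S.tr.t (p n)) ∧
      (∀ η > 0, ∃ N, ∀ n ≥ N, ∀ m ≥ N, S.tr.t ((p n - p m) * (p n - p m)) ≤ η) := by
  have := S.prob
  have hA := IsW.W S a ha 1
  set A := S.W a ha 1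
  refine ⟨Real.exp (∫ x, Real.log ‖a x‖ ∂S.μ) / 2, by positivity, fun δ hδ => ?_⟩
  refine S.tr.soft_abstract A hC (S.norm_W_le a ha hC 1) (by positivity)
    (fun c k => (hA.smul c).tr_pow k) (fun ζ hζ ε hε => ?_) (fun ζ ε hε => ?_) hδ
  · have h1 := S.jensen (IsW.algebraMap S ζ) hA (M := max C ‖ζ‖)
      ⟨measurable_const, fun _ => le_max_right _ _⟩ ⟨ha.meas, fun x => (ha.le x).trans (le_max_left _ _)⟩
      (norm_pos_iff.mpr hζ) (fun _ => le_rfl) hε
    rw [integral_const, probReal_univ, one_smul] at h1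
    rwa [S.tr.D_sub_comm]
  · rw [mul_div_cancel₀ _ two_ne_zero, Real.log_pow, Real.log_exp]
    have hb1 : Bdd (fun _ : X => (1 : ℂ)) 1 := ⟨measurable_const, fun _ => by simp⟩
    have hU := IsW.W S _ hb1 1
    set U := S.W _ hb1 1
    have hUU : star U * U = 1 :=
      IsW.unique ((hU.star.mul hU).congr (fun x => by simp) (by simp)) (IsW.one S)
    have h1 : S.tr.D ε (A - algebraMap ℂ S.A ζ) = S.tr.D ε (U * star (A - algebraMap ℂ S.A ζ)) := by
      rw [← S.tr.D_star hε, Tr.D, Tr.D, star_mul, mul_assoc, ← mul_assoc (star U), hUU, one_mul]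
    have hu : IsW (U * star A) (fun x => (starRingEnd ℂ) (a x)) 0 :=
      (hU.mul hA.star).congr (fun x => by rw [← S.σ_add]; simp [S.σ_zero]) (by simp)
    have hv : IsW (U * star (algebraMap ℂ S.A ζ)) (fun _ => (starRingEnd ℂ) ζ) 1 :=
      (hU.mul (IsW.algebraMap S ζ).star).congr (fun x => by simp) (by simp)
    rw [h1, star_sub, mul_sub]
    refine le_of_forall_pos_le_add fun η hη => ?_
    obtain ⟨κ, hκ, hκ2⟩ : ∃ κ : ℝ, 0 < κ ∧ (2 * κ) ^ 2 ≤ η / 2 * (η / 2 * ε) :=
      ⟨√(η / 2 * (η / 2 * ε)) / 2, by positivity, by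
        rw [mul_div_cancel₀ _ two_ne_zero, Real.sq_sqrt (by positivity)]⟩
    set d : X → ℂ := fun x => if κ ≤ ‖a x‖ then (starRingEnd ℂ) (a x) else κ with hd
    have hca : Measurable fun x => (starRingEnd ℂ) (a x) :=
      Complex.continuous_conj.measurable.comp ha.meas
    have hdm : Measurable d :=
      Measurable.ite (measurableSet_le measurable_const ha.meas.norm) hca measurable_const
    have hdn : ∀ x, ‖d x‖ = max κ ‖a x‖ := fun x => by
      simp only [hd]
      split_ifs with h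
      · rw [Complex.norm_conj, max_eq_right h]
      · rw [Complex.norm_real, Real.norm_of_nonneg hκ.le, max_eq_left (not_le.mp h).le]
    have hk : Bdd (fun x => d x - (starRingEnd ℂ) (a x)) (2 * κ) := by
      refine ⟨hdm.sub hca, fun x => ?_⟩
      simp only [hd]
      split_ifs with h
      · rw [sub_self, norm_zero]; positivity
      · refine (norm_sub_le _ _).trans ?_
        rw [Complex.norm_real, Real.norm_of_nonneg hκ.le, Complex.norm_conj]
        linarith [not_le.mp h]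
    have hdB : Bdd d (max (max κ C) ‖ζ‖) := ⟨hdm, fun x => by
      rw [hdn]
      exact (max_le_max le_rfl (ha.le x)).trans (le_max_left _ _)⟩
    have h2 := S.jensen (hu.add (IsW.W S _ hk 0)) hv (M := max (max κ C) ‖ζ‖) (m0 := κ)
      (by simpa using hdB) ⟨measurable_const, fun _ => by simp⟩ hκ
      (fun x => by simp [hdn]) hε
    simp only [add_sub_cancel] at h2
    rw [← sub_add_eq_add_sub] at h2
    have h3 := S.tr.D_add_le hε (half_pos hη) (U * star A - U * star (algebraMap ℂ S.A ζ))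
      (S.W _ hk 0)
    have h4 : S.tr.t (star (S.W _ hk 0) * S.W _ hk 0) ≤ (2 * κ) ^ 2 := by
      refine (S.tr.mono (star_mul_le_norm_sq _)).trans ?_
      rw [S.tr.smul_one]
      exact pow_le_pow_left₀ (norm_nonneg _) (S.norm_W_le _ hk (by positivity) 0) 2
    have h5 : S.tr.t (star (S.W _ hk 0) * S.W _ hk 0) / (η / 2 * ε) ≤ η / 2 := by
      rw [div_le_iff₀ (by positivity)]
      linarith
    have h6 : (2 : ℕ) * ∫ x, Real.log ‖a x‖ ∂S.μ ≤ ∫ x, Real.log (‖d x‖ ^ 2) ∂S.μ := by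
      simp only [Real.log_pow]
      rw [integral_const_mul]
      refine mul_le_mul_of_nonneg_left ?_ (Nat.cast_nonneg _)
      refine integral_mono_ae hlog ?_ ?_
      · refine S.integrable_of_le hdm.norm.log.aestronglyMeasurable
          (|Real.log κ| + |Real.log (max (max κ C) ‖ζ‖)|) fun x => ?_
        have h7 : κ ≤ ‖d x‖ := by rw [hdn]; exact le_max_left _ _
        have h8 := Real.log_le_log hκ h7
        have h9 := Real.log_le_log (hκ.trans_le h7) (hdB.le x)
        rw [Real.norm_eq_abs, abs_le]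
        constructor
        · linarith [neg_abs_le (Real.log κ), abs_nonneg (Real.log (max (max κ C) ‖ζ‖))]
        · linarith [le_abs_self (Real.log (max (max κ C) ‖ζ‖)), abs_nonneg (Real.log κ)]
      · filter_upwards [h0] with x hx
        exact Real.log_le_log (norm_pos_iff.mpr hx) (by rw [hdn]; exact le_max_right _ _)
    linarith

end Pool.Agent.P.MP_f981b0_an.Bish
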