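import Pool.Agent.P.MP_f981b0_an.Bish.Schur
import Pool.Agent.P.MP_f981b0_an.Bish.Jensen

open MeasureTheory Filter
open scoped ENNReal

noncomputable section
namespace Pool.Agent.P.MP_f981b0_an.Bish

variable {X : Type*} [MeasurableSpace X]

theorem Sys.core [MeasurableSpace.CountablySeparated X] (S : Sys X) (w : X → ℂ) {C : ℝ}
    (hw : Bdd w C) (h0 : ∀ᵐ x ∂S.μ, w x ≠ 0) (hlog : Integrable (fun x => Real.log ‖w x‖) S.μ)
    (hap : ∀ᵐ x ∂S.μ, ∀ j, j ≠ 0 → S.σ j x ≠ x) :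
    ∃ c > 0, ∃ R : ℝ, ∀ δ > 0, ∃ s : ℝ, c ≤ s ∧ s ≤ R ∧ ∃ θ > 0, ∃ al : X → ℂ, Bdd al 1 ∧
      ∃ f : ℕ → X → ℂ, (∀ n, Bdd (f n) 1) ∧
        (∀ n x, ‖(S.Ts w s)^[2 * n] (f n) x‖ ≤ δ ^ n) ∧
        (∀ᶠ n in atTop, θ ≤ (∫ x, al x * f n x ∂S.μ).re) ∧
        (∀ η > 0, ∃ N, ∀ n ≥ N, ∀ m ≥ N, ∫ x, ‖f n x - f m x‖ ∂S.μ ≤ η) := by
  have := S.prob
  let a : X → ℂ := fun x => w x ^ ((2 : ℕ) : ℂ)⁻¹
  have ha2 : ∀ x, a x ^ 2 = w x := fun x => Complex.cpow_nat_inv_pow _ two_ne_zero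
  have hn2 : ∀ x, ‖a x‖ ^ 2 = ‖w x‖ := fun x => by rw [← norm_pow, ha2]
  have hC : 0 ≤ |C| + 1 := by positivity
  have ha : Bdd a (|C| + 1) := by
    refine ⟨hw.meas.pow_const _, fun x => ?_⟩
    have h1 := hw.le x
    have h2 := le_abs_self C
    nlinarith [hn2 x, sq_nonneg (‖a x‖ - 1), norm_nonneg (a x)]
  have ha0 : ∀ᵐ x ∂S.μ, a x ≠ 0 := by
    filter_upwards [h0] with x hx h
    apply hx
    rw [← ha2, h]
    simp
  have halog : Integrable (fun x => Real.log ‖a x‖) S.μ := by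
    refine (hlog.const_mul (1 / 2)).congr (Eventually.of_forall fun x => ?_)
    simp only [← hn2, Real.log_pow]
    push_cast
    ring
  obtain ⟨c, hc, hsoft⟩ := S.soft a ha hC ha0 halog
  refine ⟨c ^ 2, by positivity, (2 * (|C| + 1) + 2) ^ 2, fun δ hδ => ?_⟩
  set M : ℝ := 3 * (|C| + 1) + 2 with hM
  have hM1 : 1 ≤ M := by linarith
  have hM0 : 0 < M := by linarith
  obtain ⟨ζ, hζ1, hζ2, θ, hθ, p, hsa, hp1, hpn, hpt, hpc⟩ := hsoft (δ / (4 * M ^ 4)) (by positivity)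
  have hζ0 : 0 < ‖ζ‖ := hc.trans_le hζ1
  let s : ℝ := ‖ζ‖ ^ 2
  have hs0 : (s : ℂ) ≠ 0 := by exact_mod_cast (show s ≠ 0 by positivity)
  let lam : ℂ := ζ ^ 2 / s
  have hl : ‖lam‖ = 1 := by
    simp only [lam, s, norm_div, norm_pow, Complex.norm_real, norm_norm]
    field_simp
  have hζ : ζ ^ 2 = lam * s := by
    simp only [lam]
    field_simp
  refine ⟨s, pow_le_pow_left₀ hc.le hζ1 2, pow_le_pow_left₀ hζ0.le hζ2 2, θ ^ 2 / 4, by positivity,
    ?_⟩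
  obtain ⟨N1, hN1⟩ := hpc ((θ ^ 2 / 8) ^ 2) (by positivity)
  obtain ⟨N2, hN2⟩ := eventually_atTop.mp hpt
  obtain ⟨al, hal, hal2⟩ := S.exists_test hap hl (hsa (max N1 N2)) hθ (hN2 _ (le_max_right _ _))
  have hb : ∀ n, Bdd (S.Sq lam al (p n) (p n)) 1 := fun n =>
    ⟨S.meas_Sq lam hal.meas _ _, fun x => (S.norm_Sq_le hl hal _ _ x).trans
      (mul_le_one₀ (hp1 n) (norm_nonneg _) (hp1 n))⟩
  refine ⟨al, hal, fun n => S.Sq lam al (p n) (p n), hb, fun n x => ?_, ?_, fun η hη => ?_⟩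
  · have hA : ‖S.W a ha 1‖ ≤ |C| + 1 := S.norm_W_le a ha hC 1
    have hX : ‖S.W a ha 1 - algebraMap ℂ S.A ζ‖ ≤ M := by
      refine (norm_sub_le _ _).trans ?_
      have : ‖algebraMap ℂ S.A ζ‖ ≤ ‖ζ‖ := by
        rw [Algebra.algebraMap_eq_smul_one, norm_smul]
        exact mul_le_of_le_one_right (norm_nonneg _) 
          (lp.norm_le_of_forall_le (f := (1 : Big X)) zero_le_one fun _ => norm_one.le)
      linarith
    have h1 := S.iter_bound hl hζ hal a ha hM1 (by positivity : 0 ≤ δ / (4 * M ^ 4))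
      (by linarith) hX (by linarith) (p n) (hp1 n) n (hpn n) (2 * n) 0 0 0 (by omega) x
    simp only [pow_zero, one_mul, ha2, zero_add] at h1
    refine h1.trans (le_of_eq ?_)
    rw [show 2 * (2 * n) = 4 * n by ring, pow_mul, pow_mul, ← mul_pow, ← mul_pow]
    congr 1
    field_simp
    ring
  · filter_upwards [eventually_ge_atTop (max N1 N2)] with n hn
    have h1 := S.integral_Sq_sub_le hl hal (hsa n) (hsa (max N1 N2)) (hp1 _) (hp1 _)
      (by positivity : 0 < θ ^ 2 / 8) (hN1 n ((le_max_left _ _).trans hn) _ (le_max_left _ _))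
    have hi : ∀ k, Integrable (fun x => al x * S.Sq lam al (p k) (p k) x) S.μ := fun k =>
      S.integrable_of_le (hal.meas.mul (hb k).meas).aestronglyMeasurable 1 fun x => by
        rw [norm_mul]
        exact mul_le_one₀ (hal.le x) (norm_nonneg _) ((hb k).le x)
    have h2 : ‖∫ x, al x * S.Sq lam al (p n) (p n) x ∂S.μ -
        ∫ x, al x * S.Sq lam al (p (max N1 N2)) (p (max N1 N2)) x ∂S.μ‖ ≤ 2 * (θ ^ 2 / 8) := by
      rw [← integral_sub (hi _) (hi _)]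
      refine le_trans (norm_integral_le_of_norm_le ?_ (Eventually.of_forall fun x => ?_)) h1
      · exact (S.integrable_of_le ((hb n).meas.sub (hb _).meas).aestronglyMeasurable (1 + 1)
          fun x => (norm_sub_le _ _).trans (add_le_add ((hb n).le x) ((hb _).le x))).norm
      · rw [← mul_sub, norm_mul]
        exact mul_le_of_le_one_left (norm_nonneg _) (hal.le x)
    have h3 := (Complex.abs_re_le_norm _).trans h2
    rw [Complex.sub_re, abs_le] at h3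
    linarith [h3.1]
  · obtain ⟨N, hN⟩ := hpc ((η / 2) ^ 2) (by positivity)
    refine ⟨N, fun n hn m hm => ?_⟩
    have := S.integral_Sq_sub_le hl hal (hsa n) (hsa m) (hp1 _) (hp1 _)
      (by positivity : 0 < η / 2) (hN n hn m hm)
    linarith

end Pool.Agent.P.MP_f981b0_an.Bish
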