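import Pool.Agent.P.MP_f981b0_an.Bish.Lam

/-! Inequalities for the logarithmic determinant. -/

open Ring Filter Topology

noncomputable section
namespace Pool.Agent.P.MP_f981b0_an.Bish

variable {A : Type*} [CStarAlgebra A] [PartialOrder A] [StarOrderedRing A]

lemma sp_affine {z z' : A} (hz : IsStrictlyPositive z) (hz' : IsStrictlyPositive z') {s : ℝ}
    (hs : s ∈ Set.Icc (0 : ℝ) 1) : IsStrictlyPositive (z + s • (z' - z)) := by
  have e : z + s • (z' - z) = (1 - s) • z + s • z' := by module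
  rw [e]
  rcases eq_or_lt_of_le hs.1 with h | h
  · subst h; simpa using hz
  · exact IsStrictlyPositive.nonneg_add (smul_nonneg (by linarith [hs.2]) hz.nonneg) (hz'.smul h)

lemma sp_add_smul {z q : A} (hz : IsStrictlyPositive z) (hq : 0 ≤ q) {s : ℝ} (hs : 0 ≤ s) :
    IsStrictlyPositive (z + s • q) := hz.add_nonneg (smul_nonneg hs hq)

lemma sp_eps {ε : ℝ} (hε : 0 < ε) (b : A) : IsStrictlyPositive (ε • (1 : A) + star b * b) :=
  (sp_smul_one hε).add_nonneg (star_mul_self_nonneg b)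

lemma sp_star_mul {g : A} (hg : IsUnit g) : IsStrictlyPositive (star g * g) :=
  ⟨star_mul_self_nonneg g, hg.star.mul hg⟩

/-- `|x + k|^2 ≤ (1 + l) |x|^2 + (1 + 1/l) |k|^2` -/
lemma star_add_mul_le (x k : A) {l : ℝ} (hl : 0 < l) :
    star (x + k) * (x + k) ≤ (1 + l) • (star x * x) + (1 + l⁻¹) • (star k * k) := by
  have e : (1 + l) • (star x * x) + (1 + l⁻¹) • (star k * k) - star (x + k) * (x + k) =
      l⁻¹ • (star (l • x - k) * (l • x - k)) := by
    simp only [star_add, star_sub, star_smul, star_trivial, add_mul, mul_add, sub_mul, mul_sub,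
      smul_mul_assoc, mul_smul_comm, smul_sub, smul_smul, inv_mul_cancel₀ hl.ne',
      inv_mul_cancel_left₀ hl.ne']
    module
  rw [← sub_nonneg, e]
  exact smul_nonneg (inv_nonneg.mpr hl.le) (star_mul_self_nonneg _)

lemma conj_inv_le {z M : A} (hz : IsStrictlyPositive z) (hM : IsStrictlyPositive M) (a : A) :
    a * (z + star a * M * a)⁻¹ʳ * star a ≤ M⁻¹ʳ := by
  have hZ : IsStrictlyPositive (z + star a * M * a) :=
    hz.add_nonneg (star_left_conjugate_nonneg hM.nonneg a)
  set R := (z + star a * M * a)⁻¹ʳ with hR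
  set N := M⁻¹ʳ with hN
  have hRs : star R = R := hZ.ringInverse.isSelfAdjoint.star_eq
  have hNs : star N = N := hM.ringInverse.isSelfAdjoint.star_eq
  have e1 : R * (z + star a * M * a) = 1 := Ring.inverse_mul_cancel _ hZ.isUnit
  have e2 : N * M = 1 := Ring.inverse_mul_cancel _ hM.isUnit
  have e3 : M * N = 1 := Ring.mul_inverse_cancel _ hM.isUnit
  have e4 : N - a * R * star a = star (N - a * R * star a) * M * (N - a * R * star a) +
      star (R * star a) * z * (R * star a) := by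
    simp only [star_sub, star_mul, star_star, hRs, hNs]
    have h1 : (N - a * (R * star a)) * M * (N - a * R * star a) + a * R * z * (R * star a) =
        (N * M) * N - (N * M) * (a * R * star a) - a * R * star a * (M * N) +
          a * (R * (z + star a * M * a)) * (R * star a) := by noncomm_ring
    rw [h1, e1, e2, e3]
    noncomm_ring
  rw [← sub_nonneg, e4]
  exact add_nonneg (star_left_conjugate_nonneg hM.nonneg _) (star_left_conjugate_nonneg hz.nonneg _)

namespace Tr
variable (τ : Tr A)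

lemma Lam_mono {z z' : A} (hz : IsStrictlyPositive z) (h : z ≤ z') : τ.Lam z ≤ τ.Lam z' := by
  have hz' := hz.of_le h
  have := le_of_deriv_nonneg (G := fun u : ℝ => τ.Lam (z + u • (z' - z)))
    (fun s hs => τ.hasDerivAt_Lam_affine hz.isSelfAdjoint
      (hz'.isSelfAdjoint.sub hz.isSelfAdjoint) (sp_affine hz hz' hs))
    (fun s hs => τ.mul_nonneg' (inv_nonneg' (sp_affine hz hz' hs)) (sub_nonneg.mpr h))
  simpa using this

lemma Lam_smul {z : A} (hz : IsStrictlyPositive z) {c : ℝ} (hc : 0 < c) :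
    τ.Lam (c • z) = Real.log c + τ.Lam z := by
  have hp : ∀ s ∈ Set.Icc (0 : ℝ) 1, 0 < 1 + s * (c - 1) := by
    intro s hs
    rcases eq_or_lt_of_le hs.1 with h | h
    · subst h; simp
    · nlinarith [hs.2, mul_pos h hc]
  have e : ∀ s : ℝ, z + s • ((c - 1) • z) = (1 + s * (c - 1)) • z := fun s => by module
  have := eq_of_deriv_zero
    (G := fun u : ℝ => τ.Lam (z + u • ((c - 1) • z)) - Real.log (1 + u * (c - 1)))
    (fun s hs => (τ.hasDerivAt_Lam_affine hz.isSelfAdjoint (sa_smul _ hz.isSelfAdjoint)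
      (by rw [e]; exact hz.smul (hp s hs))).sub
      ((((hasDerivAt_id s).mul_const (c - 1)).const_add 1).log (hp s hs).ne'))
    (fun s hs => by
      rw [e, inv_smul' (hp s hs).ne' hz.isUnit, smul_mul_smul_comm,
        Ring.inverse_mul_cancel _ hz.isUnit, τ.smul_one]
      simp only [id, one_mul]
      field_simp
      ring)
  simp only [e] at this
  simp at this
  linarith

lemma Lam_smul_one {c : ℝ} (hc : 0 < c) : τ.Lam (c • (1 : A)) = Real.log c := by
  rw [τ.Lam_smul isStrictlyPositive_one hc, τ.Lam_one, add_zero]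

lemma Lam_conj {z g : A} (hz : IsStrictlyPositive z) (hg : IsUnit g) :
    τ.Lam (star g * z * g) = τ.Lam z + τ.Lam (star g * g) := by
  have e : ∀ s : ℝ, star g * g + s • (star g * (z - 1) * g) = star g * (1 + s • (z - 1)) * g :=
    fun s => by simp only [mul_add, add_mul, mul_one, smul_mul_assoc, mul_smul_comm]
  have hs1 : IsSelfAdjoint (z - 1) := hz.isSelfAdjoint.sub (IsSelfAdjoint.one A)
  have := eq_of_deriv_zero
    (G := fun u : ℝ => τ.Lam (star g * g + u • (star g * (z - 1) * g)) - τ.Lam (1 + u • (z - 1)))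
    (fun s hs => (τ.hasDerivAt_Lam_affine (IsSelfAdjoint.star_mul_self g)
      (hs1.conjugate' g)
      (by rw [e]; exact hg.isStrictlyPositive_star_left_conjugate_iff.mpr (seg_sp hz hs))).sub
      (τ.hasDerivAt_Lam_affine (IsSelfAdjoint.one A) hs1 (seg_sp hz hs)))
    (fun s hs => by
      have hu : IsUnit (1 + s • (z - 1)) := (seg_sp hz hs).isUnit
      rw [e]
      set S := 1 + s • (z - 1)
      have h1 : (star g * S * g)⁻¹ʳ = g⁻¹ʳ * S⁻¹ʳ * (star g)⁻¹ʳ := by
        apply inv_eq_of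
        · have : star g * S * g * (g⁻¹ʳ * S⁻¹ʳ * (star g)⁻¹ʳ) =
            star g * (S * (g * g⁻¹ʳ) * S⁻¹ʳ) * (star g)⁻¹ʳ := by noncomm_ring
          rw [this, Ring.mul_inverse_cancel _ hg, mul_one, Ring.mul_inverse_cancel _ hu, mul_one,
            Ring.mul_inverse_cancel _ hg.star]
        · have : g⁻¹ʳ * S⁻¹ʳ * (star g)⁻¹ʳ * (star g * S * g) =
            g⁻¹ʳ * (S⁻¹ʳ * ((star g)⁻¹ʳ * star g) * S) * g := by noncomm_ring
          rw [this, Ring.inverse_mul_cancel _ hg.star, mul_one, Ring.inverse_mul_cancel _ hu,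
            mul_one, Ring.inverse_mul_cancel _ hg]
      have h2 : g⁻¹ʳ * S⁻¹ʳ * (star g)⁻¹ʳ * (star g * (z - 1) * g) =
          g⁻¹ʳ * (S⁻¹ʳ * ((star g)⁻¹ʳ * star g) * (z - 1) * g) := by noncomm_ring
      rw [h1, h2, Ring.inverse_mul_cancel _ hg.star, mul_one, τ.comm, mul_assoc,
        Ring.mul_inverse_cancel _ hg, mul_one, sub_self])
  have e2 : star g * g + star g * (z - 1) * g = star g * z * g := by noncomm_ring
  simp only [zero_smul, add_zero, one_smul, τ.Lam_one, e2, add_sub_cancel] at this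
  linarith

lemma Lam_concave {z z' : A} (hz : IsStrictlyPositive z) (hz' : IsStrictlyPositive z') :
    τ.Lam z' ≤ τ.Lam z + τ.t (z⁻¹ʳ * (z' - z)) := by
  have hh := hz'.isSelfAdjoint.sub hz.isSelfAdjoint
  have := le_of_deriv_nonneg
    (G := fun u : ℝ => u * τ.t (z⁻¹ʳ * (z' - z)) - τ.Lam (z + u • (z' - z)))
    (fun s hs => ((hasDerivAt_id s).mul_const _).sub
      (τ.hasDerivAt_Lam_affine hz.isSelfAdjoint hh (sp_affine hz hz' hs)))
    (fun s hs => by
      have hS := sp_affine hz hz' hs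
      set h := z' - z
      set R := (z + s • h)⁻¹ʳ
      have e1 : (z + s • h) * R = 1 := Ring.mul_inverse_cancel _ hS.isUnit
      have e2 : z⁻¹ʳ * z = 1 := Ring.inverse_mul_cancel _ hz.isUnit
      have e3 : z⁻¹ʳ * h - R * h = s • (z⁻¹ʳ * (star h * R * h)) := by
        rw [hh.star_eq]
        have : s • (z⁻¹ʳ * (h * R * h)) = z⁻¹ʳ * ((z + s • h) * R) * h - (z⁻¹ʳ * z) * R * h := by
          simp only [add_mul, mul_add, smul_mul_assoc, mul_smul_comm, mul_assoc]
          abel
        rw [this, e1, e2, mul_one, one_mul]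
      rw [one_mul, ← map_sub, e3, map_smul]
      exact mul_nonneg hs.1 (τ.mul_nonneg' (inv_nonneg' hz)
        (star_left_conjugate_nonneg (inv_nonneg' hS) h)))
  simp at this
  rw [mul_sub, map_sub] at this ⊢
  linarith

lemma Lam_log {Z q : A} (hZ : IsStrictlyPositive Z) (hq : 0 ≤ q) (hqZ : q ≤ Z) {u : ℝ}
    (hu : -1 < u) : τ.Lam Z + Real.log (1 + u) * τ.t (Z⁻¹ʳ * q) ≤ τ.Lam (Z + u • q) := by
  have hp : ∀ s ∈ Set.Icc (0 : ℝ) 1, 0 < 1 + s * u := by
    intro s hs
    rcases eq_or_lt_of_le hs.1 with h | h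
    · subst h; simp
    · nlinarith [hs.2, mul_pos h (show 0 < 1 + u by linarith)]
  have e : ∀ s : ℝ, Z + s • (u • q) - (1 + s * u) • Z = (-(s * u)) • (Z - q) := fun s => by module
  have hsp : ∀ s ∈ Set.Icc (0 : ℝ) 1, IsStrictlyPositive (Z + s • (u • q)) := by
    intro s hs
    rcases le_total 0 u with h | h
    · exact sp_add_smul hZ (smul_nonneg h hq) hs.1
    · refine (hZ.smul (hp s hs)).of_le ?_
      rw [← sub_nonneg, e]
      exact smul_nonneg (by nlinarith [hs.1]) (sub_nonneg.mpr hqZ)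
  have := le_of_deriv_nonneg
    (G := fun s : ℝ => τ.Lam (Z + s • (u • q)) - Real.log (1 + s * u) * τ.t (Z⁻¹ʳ * q))
    (fun s hs => (τ.hasDerivAt_Lam_affine hZ.isSelfAdjoint (sa_smul _ hq.isSelfAdjoint)
      (hsp s hs)).sub
      (((((hasDerivAt_id s).mul_const u).const_add 1).log (hp s hs).ne').mul_const _))
    (fun s hs => by
      simp only [id, one_mul, mul_smul_comm, map_smul, smul_eq_mul]
      have e5 : τ.t (((1 + s * u) • Z)⁻¹ʳ * q) = (1 + s * u)⁻¹ * τ.t (Z⁻¹ʳ * q) := by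
        rw [inv_smul' (hp s hs).ne' hZ.isUnit, smul_mul_assoc, map_smul, smul_eq_mul]
      rw [div_eq_mul_inv, mul_assoc, ← e5, ← mul_sub]
      rcases le_total 0 u with h | h
      · refine mul_nonneg h (sub_nonneg.mpr (τ.mul_le_mul ?_ hq))
        refine CStarAlgebra.ringInverse_le_ringInverse ?_ (hsp s hs)
        rw [← sub_nonpos, e]
        exact smul_nonpos_of_nonpos_of_nonneg (by nlinarith [hs.1]) (sub_nonneg.mpr hqZ)
      · refine mul_nonneg_of_nonpos_of_nonpos h (sub_nonpos.mpr (τ.mul_le_mul ?_ hq))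
        refine CStarAlgebra.ringInverse_le_ringInverse ?_ (hZ.smul (hp s hs))
        rw [← sub_nonneg, e]
        exact smul_nonneg (by nlinarith [hs.1]) (sub_nonneg.mpr hqZ))
  simp at this
  linarith

lemma Lam_sub_one {z Q : A} (hz : IsStrictlyPositive z) (hQ : 0 ≤ Q) (a : A) :
    τ.Lam (z + star a * Q * a) ≤ τ.Lam (1 + Q) + τ.Lam (z + star a * a) := by
  have hza : IsStrictlyPositive (z + star a * a) := hz.add_nonneg (star_mul_self_nonneg a)
  have hQa : 0 ≤ star a * Q * a := star_left_conjugate_nonneg hQ a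
  have := le_of_deriv_nonneg
    (G := fun s : ℝ => τ.Lam (1 + s • Q) - τ.Lam (z + star a * a + s • (star a * Q * a)))
    (fun s hs => (τ.hasDerivAt_Lam_affine (IsSelfAdjoint.one A) hQ.isSelfAdjoint
      (sp_add_smul isStrictlyPositive_one hQ hs.1)).sub
      (τ.hasDerivAt_Lam_affine hza.isSelfAdjoint hQa.isSelfAdjoint (sp_add_smul hza hQa hs.1)))
    (fun s hs => by
      have e : z + star a * a + s • (star a * Q * a) = z + star a * (1 + s • Q) * a := by
        simp only [mul_add, add_mul, mul_one, smul_mul_assoc, mul_smul_comm, add_assoc]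
      rw [e, ← mul_assoc, τ.comm _ a, ← mul_assoc, ← mul_assoc, sub_nonneg]
      exact τ.mul_le_mul (conj_inv_le hz (sp_add_smul isStrictlyPositive_one hQ hs.1) a) hQ)
  simp only [zero_smul, add_zero, one_smul, τ.Lam_one] at this
  have h2 : τ.Lam (z + star a * Q * a) ≤ τ.Lam (z + star a * a + star a * Q * a) := by
    refine τ.Lam_mono (hz.add_nonneg hQa) ?_
    gcongr
    exact le_add_of_nonneg_right (star_mul_self_nonneg a)
  linarith

lemma Lam_sub {z Q : A} (hz : IsStrictlyPositive z) (hQ : 0 ≤ Q) (a : A) {β : ℝ} (hβ : 0 < β) :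
    τ.Lam (β • z + star a * Q * a) ≤ τ.Lam (β • 1 + Q) + τ.Lam (z + star a * a) := by
  have hQ' : 0 ≤ β⁻¹ • Q := smul_nonneg (inv_nonneg.mpr hβ.le) hQ
  have h1 := τ.Lam_sub_one hz hQ' a
  have e1 : β • z + star a * Q * a = β • (z + star a * (β⁻¹ • Q) * a) := by
    simp only [smul_add, mul_smul_comm, smul_mul_assoc, smul_smul, mul_inv_cancel₀ hβ.ne', one_smul]
  have e2 : β • (1 : A) + Q = β • (1 + β⁻¹ • Q) := by
    simp only [smul_add, smul_smul, mul_inv_cancel₀ hβ.ne', one_smul]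
  rw [e1, e2, τ.Lam_smul (hz.add_nonneg (star_left_conjugate_nonneg hQ' a)) hβ,
    τ.Lam_smul (isStrictlyPositive_one.add_nonneg hQ') hβ]
  linarith

/-- regularised logarithmic determinant -/
def D (ε : ℝ) (b : A) : ℝ := τ.Lam (ε • (1 : A) + star b * b)

lemma D_star {ε : ℝ} (hε : 0 < ε) (b : A) : τ.D ε (star b) = τ.D ε b := by
  have h1 : 0 ≤ star b * b := star_mul_self_nonneg b
  have h2 : 0 ≤ b * star b := mul_star_self_nonneg b
  have := eq_of_deriv_zero
    (G := fun s : ℝ => τ.Lam (ε • 1 + s • (b * star b)) - τ.Lam (ε • 1 + s • (star b * b)))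
    (fun s hs => (τ.hasDerivAt_Lam_affine (sa_smul_one ε) h2.isSelfAdjoint
      (sp_add_smul (sp_smul_one hε) h2 hs.1)).sub
      (τ.hasDerivAt_Lam_affine (sa_smul_one ε) h1.isSelfAdjoint
      (sp_add_smul (sp_smul_one hε) h1 hs.1)))
    (fun s hs => by
      have e1 := Ring.inverse_mul_cancel _ (sp_add_smul (sp_smul_one hε) h2 hs.1).isUnit
      have e2 := Ring.mul_inverse_cancel _ (sp_add_smul (sp_smul_one hε) h1 hs.1).isUnit
      set R' := (ε • (1 : A) + s • (b * star b))⁻¹ʳ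
      set R := (ε • (1 : A) + s • (star b * b))⁻¹ʳ
      have e3 : R' * b = b * R := by
        have : R' * b * ((ε • (1 : A) + s • (star b * b)) * R) =
            (R' * (ε • (1 : A) + s • (b * star b))) * b * R := by
          simp only [add_mul, mul_add, smul_mul_assoc, mul_smul_comm, mul_assoc, one_mul, mul_one]
        rwa [e1, e2, mul_one, one_mul] at this
      rw [← mul_assoc, e3, ← mul_assoc, τ.comm _ b, ← mul_assoc, sub_self])
  simp only [zero_smul, add_zero, one_smul, sub_self] at this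
  unfold D
  rw [star_star]
  linarith

lemma log_le_D {ε : ℝ} (hε : 0 < ε) (b : A) : Real.log ε ≤ τ.D ε b := by
  rw [← τ.Lam_smul_one hε]
  exact τ.Lam_mono (sp_smul_one hε) (le_add_of_nonneg_right (star_mul_self_nonneg b))

lemma D_mono {ε ε' : ℝ} (hε : 0 < ε) (h : ε ≤ ε') (b : A) : τ.D ε b ≤ τ.D ε' b :=
  τ.Lam_mono (sp_eps hε b) (add_le_add_left (smul_one_le_smul_one h) _)

lemma D_mul_le {ε ε' : ℝ} (hε : 0 < ε) (hε' : 0 < ε') (a b : A) :
    τ.D (ε * ε') (a * b) ≤ τ.D ε a + τ.D ε' b := by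
  have := τ.Lam_sub (sp_smul_one hε') (star_mul_self_nonneg a) b hε
  unfold D
  rw [smul_smul] at this
  rw [star_mul]
  simpa only [mul_assoc] using this

lemma le_D_mul {ε ε' : ℝ} (hε : 0 < ε) (hε' : 0 < ε') (a b : A) :
    τ.D ε a + τ.D ε' b ≤ τ.D (ε' * (ε + ‖a‖ ^ 2) + ε * ‖b‖ ^ 2) (a * b) := by
  have hP := sp_eps hε a
  obtain ⟨g, hg⟩ := CStarAlgebra.nonneg_iff_eq_star_mul_self.mp hP.nonneg
  have hgs : IsStrictlyPositive (CFC.sqrt (ε • (1 : A) + star a * a)) := hP.sqrt
  have hg2 := CFC.sqrt_mul_sqrt_self (ε • (1 : A) + star a * a) hP.nonneg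
  clear hg g
  set g := CFC.sqrt (ε • (1 : A) + star a * a)
  have hst : star g = g := hgs.isSelfAdjoint.star_eq
  have h1 := τ.Lam_conj (sp_eps hε' (star b)) hgs.isUnit
  rw [hst, hg2] at h1
  have hκ : 0 < ε' * (ε + ‖a‖ ^ 2) := by positivity
  have h2 : τ.Lam (g * (ε' • 1 + star (star b) * star b) * g) ≤
      τ.D (ε' * (ε + ‖a‖ ^ 2)) (star b * g) := by
    refine τ.Lam_mono ?_ ?_
    · have := hgs.isUnit.isStrictlyPositive_star_left_conjugate_iff.mpr (sp_eps hε' (star b))
      rwa [hst] at this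
    · have e : g * (ε' • 1 + star (star b) * star b) * g =
          ε' • (g * g) + star (star b * g) * (star b * g) := by
        simp only [star_mul, star_star, hst, add_mul, mul_add, smul_mul_assoc, mul_smul_comm,
          mul_assoc, mul_one]
      rw [e, hg2, ← smul_smul]
      gcongr
      rw [add_smul]
      gcongr
      exact star_mul_le_norm_sq a
  rw [← τ.D_star hκ] at h2
  have h3 : τ.D (ε' * (ε + ‖a‖ ^ 2)) (star (star b * g)) ≤
      τ.D (ε' * (ε + ‖a‖ ^ 2) + ε * ‖b‖ ^ 2) (a * b) := by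
    refine τ.Lam_mono (sp_eps hκ _) ?_
    have e : star (star (star b * g)) * star (star b * g) =
        ε • (star b * b) + star (a * b) * (a * b) := by
      have : star (star (star b * g)) * star (star b * g) = star b * (g * g) * b := by
        simp only [star_mul, star_star, hst, mul_assoc]
      rw [this, hg2]
      simp only [star_mul, add_mul, mul_add, smul_mul_assoc, mul_smul_comm, mul_assoc, mul_one]
    rw [e, add_smul, add_assoc, ← smul_smul ε]
    gcongr
    exact star_mul_le_norm_sq b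
  have h4 : τ.D ε' b = τ.Lam (ε' • 1 + star (star b) * star b) := (τ.D_star hε' b).symm
  have h5 : τ.D ε a = τ.Lam (ε • 1 + star a * a) := rfl
  linarith

lemma D_add_le {ε l : ℝ} (hε : 0 < ε) (hl : 0 < l) (x k : A) :
    τ.D ε (x + k) ≤ τ.D ε x + l + τ.t (star k * k) / (l * ε) := by
  have hl1 : 0 < 1 + l := by linarith
  have hk : 0 ≤ star k * k := star_mul_self_nonneg k
  have hz := sp_eps hε x
  have h1 : τ.D ε (x + k) ≤ τ.Lam ((1 + l) • ((ε • (1 : A) + star x * x) + l⁻¹ • (star k * k))) := by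
    refine τ.Lam_mono (sp_eps hε _) ?_
    have e : (1 + l) • ((ε • (1 : A) + star x * x) + l⁻¹ • (star k * k)) =
        ((1 + l) * ε) • (1 : A) + ((1 + l) • (star x * x) + (1 + l⁻¹) • (star k * k)) := by
      have : (1 + l) * l⁻¹ = 1 + l⁻¹ := by field_simp; ring
      rw [smul_add, smul_add, smul_smul, smul_smul, this, add_assoc]
    rw [e]
    exact add_le_add (smul_one_le_smul_one (by nlinarith)) (star_add_mul_le x k hl)
  have hz' := sp_add_smul hz hk (inv_nonneg.mpr hl.le)
  rw [τ.Lam_smul hz' hl1] at h1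
  have h2 := τ.Lam_concave hz hz'
  rw [add_sub_cancel_left, mul_smul_comm, map_smul, smul_eq_mul] at h2
  have h3 := τ.mul_le_mul (inv_le_of_le hε
    (le_add_of_nonneg_right (star_mul_self_nonneg x))) hk
  rw [smul_mul_assoc, one_mul, map_smul, smul_eq_mul] at h3
  have h4 : Real.log (1 + l) ≤ l := by
    have := Real.log_le_sub_one_of_pos hl1
    linarith
  have h5 : l⁻¹ * τ.t ((ε • (1 : A) + star x * x)⁻¹ʳ * (star k * k)) ≤
      τ.t (star k * k) / (l * ε) := by
    calc _ ≤ l⁻¹ * (ε⁻¹ * τ.t (star k * k)) := by gcongr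
      _ = _ := by field_simp
  unfold D at h1 ⊢
  linarith

/-- triangular elements with unit diagonal have determinant one -/
lemma Lam_one_sub {B : A} (hsum : ∀ s ∈ Set.Icc (0 : ℝ) 1, Summable fun k : ℕ => (s • B) ^ k)
    (htr : ∀ k : ℕ, τ.t (B ^ (k + 1)) = 0) :
    IsUnit (1 - B) ∧ τ.Lam (star (1 - B) * (1 - B)) = 0 := by
  have hinv : ∀ s ∈ Set.Icc (0 : ℝ) 1, IsUnit (1 - s • B) ∧
      (1 - s • B)⁻¹ʳ = ∑' k : ℕ, (s • B) ^ k := fun s hs =>
    ⟨⟨⟨1 - s • B, _, (hsum s hs).one_sub_mul_tsum_pow, (hsum s hs).tsum_pow_mul_one_sub⟩, rfl⟩,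
      inv_eq_of (hsum s hs).one_sub_mul_tsum_pow (hsum s hs).tsum_pow_mul_one_sub⟩
  refine ⟨by simpa using (hinv 1 ⟨zero_le_one, le_rfl⟩).1, ?_⟩
  have hd : ∀ s : ℝ, HasDerivAt (fun u : ℝ => (1 : A) - u • B) (-B) s := fun s => by
    simpa using ((hasDerivAt_id s).smul_const B).const_sub 1
  have hd' : ∀ s : ℝ, HasDerivAt (fun u : ℝ => star ((1 : A) - u • B)) (-star B) s := fun s => by
    have := ((hasDerivAt_id s).smul_const (star B)).const_sub 1
    simpa [star_smul] using this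
  have := eq_of_deriv_zero (G := fun u : ℝ => τ.Lam (star (1 - u • B) * (1 - u • B)))
    (fun s hs => τ.hasDerivAt_Lam ((hd' s).mul (hd s)) (fun u => IsSelfAdjoint.star_mul_self _)
      (sp_star_mul (hinv s hs).1))
    (fun s hs => by
      obtain ⟨hu, hi⟩ := hinv s hs
      have h0 : τ.t ((1 - s • B)⁻¹ʳ * B) = 0 := by
        rw [hi, ← (hsum s hs).tsum_mul_right, τ.t.map_tsum ((hsum s hs).mul_right B)]
        simp [smul_pow, ← pow_succ, htr]
      set x := 1 - s • B
      have h1 : (star x * x)⁻¹ʳ = x⁻¹ʳ * (star x)⁻¹ʳ := by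
        apply inv_eq_of
        · have : star x * x * (x⁻¹ʳ * (star x)⁻¹ʳ) = star x * (x * x⁻¹ʳ) * (star x)⁻¹ʳ := by
            noncomm_ring
          rw [this, Ring.mul_inverse_cancel _ hu, mul_one, Ring.mul_inverse_cancel _ hu.star]
        · have : x⁻¹ʳ * (star x)⁻¹ʳ * (star x * x) = x⁻¹ʳ * ((star x)⁻¹ʳ * star x) * x := by
            noncomm_ring
          rw [this, Ring.inverse_mul_cancel _ hu.star, mul_one, Ring.inverse_mul_cancel _ hu]
      have h2 : x⁻¹ʳ * (star x)⁻¹ʳ * (-star B * x + star x * -B) =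
          -(x⁻¹ʳ * ((star x)⁻¹ʳ * star B * x)) - x⁻¹ʳ * ((star x)⁻¹ʳ * star x) * B := by
        noncomm_ring
      rw [h1, h2, Ring.inverse_mul_cancel _ hu.star, mul_one, map_sub, h0, map_neg, τ.comm,
        mul_assoc, Ring.mul_inverse_cancel _ hu, mul_one, Ring.inverse_star, ← star_mul, τ.star,
        τ.comm, h0]
      simp)
  simp only [zero_smul, sub_zero, star_one, mul_one, τ.Lam_one, one_smul] at this
  exact this.symm

end Tr

end Pool.Agent.P.MP_f981b0_an.Bish
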