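import Pool.Agent.P.MP_f981b0_an.Bish.Schur

/-! The Banach space endgame and some facts on `L^p` of a probability space. -/

open MeasureTheory Filter
open scoped ENNReal

noncomputable section
namespace Pool.Agent.P.MP_f981b0_an.Bish

section Banach

variable {E : Type*} [NormedAddCommGroup E] [NormedSpace ℂ E]

theorem pair_bound (P Q Y : E →L[ℂ] E) (hPQ : Commute P Q) (hYQ : Commute Y Q) (t : ℝ)
    (ht : Q - P = algebraMap ℂ _ (t : ℂ)) (ht0 : 0 ≤ t) {M d : ℝ} (hM : 1 ≤ M) (hd : 0 ≤ d)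
    (hP : ‖P‖ ≤ M) (hQ : ‖Q‖ ≤ M) (f : E) (g : E →L[ℂ] ℂ) (hf : ‖f‖ ≤ 1) (hg : ‖g‖ ≤ 1) (N : ℕ)
    (hfN : ‖(P ^ N) f‖ ≤ d) (hgN : ∀ h, ‖g ((Q ^ N) h)‖ ≤ d * ‖h‖) (k : ℕ) :
    ∀ i j : ℕ, 2 * N ≤ i + j + k →
      t ^ k * ‖g ((Y * (P ^ i * Q ^ j)) f)‖ ≤ 2 ^ k * M ^ (i + j + k) * (‖Y‖ * d) := by
  have hM0 : 0 ≤ M := by linarith
  have hpow : ∀ (Z : E →L[ℂ] E), ‖Z‖ ≤ M → ∀ (i : ℕ) (h : E), ‖(Z ^ i) h‖ ≤ M ^ i * ‖h‖ := by
    intro Z hZ i h
    induction i with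
    | zero => simp
    | succ i ih =>
      rw [pow_succ', mul_apply_eq_comp, pow_succ', mul_assoc]
      exact (Z.le_opNorm _).trans (mul_le_mul hZ ih (norm_nonneg _) hM0)
  induction k with
  | zero =>
    intro i j h
    simp only [pow_zero, one_mul, add_zero] at h ⊢
    by_cases hi : N ≤ i
    · obtain ⟨e, rfl⟩ := Nat.exists_eq_add_of_le hi
      have e1 : P ^ (N + e) * Q ^ j = Q ^ j * (P ^ e * P ^ N) := by
        rw [(hPQ.pow_pow _ _).eq, add_comm, pow_add]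
      rw [e1]
      have h1 : ‖(Q ^ j) ((P ^ e) ((P ^ N) f))‖ ≤ M ^ j * (M ^ e * d) :=
        (hpow Q hQ j _).trans (mul_le_mul_of_nonneg_left
          ((hpow P hP e _).trans (mul_le_mul_of_nonneg_left hfN (by positivity))) (by positivity))
      calc _ ≤ ‖g‖ * ‖Y ((Q ^ j) ((P ^ e) ((P ^ N) f)))‖ := g.le_opNorm _
        _ ≤ 1 * (‖Y‖ * (M ^ j * (M ^ e * d))) :=
            mul_le_mul hg ((Y.le_opNorm _).trans (mul_le_mul_of_nonneg_left h1 (norm_nonneg _)))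
              (norm_nonneg _) zero_le_one
        _ = M ^ (e + j) * (‖Y‖ * d) := by ring
        _ ≤ _ := mul_le_mul_of_nonneg_right (pow_le_pow_right₀ hM (by omega)) (by positivity)
    · obtain ⟨e, rfl⟩ := Nat.exists_eq_add_of_le (show N ≤ j by omega)
      have e1 : Y * (P ^ i * Q ^ (N + e)) = Q ^ N * (Y * (P ^ i * Q ^ e)) := by
        rw [pow_add, ← mul_assoc (P ^ i), (hPQ.pow_pow i N).eq, mul_assoc (Q ^ N),
          ← mul_assoc Y, (hYQ.pow_right N).eq, mul_assoc]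
      rw [e1]
      have h1 : ‖(P ^ i) ((Q ^ e) f)‖ ≤ M ^ i * M ^ e :=
        (hpow P hP i _).trans (mul_le_mul_of_nonneg_left
          ((hpow Q hQ e _).trans (mul_le_of_le_one_right (by positivity) hf)) (by positivity))
      calc _ ≤ d * ‖Y ((P ^ i) ((Q ^ e) f))‖ := hgN _
        _ ≤ d * (‖Y‖ * (M ^ i * M ^ e)) :=
            mul_le_mul_of_nonneg_left
              ((Y.le_opNorm _).trans (mul_le_mul_of_nonneg_left h1 (norm_nonneg _))) hd
        _ = M ^ (i + e) * (‖Y‖ * d) := by ring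
        _ ≤ _ := mul_le_mul_of_nonneg_right (pow_le_pow_right₀ hM (by omega)) (by positivity)
  | succ k ih =>
    intro i j h
    have h1 := ih i (j + 1) (by omega)
    have h2 := ih (i + 1) j (by omega)
    have e1 : (t : ℂ) • (Y * (P ^ i * Q ^ j)) =
        Y * (P ^ i * Q ^ (j + 1)) - Y * (P ^ (i + 1) * Q ^ j) := by
      rw [← mul_sub, pow_succ' Q, pow_succ P, mul_assoc (P ^ i), ← mul_sub, ← sub_mul, ht,
        ← Algebra.smul_def, mul_smul_comm, mul_smul_comm]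
    have e2 : t * ‖g ((Y * (P ^ i * Q ^ j)) f)‖ ≤
        ‖g ((Y * (P ^ i * Q ^ (j + 1))) f)‖ + ‖g ((Y * (P ^ (i + 1) * Q ^ j)) f)‖ := by
      refine le_trans (le_of_eq ?_) (norm_sub_le _ _)
      rw [← map_sub, ← sub_apply, ← e1, smul_apply,
        map_smul, norm_smul, Complex.norm_real, Real.norm_eq_abs, abs_of_nonneg ht0]
    calc t ^ (k + 1) * ‖g ((Y * (P ^ i * Q ^ j)) f)‖
        = t ^ k * (t * ‖g ((Y * (P ^ i * Q ^ j)) f)‖) := by ring
      _ ≤ t ^ k * (‖g ((Y * (P ^ i * Q ^ (j + 1))) f)‖ + ‖g ((Y * (P ^ (i + 1) * Q ^ j)) f)‖) :=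
          mul_le_mul_of_nonneg_left e2 (by positivity)
      _ ≤ 2 ^ k * M ^ (i + (j + 1) + k) * (‖Y‖ * d) + 2 ^ k * M ^ (i + 1 + j + k) * (‖Y‖ * d) := by
          rw [mul_add]
          exact add_le_add h1 h2
      _ = _ := by ring

theorem endgame (T : E →L[ℂ] E) {s s' c M δ : ℝ} (hc : 0 < c) (hcs : c ≤ s + s') (hM : 1 ≤ M)
    (hδ : 0 ≤ δ) (hsmall : (2 * M / c) ^ 4 * δ < 1)
    (hP : ‖T - algebraMap ℂ _ (s : ℂ)‖ ≤ M) (hQ : ‖T + algebraMap ℂ _ (s' : ℂ)‖ ≤ M)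
    (f : ℕ → E) (g : ℕ → E →L[ℂ] ℂ) (hf : ∀ n, ‖f n‖ ≤ 1) (hg : ∀ n, ‖g n‖ ≤ 1)
    (hfn : ∀ n, ‖((T - algebraMap ℂ _ (s : ℂ)) ^ (2 * n)) (f n)‖ ≤ δ ^ n)
    (hgn : ∀ n h, ‖g n (((T + algebraMap ℂ _ (s' : ℂ)) ^ (2 * n)) h)‖ ≤ δ ^ n * ‖h‖)
    (f₀ : E) (hlim : Tendsto f atTop (nhds f₀)) (hf₀ : f₀ ≠ 0)
    (b : E) (hb : ¬ Tendsto (fun n => g n b) atTop (nhds 0)) :
    ∃ V : Submodule ℂ E, IsClosed (V : Set E) ∧ V ≠ ⊥ ∧ V ≠ ⊤ ∧
      ∀ Y : E →L[ℂ] E, Y * T = T * Y → ∀ h ∈ V, Y h ∈ V := by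
  let V : Submodule ℂ E :=
    { carrier := {h | ∀ Y : E →L[ℂ] E, Y * T = T * Y → Tendsto (fun n => g n (Y h)) atTop (nhds 0)}
      add_mem' := fun {x y} hx hy Y hY => by simpa using (hx Y hY).add (hy Y hY)
      zero_mem' := fun Y _ => by simp
      smul_mem' := fun z x hx Y hY => by simpa using (hx Y hY).const_mul z }
  have happrox : ∀ (h : E) (u : ℕ → E), Tendsto u atTop (nhds h) → ∀ Y : E →L[ℂ] E,
      Tendsto (fun n => g n (Y (h - u n))) atTop (nhds 0) := by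
    intro h u hu Y
    have h1 : Tendsto (fun n => ‖Y (h - u n)‖) atTop (nhds 0) := by
      have := ((Y.continuous.tendsto _).comp (hu.const_sub h)).norm
      simpa using this
    refine squeeze_zero_norm (fun n => ?_) h1
    exact ((g n).le_opNorm _).trans (mul_le_of_le_one_left (norm_nonneg _) (hg n))
  refine ⟨V, ?_, ?_, ?_, ?_⟩
  · refine isClosed_of_closure_subset fun h hh Y hY => ?_
    rw [Metric.tendsto_atTop]
    intro ε hε
    obtain ⟨u, hu, hdist⟩ := Metric.mem_closure_iff.mp hh (ε / 2 / (‖Y‖ + 1)) (by positivity)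
    obtain ⟨N, hN⟩ := Metric.tendsto_atTop.mp (hu Y hY) (ε / 2) (by positivity)
    refine ⟨N, fun n hn => ?_⟩
    have h1 := hN n hn
    rw [dist_zero_right] at h1 ⊢
    rw [dist_eq_norm, lt_div_iff₀ (by positivity)] at hdist
    have h2 : ‖g n (Y (h - u))‖ ≤ ‖Y‖ * ‖h - u‖ :=
      ((g n).le_opNorm _).trans ((mul_le_of_le_one_left (norm_nonneg _) (hg n)).trans
        (Y.le_opNorm _))
    have e : g n (Y h) = g n (Y (h - u)) + g n (Y u) := by simp
    rw [e]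
    have h3 := norm_add_le (g n (Y (h - u))) (g n (Y u))
    nlinarith [norm_nonneg (h - u)]
  · intro hV
    apply hf₀
    have : f₀ ∈ V := by
      intro Y hY
      have hYT : Commute Y T := hY
      have h1 : Tendsto (fun n => g n (Y (f n))) atTop (nhds 0) := by
        have hq0 : 0 ≤ (2 * M / c) ^ 4 * δ := by positivity
        have h2 := (tendsto_pow_atTop_nhds_zero_of_lt_one hq0 hsmall).const_mul ‖Y‖
        rw [mul_zero] at h2
        refine squeeze_zero_norm (fun n => ?_) h2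
        have h3 := pair_bound (T - algebraMap ℂ _ (s : ℂ)) (T + algebraMap ℂ _ (s' : ℂ)) Y
          (((Commute.refl T).add_right (Algebra.commutes _ T).symm).sub_left
            (Algebra.commutes _ _))
          (hYT.add_right (Algebra.commutes _ Y).symm) (s + s')
          (by rw [Complex.ofReal_add, map_add]; abel) (by linarith) hM (by positivity : 0 ≤ δ ^ n) hP hQ
          (f n) (g n) (hf n) (hg n) (2 * n) (hfn n) (hgn n) (4 * n) 0 0 (by omega)
        simp only [pow_zero, mul_one, zero_add] at h3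
        have h4 : c ^ (4 * n) * ‖g n (Y (f n))‖ ≤ (s + s') ^ (4 * n) * ‖g n (Y (f n))‖ :=
          mul_le_mul_of_nonneg_right (pow_le_pow_left₀ hc.le hcs _) (norm_nonneg _)
        have h5 := h4.trans h3
        rw [← le_div_iff₀' (by positivity)] at h5
        refine h5.trans (le_of_eq ?_)
        rw [mul_pow, ← pow_mul, div_pow, mul_pow]
        field_simp
      have h2 := (happrox f₀ f hlim Y).add h1
      simpa using h2
    rw [hV] at this
    exact this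
  · intro hV
    apply hb
    have : b ∈ V := by rw [hV]; trivial
    simpa using this 1 (by simp)
  · intro Y hY h hh Z hZ
    have := hh (Z * Y) (by rw [mul_assoc, hY, ← mul_assoc, hZ, mul_assoc])
    simpa using this

end Banach

section Lp

variable {X : Type*} [MeasurableSpace X] {μ : Measure X} [IsProbabilityMeasure μ]
  {p : ℝ≥0∞} [hp1 : Fact (1 ≤ p)]

omit hp1 in
theorem norm_le_of_bound {F : Lp ℂ p μ} {C : ℝ} (hC : 0 ≤ C) (h : ∀ᵐ x ∂μ, ‖F x‖ ≤ C) :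
    ‖F‖ ≤ C := by
  have := Lp.norm_le_of_ae_bound hC h
  simpa [measureUnivNNReal] using this

theorem integrable_Lp (F : Lp ℂ p μ) : Integrable F μ := (Lp.memLp F).integrable hp1.out

theorem integral_norm_le (F : Lp ℂ p μ) : ∫ x, ‖F x‖ ∂μ ≤ ‖F‖ := by
  rw [integral_norm_eq_lintegral_enorm (Lp.aestronglyMeasurable F),
    ← eLpNorm_one_eq_lintegral_enorm, Lp.norm_def]
  exact ENNReal.toReal_mono (Lp.eLpNorm_ne_top F)
    (eLpNorm_le_eLpNorm_of_exponent_le hp1.out (Lp.aestronglyMeasurable F))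

theorem norm_integral_mul_le (F : Lp ℂ p μ) {g : X → ℂ} {M : ℝ} (hg : ∀ x, ‖g x‖ ≤ M) :
    ‖∫ x, F x * g x ∂μ‖ ≤ M * ‖F‖ := by
  obtain ⟨x0⟩ : Nonempty X := nonempty_of_isProbabilityMeasure μ
  have hM : 0 ≤ M := (norm_nonneg _).trans (hg x0)
  refine (norm_integral_le_of_norm_le ((integrable_Lp F).norm.const_mul M)
    (Eventually.of_forall fun x => ?_)).trans ?_
  · rw [norm_mul, mul_comm]
    exact mul_le_mul_of_nonneg_right (hg x) (norm_nonneg _)
  · rw [integral_const_mul]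
    exact mul_le_mul_of_nonneg_left (integral_norm_le F) hM

theorem integrable_mul_bdd (F : Lp ℂ p μ) {g : X → ℂ} {M : ℝ} (hg : Bdd g M) :
    Integrable (fun x => F x * g x) μ :=
  (integrable_Lp F).mul_bdd hg.meas.aestronglyMeasurable (Eventually.of_forall hg.le)

/-- integration against a bounded function -/
def pairing (μ : Measure X) [IsProbabilityMeasure μ] (p : ℝ≥0∞) [Fact (1 ≤ p)] (g : X → ℂ) {M : ℝ}
    (hg : Bdd g M) : Lp ℂ p μ →L[ℂ] ℂ :=
  LinearMap.mkContinuous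
    { toFun := fun F => ∫ x, F x * g x ∂μ
      map_add' := fun F G => by
        rw [← integral_add (integrable_mul_bdd F hg) (integrable_mul_bdd G hg)]
        refine integral_congr_ae ?_
        filter_upwards [Lp.coeFn_add F G] with x hx
        rw [hx, Pi.add_apply, add_mul]
      map_smul' := fun z F => by
        rw [RingHom.id_apply, smul_eq_mul, ← integral_const_mul]
        refine integral_congr_ae ?_
        filter_upwards [Lp.coeFn_smul z F] with x hx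
        rw [hx, Pi.smul_apply, smul_eq_mul, mul_assoc] }
    M fun F => norm_integral_mul_le F hg.le

theorem pairing_apply (g : X → ℂ) {M : ℝ} (hg : Bdd g M) (F : Lp ℂ p μ) :
    pairing μ p g hg F = ∫ x, F x * g x ∂μ := rfl

theorem norm_pairing_le (g : X → ℂ) (hg : Bdd g 1) : ‖pairing μ p g hg‖ ≤ 1 :=
  LinearMap.mkContinuous_norm_le _ zero_le_one _

/-- a bounded function as an element of `L^p` -/
def emb (μ : Measure X) [IsProbabilityMeasure μ] (p : ℝ≥0∞) (g : X → ℂ) {M : ℝ} (hg : Bdd g M) :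
    Lp ℂ p μ :=
  (MemLp.of_bound hg.meas.aestronglyMeasurable M (Eventually.of_forall hg.le)).toLp g

omit hp1 in
theorem emb_ae (g : X → ℂ) {M : ℝ} (hg : Bdd g M) : emb μ p g hg =ᵐ[μ] g := MemLp.coeFn_toLp _

theorem small_norm (hp : p ≠ ∞) {ε : ℝ} (hε : 0 < ε) :
    ∃ η > 0, ∀ F : Lp ℂ p μ, (∀ᵐ x ∂μ, ‖F x‖ ≤ 2) → ∫ x, ‖F x‖ ∂μ ≤ η → ‖F‖ ≤ ε := by
  have hp0 : p ≠ 0 := (zero_lt_one.trans_le hp1.out).ne'
  have hq : 1 ≤ p.toReal := by
    have := ENNReal.toReal_mono hp hp1.out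
    simpa using this
  set q := p.toReal with hqdef
  have hq0 : 0 < q := by linarith
  refine ⟨ε ^ q / 2 ^ (q - 1), by positivity, fun F hF hI => ?_⟩
  have h1 : ∫ x, ‖F x‖ ^ q ∂μ ≤ ε ^ q := by
    calc ∫ x, ‖F x‖ ^ q ∂μ ≤ ∫ x, 2 ^ (q - 1) * ‖F x‖ ∂μ := by
          refine integral_mono_ae ((Lp.memLp F).integrable_norm_rpow hp0 hp)
            ((integrable_Lp F).norm.const_mul _) ?_
          filter_upwards [hF] with x hx
          have e : ‖F x‖ ^ q = ‖F x‖ ^ (q - 1) * ‖F x‖ := by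
            rw [← Real.rpow_add_one' (norm_nonneg _) (by linarith)]
            congr 1
            ring
          rw [e]
          exact mul_le_mul_of_nonneg_right
            (Real.rpow_le_rpow (norm_nonneg _) hx (by linarith)) (norm_nonneg _)
      _ = 2 ^ (q - 1) * ∫ x, ‖F x‖ ∂μ := integral_const_mul _ _
      _ ≤ 2 ^ (q - 1) * (ε ^ q / 2 ^ (q - 1)) := mul_le_mul_of_nonneg_left hI (by positivity)
      _ = ε ^ q := by field_simp
  have h0 : 0 ≤ ∫ x, ‖F x‖ ^ q ∂μ := integral_nonneg fun x => by positivity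
  rw [Lp.norm_def, (Lp.memLp F).eLpNorm_eq_integral_rpow_norm hp0 hp,
    ENNReal.toReal_ofReal (by positivity)]
  calc _ ≤ (ε ^ q) ^ q⁻¹ := Real.rpow_le_rpow h0 h1 (by positivity)
    _ = ε := Real.rpow_rpow_inv hε.le hq0.ne'

theorem exists_limit (hp : p ≠ ∞) (f : ℕ → X → ℂ) (hf : ∀ n, Bdd (f n) 1)
    (hc : ∀ η > 0, ∃ N, ∀ n ≥ N, ∀ m ≥ N, ∫ x, ‖f n x - f m x‖ ∂μ ≤ η) :
    ∃ F : Lp ℂ p μ, Tendsto (fun n => emb μ p (f n) (hf n)) atTop (nhds F) := by
  apply cauchySeq_tendsto_of_complete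
  rw [Metric.cauchySeq_iff]
  intro ε hε
  obtain ⟨η, hη, h⟩ := small_norm (μ := μ) hp (half_pos hε)
  obtain ⟨N, hN⟩ := hc η hη
  refine ⟨N, fun n hn m hm => ?_⟩
  have e : ∀ᵐ x ∂μ, (emb μ p (f n) (hf n) - emb μ p (f m) (hf m) : Lp ℂ p μ) x = f n x - f m x := by
    filter_upwards [Lp.coeFn_sub (emb μ p (f n) (hf n)) (emb μ p (f m) (hf m)),
      emb_ae (μ := μ) (p := p) (f n) (hf n), emb_ae (μ := μ) (p := p) (f m) (hf m)] with x h1 h2 h3
    rw [h1, Pi.sub_apply, h2, h3]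
  rw [dist_eq_norm]
  refine (h _ ?_ ?_).trans_lt (half_lt_self hε)
  · filter_upwards [e] with x hx
    rw [hx]
    linarith [norm_sub_le (f n x) (f m x), (hf n).le x, (hf m).le x]
  · refine le_trans (le_of_eq (integral_congr_ae ?_)) (hN n hn m hm)
    filter_upwards [e] with x hx
    rw [hx]

end Lp

end Pool.Agent.P.MP_f981b0_an.Bish
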