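import Pool.Agent.P.MP_f981b0_an.Bish.Core
import Pool.Agent.P.MP_f981b0_an.Bish.Endgame

open MeasureTheory Filter
open scoped ENNReal

noncomputable section
namespace Pool.Agent.P.MP_f981b0_an.Bish

variable {X : Type*} [MeasurableSpace X]

theorem mp_zpow {μ : Measure X} (τ : X ≃ᵐ X) (hτ : MeasurePreserving τ μ μ) (k : ℤ) :
    MeasurePreserving (⇑((show Equiv.Perm X from τ.toEquiv) ^ k)) μ μ := by
  induction k with
  | zero => exact MeasurePreserving.id μ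
  | succ k ih =>
    rw [zpow_add_one, Equiv.Perm.coe_mul]
    exact ih.comp hτ
  | pred k ih =>
    rw [zpow_sub_one, Equiv.Perm.coe_mul]
    exact ih.comp (hτ.symm τ)

/-- the action generated by an invertible measure preserving map -/
def Sys.ofEquiv (μ : Measure X) [h : IsProbabilityMeasure μ] (τ : X ≃ᵐ X)
    (hτ : MeasurePreserving τ μ μ) : Sys X where
  μ := μ
  prob := h
  σ k := ⇑((show Equiv.Perm X from τ.toEquiv) ^ k)
  σ_zero x := by simp
  σ_add i j x := by simp [zpow_add]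
  mp := mp_zpow τ hτ

/-- the time reversed action -/
def Sys.rev (S : Sys X) : Sys X where
  μ := S.μ
  prob := S.prob
  σ k := S.σ (-k)
  σ_zero x := by simp [S.σ_zero]
  σ_add i j x := by rw [neg_add, S.σ_add]
  mp k := S.mp (-k)

theorem Sys.bdd_Ts (S : Sys X) {w g : X → ℂ} {C M : ℝ} (hw : Bdd w C) (hg : Bdd g M) (s : ℝ) :
    Bdd (S.Ts w s g) (C * M + |s| * M) := by
  refine ⟨(hw.meas.mul (hg.meas.comp (S.mp 1).measurable)).sub (hg.meas.const_mul _), fun x => ?_⟩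
  refine (norm_sub_le _ _).trans (add_le_add ?_ ?_)
  · rw [norm_mul]
    exact mul_le_mul (hw.le _) (hg.le _) (norm_nonneg _) ((norm_nonneg _).trans (hw.le x))
  · rw [norm_mul, Complex.norm_real, Real.norm_eq_abs]
    exact mul_le_mul_of_nonneg_left (hg.le _) (abs_nonneg _)

section

variable {p : ℝ≥0∞} [Fact (1 ≤ p)]

theorem Sys.iter_ae (S : Sys X) (w : X → ℂ) (T : Lp ℂ p S.μ →L[ℂ] Lp ℂ p S.μ)
    (hT : ∀ f, T f =ᵐ[S.μ] fun x => w x * f (S.σ 1 x)) (s : ℝ) (k : ℕ) (F : Lp ℂ p S.μ)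
    (h : X → ℂ) (hF : F =ᵐ[S.μ] h) :
    ((T - algebraMap ℂ _ (s : ℂ)) ^ k) F =ᵐ[S.μ] (S.Ts w s)^[k] h := by
  induction k generalizing F h with
  | zero => exact hF
  | succ k ih =>
    rw [pow_succ, Function.iterate_succ_apply]
    apply ih
    have h1 := (S.mp 1).quasiMeasurePreserving.ae_eq_comp hF
    show (T F - (s : ℂ) • F : Lp ℂ p S.μ) =ᵐ[S.μ] _
    filter_upwards [Lp.coeFn_sub (T F) ((s : ℂ) • F), Lp.coeFn_smul (s : ℂ) F, hT F, hF, h1]
      with x a1 a2 a3 a4 a5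
    simp only [Function.comp] at a5
    rw [a1, Pi.sub_apply, a2, a3, Pi.smul_apply, a4, a5]
    rfl

theorem Sys.dual_step (S : Sys X) {w : X → ℂ} {C : ℝ} (hw : Bdd w C)
    (T : Lp ℂ p S.μ →L[ℂ] Lp ℂ p S.μ) (hT : ∀ f, T f =ᵐ[S.μ] fun x => w x * f (S.σ 1 x)) (s : ℝ)
    {g : X → ℂ} {M : ℝ} (hg : Bdd g M) (F : Lp ℂ p S.μ) :
    ∫ x, ((T + algebraMap ℂ (Lp ℂ p S.μ →L[ℂ] Lp ℂ p S.μ) (s : ℂ)) F) x * g x ∂S.μ =
      -∫ x, F x * S.rev.Ts (fun x => -w (S.σ (-1) x)) s g x ∂S.μ := by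
  have := S.prob
  have hb : Bdd (fun x => w (S.σ (-1) x) * g (S.σ (-1) x)) (C * M) :=
    ⟨(hw.meas.mul hg.meas).comp (S.mp (-1)).measurable, fun x => by
      rw [norm_mul]
      exact mul_le_mul (hw.le _) (hg.le _) (norm_nonneg _) ((norm_nonneg _).trans (hw.le x))⟩
  have h1 : ∫ x, T F x * g x ∂S.μ = ∫ x, F x * (w (S.σ (-1) x) * g (S.σ (-1) x)) ∂S.μ := by
    rw [← S.integral_σ (integrable_mul_bdd F hb).aestronglyMeasurable 1]
    refine integral_congr_ae ?_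
    filter_upwards [hT F] with x hx
    rw [hx, ← S.σ_add, neg_add_cancel, S.σ_zero]
    ring
  have e : (T + algebraMap ℂ (Lp ℂ p S.μ →L[ℂ] Lp ℂ p S.μ) (s : ℂ)) F = T F + (s : ℂ) • F := rfl
  have h2 := map_add (pairing S.μ p g hg) (T F) ((s : ℂ) • F)
  rw [map_smul] at h2
  simp only [pairing_apply] at h2
  rw [e, h2, h1, smul_eq_mul, ← integral_const_mul, ← integral_add (integrable_mul_bdd F hb)
    ((integrable_mul_bdd F hg).const_mul _), ← integral_neg]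
  refine integral_congr_ae (Eventually.of_forall fun x => ?_)
  simp only [Sys.Ts, Sys.rev]
  ring

theorem Sys.dual_iter (S : Sys X) {w : X → ℂ} {C : ℝ} (hw : Bdd w C)
    (T : Lp ℂ p S.μ →L[ℂ] Lp ℂ p S.μ) (hT : ∀ f, T f =ᵐ[S.μ] fun x => w x * f (S.σ 1 x)) (s : ℝ)
    (k : ℕ) {g : X → ℂ} {M : ℝ} (hg : Bdd g M) (F : Lp ℂ p S.μ) :
    ‖∫ x, (((T + algebraMap ℂ (Lp ℂ p S.μ →L[ℂ] Lp ℂ p S.μ) (s : ℂ)) ^ k) F) x * g x ∂S.μ‖ =
      ‖∫ x, F x * (S.rev.Ts (fun x => -w (S.σ (-1) x)) s)^[k] g x ∂S.μ‖ := by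
  have hw' : Bdd (fun x => -w (S.σ (-1) x)) C :=
    ⟨(hw.meas.comp (S.mp (-1)).measurable).neg, fun x => by rw [norm_neg]; exact hw.le _⟩
  induction k generalizing g M with
  | zero => rfl
  | succ k ih =>
    rw [pow_succ', Function.iterate_succ_apply, ← ih (S.rev.bdd_Ts hw' hg s), mul_apply_eq_comp,
      S.dual_step hw T hT s hg, norm_neg]

theorem Sys.hyper [MeasurableSpace.CountablySeparated X] (S : Sys X) (w : X → ℂ) {C : ℝ}
    (hw : Bdd w C) (h0 : ∀ᵐ x ∂S.μ, w x ≠ 0) (hlog : Integrable (fun x => Real.log ‖w x‖) S.μ)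
    (hap : ∀ᵐ x ∂S.μ, ∀ j, j ≠ 0 → S.σ j x ≠ x) (hp : p ≠ ∞)
    (T : Lp ℂ p S.μ →L[ℂ] Lp ℂ p S.μ) (hT : ∀ f, T f =ᵐ[S.μ] fun x => w x * f (S.σ 1 x)) :
    ∃ V : Submodule ℂ (Lp ℂ p S.μ), IsClosed (V : Set (Lp ℂ p S.μ)) ∧ V ≠ ⊥ ∧ V ≠ ⊤ ∧
      ∀ Y : Lp ℂ p S.μ →L[ℂ] Lp ℂ p S.μ, Y * T = T * Y → ∀ f ∈ V, Y f ∈ V := by
  have := S.prob
  have hw' : Bdd (fun x => -w (S.σ (-1) x)) C :=
    ⟨(hw.meas.comp (S.mp (-1)).measurable).neg, fun x => by rw [norm_neg]; exact hw.le _⟩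
  have h0' : ∀ᵐ x ∂S.rev.μ, -w (S.σ (-1) x) ≠ 0 := by
    filter_upwards [(S.mp (-1)).quasiMeasurePreserving.ae h0] with x hx
    exact neg_ne_zero.mpr hx
  have hlog' : Integrable (fun x => Real.log ‖-w (S.σ (-1) x)‖) S.rev.μ := by
    simp only [norm_neg]
    exact (S.mp (-1)).integrable_comp_of_integrable hlog
  have hap' : ∀ᵐ x ∂S.rev.μ, ∀ j, j ≠ 0 → S.rev.σ j x ≠ x := by
    filter_upwards [hap] with x hx j hj
    exact hx (-j) (neg_ne_zero.mpr hj)
  obtain ⟨c, hc, R, h1⟩ := S.core w hw h0 hlog hap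
  obtain ⟨c', hc', R', h2⟩ := S.rev.core _ hw' h0' hlog' hap'
  set M : ℝ := 1 + ‖T‖ + |R| + |R'| with hM
  have hM1 : 1 ≤ M := by
    have := norm_nonneg T
    have := abs_nonneg R
    have := abs_nonneg R'
    linarith
  have hq : 0 < (2 * M / c) ^ 4 := by positivity
  set δ : ℝ := 1 / 2 / (2 * M / c) ^ 4 with hδ
  have hδ0 : 0 < δ := by positivity
  obtain ⟨s, hs1, hs2, θ, hθ, al, hal, f, hf, hfn, hft, hfc⟩ := h1 δ hδ0
  obtain ⟨s', hs1', hs2', θ', hθ', be, hbe, g, hg, hgn, hgt, -⟩ := h2 δ hδ0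
  obtain ⟨F, hF⟩ := exists_limit (μ := S.μ) hp f hf hfc
  have hone : ∀ z : ℝ, ‖algebraMap ℂ (Lp ℂ p S.μ →L[ℂ] Lp ℂ p S.μ) (z : ℂ)‖ ≤ |z| := by
    intro z
    rw [Algebra.algebraMap_eq_smul_one, norm_smul, Complex.norm_real, Real.norm_eq_abs]
    exact mul_le_of_le_one_right (abs_nonneg _) ContinuousLinearMap.norm_id_le
  refine endgame T (s := s) (s' := s') hc (by linarith) hM1 hδ0.le ?_ ?_ ?_
    (fun n => emb S.μ p (f n) (hf n)) (fun n => pairing S.μ p (g n) (hg n)) ?_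
    (fun n => norm_pairing_le _ _) ?_ ?_ F hF ?_ (emb S.μ p be hbe) ?_
  · rw [hδ]
    field_simp
    norm_num
  · refine (norm_sub_le _ _).trans ?_
    have h3 := hone s
    rw [abs_of_nonneg (by linarith)] at h3
    linarith [le_abs_self R, abs_nonneg R']
  · refine (norm_add_le _ _).trans ?_
    have h3 := hone s'
    rw [abs_of_nonneg (by linarith)] at h3
    linarith [le_abs_self R', abs_nonneg R]
  · intro n
    refine norm_le_of_bound zero_le_one ?_
    filter_upwards [emb_ae (μ := S.μ) (p := p) (f n) (hf n)] with x hx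
    rw [hx]
    exact (hf n).le x
  · intro n
    refine norm_le_of_bound (by positivity) ?_
    filter_upwards [S.iter_ae w T hT s (2 * n) _ _ (emb_ae (μ := S.μ) (p := p) (f n) (hf n))]
      with x hx
    rw [hx]
    exact hfn n x
  · intro n h
    rw [pairing_apply, S.dual_iter hw T hT s' (2 * n) (hg n) h]
    exact norm_integral_mul_le h (hgn n)
  · rintro rfl
    have h3 := (Complex.continuous_re.tendsto _).comp
      (((pairing S.μ p al hal).continuous.tendsto _).comp hF)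
    have h4 : θ ≤ ((pairing S.μ p al hal) 0).re := by
      refine ge_of_tendsto h3 ?_
      filter_upwards [hft] with n hn
      refine hn.trans (le_of_eq ?_)
      simp only [Function.comp, pairing_apply]
      congr 1
      refine integral_congr_ae ?_
      filter_upwards [emb_ae (μ := S.μ) (p := p) (f n) (hf n)] with x hx
      rw [hx, mul_comm]
    simp only [map_zero, Complex.zero_re] at h4
    linarith
  · intro h3
    have h4 : θ' ≤ (0 : ℂ).re := by
      refine ge_of_tendsto ((Complex.continuous_re.tendsto _).comp h3) ?_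
      filter_upwards [hgt] with n hn
      refine hn.trans (le_of_eq ?_)
      simp only [Function.comp, pairing_apply]
      congr 1
      refine integral_congr_ae ?_
      filter_upwards [emb_ae (μ := S.μ) (p := p) be hbe] with x hx
      rw [hx]
    simp only [Complex.zero_re] at h4
    linarith

end

theorem exists_bdd_version {μ : Measure X} {w : X → ℂ} (hw : MemLp w ∞ μ) :
    ∃ (w' : X → ℂ) (C : ℝ), Bdd w' C ∧ w =ᵐ[μ] w' := by
  classical
  let w1 := hw.aestronglyMeasurable.mk w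
  have hm : Measurable w1 := hw.aestronglyMeasurable.stronglyMeasurable_mk.measurable
  let C := (eLpNormEssSup w μ).toReal
  have hfin : eLpNormEssSup w μ ≠ ∞ := by
    have := hw.eLpNorm_ne_top
    rwa [eLpNorm_exponent_top] at this
  refine ⟨fun x => if ‖w1 x‖ ≤ C then w1 x else 0, C,
    ⟨Measurable.ite (measurableSet_le hm.norm measurable_const) hm measurable_const, fun x => ?_⟩,
    ?_⟩
  · split_ifs with h
    · exact h
    · simp [C]
  · filter_upwards [hw.aestronglyMeasurable.ae_eq_mk, ae_le_eLpNormEssSup (f := w) (μ := μ)]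
      with x h1 h2
    have h3 : ‖w x‖ ≤ C := by
      have := ENNReal.toReal_mono hfin h2
      simpa using this
    simp only [w1, ← h1, h3, if_true]

theorem general [MeasurableSpace.CountablySeparated X] (μ : Measure X) [IsProbabilityMeasure μ]
    (τ : X ≃ᵐ X) (hτ : MeasurePreserving τ μ μ) (hap : ∀ n : ℕ, 0 < n → μ {x | τ^[n] x = x} = 0)
    (w : X → ℂ) (hw : MemLp w ∞ μ) (h0 : ∀ᵐ x ∂μ, w x ≠ 0)
    (hlog : Integrable (fun x => Real.log ‖w x‖) μ) (p : ℝ≥0∞) [Fact (1 ≤ p)] (hp : p ≠ ∞) :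
    (∃ T : Lp ℂ p μ →L[ℂ] Lp ℂ p μ, ∀ f, T f =ᵐ[μ] fun x => w x * f (τ x)) ∧
    ∀ T : Lp ℂ p μ →L[ℂ] Lp ℂ p μ, (∀ f, T f =ᵐ[μ] fun x => w x * f (τ x)) →
      ∃ V : Submodule ℂ (Lp ℂ p μ), IsClosed (V : Set (Lp ℂ p μ)) ∧ V ≠ ⊥ ∧ V ≠ ⊤ ∧
        ∀ Y : Lp ℂ p μ →L[ℂ] Lp ℂ p μ, Y * T = T * Y → ∀ f ∈ V, Y f ∈ V := by
  constructor
  · refine ⟨((ContinuousLinearMap.mul ℂ ℂ).holderL μ ∞ p p (hw.toLp w)).comp
      (Lp.compMeasurePreservingₗᵢ ℂ τ hτ).toContinuousLinearMap, fun f => ?_⟩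
    filter_upwards [(ContinuousLinearMap.mul ℂ ℂ).coeFn_holder (r := p) (hw.toLp w)
      (Lp.compMeasurePreserving τ hτ f), hw.coeFn_toLp, Lp.coeFn_compMeasurePreserving f hτ]
      with x h1 h2 h3
    refine h1.trans ?_
    rw [h2, h3]
    rfl
  · intro T hT
    obtain ⟨w', C, hw', he⟩ := exists_bdd_version hw
    refine (Sys.ofEquiv μ τ hτ).hyper w' hw' ?_ ?_ ?_ hp T ?_
    · filter_upwards [h0, he] with x h1 h2
      rwa [← h2]
    · refine hlog.congr ?_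
      filter_upwards [he] with x h2
      rw [h2]
    · have h1 : ∀ᵐ x ∂μ, ∀ n : ℕ, 0 < n → τ^[n] x ≠ x := by
        refine ae_all_iff.mpr fun n => ?_
        by_cases hn : 0 < n
        · filter_upwards [measure_eq_zero_iff_ae_notMem.mp (hap n hn)] with x hx _
          exact hx
        · exact Eventually.of_forall fun x h => absurd h hn
      filter_upwards [h1] with x hx j hj hjx
      have h2 : ∀ n : ℕ, (Sys.ofEquiv μ τ hτ).σ n x = τ^[n] x := by
        intro n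
        show ((show Equiv.Perm X from τ.toEquiv) ^ (n : ℤ)) x = _
        rw [zpow_natCast, ← Equiv.Perm.iterate_eq_pow]
        rfl
      rcases Int.natAbs_eq j with h | h
      · rw [h, h2] at hjx
        exact hx _ (Int.natAbs_pos.mpr hj) hjx
      · apply hx _ (Int.natAbs_pos.mpr hj)
        rw [← h2]
        conv_lhs => rw [← hjx, ← Sys.σ_add, show (j.natAbs : ℤ) + j = 0 by omega, Sys.σ_zero]
    · intro f
      filter_upwards [hT f, he] with x h1 h2
      rw [h2] at h1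
      exact h1

end Pool.Agent.P.MP_f981b0_an.Bish
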