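import Pool.Agent.P.MP_f981b0_an.Bish.Bishop
import Pool.Agent.P.MP_f981b0_an.Old.BishopAll

/-! The Bishop operators are literally an instance of the handed in theorem. -/

open MeasureTheory Filter
open scoped ENNReal

namespace Pool.Agent.P.MP_f981b0_an.Bish

theorem bishop_instance (α : ℝ) (hα : Irrational α) (p : ℝ≥0∞) [Fact (1 ≤ p)] (hp : p ≠ ∞) :
    ∃ T : Lp ℂ p (volume.restrict (Set.Ico (0 : ℝ) 1)) →L[ℂ]
        Lp ℂ p (volume.restrict (Set.Ico (0 : ℝ) 1)),
      (∀ f, T f =ᵐ[volume.restrict (Set.Ico (0 : ℝ) 1)]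
        fun x => (x : ℂ) * f (Int.fract (x + α))) ∧
      ∃ V : Submodule ℂ (Lp ℂ p (volume.restrict (Set.Ico (0 : ℝ) 1))),
        IsClosed (V : Set (Lp ℂ p (volume.restrict (Set.Ico (0 : ℝ) 1)))) ∧ V ≠ ⊥ ∧ V ≠ ⊤ ∧
        ∀ Y : Lp ℂ p (volume.restrict (Set.Ico (0 : ℝ) 1)) →L[ℂ]
          Lp ℂ p (volume.restrict (Set.Ico (0 : ℝ) 1)), Y * T = T * Y → ∀ f ∈ V, Y f ∈ V := by
  have hP : IsProbabilityMeasure (volume.restrict (Set.Ico (0 : ℝ) 1)) := ⟨by simp⟩
  have hit : ∀ (n : ℕ) (x : ℝ), (fun x => Int.fract (x + α))^[n + 1] x =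
      Int.fract (x + (n + 1 : ℕ) * α) := by
    intro n x
    induction n with
    | zero => simp
    | succ n ih =>
      rw [Function.iterate_succ_apply', ih, Int.fract_eq_fract]
      refine ⟨-⌊x + (n + 1 : ℕ) * α⌋, ?_⟩
      rw [Int.fract]
      push_cast
      ring
  have h0 : ∀ᵐ x : ℝ ∂(volume.restrict (Set.Ico (0 : ℝ) 1)), (x : ℂ) ≠ 0 := by
    refine ae_restrict_of_ae ?_
    filter_upwards [Measure.ae_ne volume (0 : ℝ)] with x hx
    exact Complex.ofReal_ne_zero.mpr hx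
  refine Pool.Agent.Results.MP_f981b0_an.BishopAll.result _ (fun x => Int.fract (x + α)) ?_ ?_
    (fun x : ℝ => (x : ℂ)) ?_ ?_ ?_ p hp
  · refine (mp_rot α).congr (measurable_id.add_const α).fract ?_
    filter_upwards [ae_restrict_mem measurableSet_Ico] with x hx
    exact rotFun_of_mem α hx
  · intro n hn
    obtain ⟨n, rfl⟩ := Nat.exists_eq_succ_of_ne_zero hn.ne'
    have : {x | (fun x => Int.fract (x + α))^[n + 1] x = x} = ∅ := by
      refine Set.eq_empty_of_forall_notMem fun x hx => ?_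
      rw [Set.mem_ofPred_eq, hit, Int.fract] at hx
      refine (hα.natCast_mul hn.ne').ne_int ⌊x + (n + 1 : ℕ) * α⌋ ?_
      linarith
    rw [this, measure_empty]
  · refine memLp_top_of_bound Complex.continuous_ofReal.aestronglyMeasurable 1 ?_
    filter_upwards [ae_restrict_mem measurableSet_Ico] with x hx
    rw [Complex.norm_real, Real.norm_eq_abs, abs_of_nonneg hx.1]
    exact hx.2.le
  · intro h
    obtain ⟨x, h1, h2⟩ := (h0.and h).exists
    exact h1 h2
  · simp only [Complex.norm_real, Real.norm_eq_abs, Real.log_abs]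
    exact (intervalIntegrable_iff_integrableOn_Ico_of_le zero_le_one).mp
      (intervalIntegral.intervalIntegrable_log' (a := 0) (b := 1))

end Pool.Agent.P.MP_f981b0_an.Bish
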