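import Pool.Agent.P.MP_f981b0_an.Bish.Tr

/-! The logarithm of the Fuglede-Kadison determinant of a strictly positive element and its
derivative. -/

open Ring Filter Topology

noncomputable section
namespace Pool.Agent.P.MP_f981b0_an.Bish

section alg
variable {A : Type*} [CStarAlgebra A]

lemma inv_eq_of {a b : A} (h1 : a * b = 1) (h2 : b * a = 1) : a⁻¹ʳ = b :=
  Ring.inverse_unit (⟨a, b, h1, h2⟩ : Aˣ)

lemma inv_smul' {c : ℝ} (hc : c ≠ 0) {a : A} (ha : IsUnit a) : (c • a)⁻¹ʳ = c⁻¹ • a⁻¹ʳ := by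
  apply inv_eq_of
  · rw [smul_mul_smul_comm, Ring.mul_inverse_cancel _ ha, mul_inv_cancel₀ hc, one_smul]
  · rw [smul_mul_smul_comm, Ring.inverse_mul_cancel _ ha, inv_mul_cancel₀ hc, one_smul]

lemma hasDerivAt_inv' {f : ℝ → A} {f' : A} {s : ℝ} (hf : HasDerivAt f f' s) (hu : IsUnit (f s)) :
    HasDerivAt (fun u => (f u)⁻¹ʳ) (-((f s)⁻¹ʳ * f' * (f s)⁻¹ʳ)) s := by
  obtain ⟨x, hx⟩ := hu
  have h1 := hasFDerivAt_ringInverse (𝕜 := ℝ) x
  rw [hx] at h1
  have h2 := h1.comp_hasDerivAt s hf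
  refine HasDerivAt.congr_deriv h2 ?_
  simp [← hx]

lemma sa_smul_one (c : ℝ) : IsSelfAdjoint (c • (1 : A)) := by
  simp [IsSelfAdjoint, star_smul]

lemma sa_smul (c : ℝ) {a : A} (ha : IsSelfAdjoint a) : IsSelfAdjoint (c • a) := by
  simp [IsSelfAdjoint, star_smul, ha.star_eq]

end alg

lemma le_of_deriv_nonneg {G G' : ℝ → ℝ} (h : ∀ s ∈ Set.Icc (0 : ℝ) 1, HasDerivAt G (G' s) s)
    (h' : ∀ s ∈ Set.Icc (0 : ℝ) 1, 0 ≤ G' s) : G 0 ≤ G 1 := by
  obtain ⟨c, hc, hc'⟩ := exists_hasDerivAt_eq_slope G G' zero_lt_one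
    (fun s hs => (h s hs).continuousAt.continuousWithinAt)
    (fun s hs => h s (Set.Ioo_subset_Icc_self hs))
  have := h' c (Set.Ioo_subset_Icc_self hc)
  rw [hc'] at this
  simpa using this

lemma eq_of_deriv_zero {G G' : ℝ → ℝ} (h : ∀ s ∈ Set.Icc (0 : ℝ) 1, HasDerivAt G (G' s) s)
    (h' : ∀ s ∈ Set.Icc (0 : ℝ) 1, G' s = 0) : G 0 = G 1 := by
  obtain ⟨c, hc, hc'⟩ := exists_hasDerivAt_eq_slope G G' zero_lt_one
    (fun s hs => (h s hs).continuousAt.continuousWithinAt)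
    (fun s hs => h s (Set.Ioo_subset_Icc_self hs))
  have := h' c (Set.Ioo_subset_Icc_self hc)
  rw [hc'] at this
  simp at this
  linarith

variable {A : Type*} [CStarAlgebra A] [PartialOrder A] [StarOrderedRing A]

lemma sp_smul_one {c : ℝ} (hc : 0 < c) : IsStrictlyPositive (c • (1 : A)) :=
  IsStrictlyPositive.smul hc isStrictlyPositive_one

lemma smul_one_le_smul_one {c d : ℝ} (h : c ≤ d) : c • (1 : A) ≤ d • (1 : A) :=
  smul_le_smul_of_nonneg_right h zero_le_one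

lemma le_norm_smul_one {a : A} (ha : IsSelfAdjoint a) : a ≤ ‖a‖ • (1 : A) := by
  have := ha.le_algebraMap_norm_self
  rwa [Algebra.algebraMap_eq_smul_one] at this

lemma neg_norm_smul_one_le {a : A} (ha : IsSelfAdjoint a) : -(‖a‖ • (1 : A)) ≤ a := by
  have := ha.neg_algebraMap_norm_le_self
  rwa [Algebra.algebraMap_eq_smul_one] at this

lemma star_mul_le_norm_sq (a : A) : star a * a ≤ (‖a‖ ^ 2) • (1 : A) := by
  have := CStarAlgebra.star_mul_le_algebraMap_norm_sq (a := a)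
  rwa [Algebra.algebraMap_eq_smul_one] at this

lemma norm_le_of_le_smul_one {a : A} (ha : 0 ≤ a) {r : ℝ} (hr : 0 ≤ r) (h : a ≤ r • (1 : A)) :
    ‖a‖ ≤ r := by
  rw [CStarAlgebra.norm_le_iff_le_algebraMap a hr ha, Algebra.algebraMap_eq_smul_one]
  exact h

lemma inv_nonneg' {a : A} (ha : IsStrictlyPositive a) : 0 ≤ a⁻¹ʳ := ha.ringInverse.nonneg

lemma inv_le_of_le {z : A} {m : ℝ} (hm : 0 < m) (h : m • (1 : A) ≤ z) :
    z⁻¹ʳ ≤ m⁻¹ • (1 : A) := by
  have := CStarAlgebra.ringInverse_le_ringInverse h (sp_smul_one hm)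
  rwa [inv_smul' hm.ne' isUnit_one, Ring.inverse_one] at this

lemma norm_inv_le {z : A} {m : ℝ} (hm : 0 < m) (h : m • (1 : A) ≤ z) : ‖z⁻¹ʳ‖ ≤ m⁻¹ :=
  norm_le_of_le_smul_one (inv_nonneg' ((sp_smul_one hm).of_le h)) (inv_nonneg.mpr hm.le)
    (inv_le_of_le hm h)

lemma exists_le_of_sp {z : A} (hz : IsStrictlyPositive z) :
    ∃ m : ℝ, 0 < m ∧ m ≤ 1 ∧ m • (1 : A) ≤ z := by
  have h1 : z⁻¹ʳ ≤ (‖z⁻¹ʳ‖ + 1) • (1 : A) :=
    (le_norm_smul_one hz.ringInverse.isSelfAdjoint).trans (smul_one_le_smul_one (by linarith))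
  have hp : 0 < ‖z⁻¹ʳ‖ + 1 := by positivity
  have h2 := CStarAlgebra.ringInverse_le_ringInverse h1 hz.ringInverse
  rw [inv_smul' hp.ne' isUnit_one, Ring.inverse_one] at h2
  have h3 : z⁻¹ʳ⁻¹ʳ = z :=
    inv_eq_of (Ring.inverse_mul_cancel _ hz.isUnit) (Ring.mul_inverse_cancel _ hz.isUnit)
  rw [h3] at h2
  exact ⟨_, inv_pos.mpr hp, inv_le_one_of_one_le₀ (by linarith [norm_nonneg z⁻¹ʳ]), h2⟩

namespace Tr
variable (τ : Tr A)

lemma nonneg' {a : A} (ha : 0 ≤ a) : 0 ≤ τ.t a := by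
  obtain ⟨b, rfl⟩ := CStarAlgebra.nonneg_iff_eq_star_mul_self.mp ha
  exact τ.nonneg b

lemma mono {a b : A} (h : a ≤ b) : τ.t a ≤ τ.t b := by
  have := τ.nonneg' (sub_nonneg.mpr h)
  rw [map_sub] at this
  linarith

lemma mul_nonneg' {a b : A} (ha : 0 ≤ a) (hb : 0 ≤ b) : 0 ≤ τ.t (a * b) := by
  obtain ⟨c, rfl⟩ := CStarAlgebra.nonneg_iff_eq_star_mul_self.mp ha
  rw [mul_assoc, τ.comm]
  exact τ.nonneg' (star_right_conjugate_nonneg hb c)

lemma mul_le_mul {a b q : A} (h : a ≤ b) (hq : 0 ≤ q) : τ.t (a * q) ≤ τ.t (b * q) := by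
  have := τ.mul_nonneg' (sub_nonneg.mpr h) hq
  rw [sub_mul, map_sub] at this
  linarith

omit [PartialOrder A] [StarOrderedRing A] in
lemma smul_one (c : ℝ) : τ.t (c • (1 : A)) = c := by
  rw [map_smul, τ.one]; simp

end Tr

/-- segment from `1` to `z` -/
def seg (z : A) (s : ℝ) : A := 1 + s • (z - 1)

lemma seg_ge {z : A} {m : ℝ} (hm1 : m ≤ 1) (h : m • (1 : A) ≤ z) {s : ℝ}
    (hs : s ∈ Set.Icc (0 : ℝ) 1) : m • (1 : A) ≤ seg z s := by
  have e : seg z s - m • (1 : A) = ((1 - s) * (1 - m)) • (1 : A) + s • (z - m • 1) := by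
    unfold seg; module
  rw [← sub_nonneg, e]
  exact add_nonneg (smul_nonneg (mul_nonneg (by linarith [hs.2]) (by linarith)) zero_le_one)
    (smul_nonneg hs.1 (sub_nonneg.mpr h))

lemma seg_sp {z : A} (hz : IsStrictlyPositive z) {s : ℝ} (hs : s ∈ Set.Icc (0 : ℝ) 1) :
    IsStrictlyPositive (seg z s) := by
  obtain ⟨m, hm, hm1, h⟩ := exists_le_of_sp hz
  exact (sp_smul_one hm).of_le (seg_ge hm1 h hs)

omit [PartialOrder A] [StarOrderedRing A] in
lemma hasDerivAt_affine (z h : A) (s : ℝ) : HasDerivAt (fun u : ℝ => z + u • h) h s := by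
  simpa using ((hasDerivAt_id s).smul_const h).const_add z

lemma contOn_inv_seg {z : A} (hz : IsStrictlyPositive z) :
    ContinuousOn (fun s => (seg z s)⁻¹ʳ) (Set.uIcc (0 : ℝ) 1) := by
  intro s hs
  rw [Set.uIcc_of_le zero_le_one] at hs
  exact (hasDerivAt_inv' (hasDerivAt_affine 1 (z - 1) s)
    (seg_sp hz hs).isUnit).continuousAt.continuousWithinAt

namespace Tr
variable (τ : Tr A)

/-- `Lam z` is the trace of the logarithm of `z` -/
def Lam (z : A) : ℝ := ∫ s in (0 : ℝ)..1, τ.t ((z - 1) * (seg z s)⁻¹ʳ)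

omit [PartialOrder A] [StarOrderedRing A] in
lemma Lam_one : τ.Lam 1 = 0 := by simp [Lam]

lemma integral_sq {z : A} (hz : IsStrictlyPositive z) (h : A) :
    ∫ s in (0 : ℝ)..1, τ.t ((seg z s)⁻¹ʳ * h * (seg z s)⁻¹ʳ) = τ.t (z⁻¹ʳ * h) := by
  have key : ∀ s ∈ Set.uIcc (0 : ℝ) 1, HasDerivAt (fun s : ℝ => s * τ.t ((seg z s)⁻¹ʳ * h))
      (τ.t ((seg z s)⁻¹ʳ * h * (seg z s)⁻¹ʳ)) s := by
    intro s hs
    rw [Set.uIcc_of_le zero_le_one] at hs
    have hu := (seg_sp hz hs).isUnit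
    have h1 := hasDerivAt_inv' (hasDerivAt_affine 1 (z - 1) s) hu
    have h2 := τ.t.hasFDerivAt.comp_hasDerivAt s (h1.mul_const h)
    have h3 := (hasDerivAt_id s).mul h2
    refine HasDerivAt.congr_deriv h3 (Eq.symm ?_)
    change _ = 1 * τ.t ((seg z s)⁻¹ʳ * h) +
      s * τ.t (-((seg z s)⁻¹ʳ * (z - 1) * (seg z s)⁻¹ʳ) * h)
    set R := (seg z s)⁻¹ʳ with hR
    have e1 : R * (seg z s) = 1 := Ring.inverse_mul_cancel _ hu
    have e2 : R * R = R - s • (R * (z - 1) * R) := by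
      have h4 : R * seg z s * R = R * R + s • (R * (z - 1) * R) := by
        unfold seg
        simp only [mul_add, add_mul, mul_one, mul_smul_comm, smul_mul_assoc]
      rw [e1, one_mul] at h4
      rw [eq_sub_iff_add_eq]
      exact h4.symm
    rw [τ.comm, ← mul_assoc, e2, sub_mul, map_sub, smul_mul_assoc, map_smul, neg_mul, map_neg]
    simp only [smul_eq_mul]
    ring
  have hc : ContinuousOn (fun s => τ.t ((seg z s)⁻¹ʳ * h * (seg z s)⁻¹ʳ)) (Set.uIcc (0 : ℝ) 1) :=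
    τ.t.continuous.comp_continuousOn
      (((contOn_inv_seg hz).mul continuousOn_const).mul (contOn_inv_seg hz))
  rw [intervalIntegral.integral_eq_sub_of_hasDerivAt key hc.intervalIntegrable]
  simp [seg]

lemma Lam_remainder {z z' : A} {m : ℝ} (hm : 0 < m) (hm1 : m ≤ 1) (h : m • (1 : A) ≤ z)
    (h' : m • (1 : A) ≤ z') :
    |τ.Lam z' - τ.Lam z - τ.t (z⁻¹ʳ * (z' - z))| ≤ ‖τ.t‖ * m⁻¹ ^ 3 * ‖z' - z‖ ^ 2 := by
  have hz : IsStrictlyPositive z := (sp_smul_one hm).of_le h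
  have hz' : IsStrictlyPositive z' := (sp_smul_one hm).of_le h'
  have c1 : ContinuousOn (fun s => τ.t ((z - 1) * (seg z s)⁻¹ʳ)) (Set.uIcc (0 : ℝ) 1) :=
    τ.t.continuous.comp_continuousOn (continuousOn_const.mul (contOn_inv_seg hz))
  have c2 : ContinuousOn (fun s => τ.t ((z' - 1) * (seg z' s)⁻¹ʳ)) (Set.uIcc (0 : ℝ) 1) :=
    τ.t.continuous.comp_continuousOn (continuousOn_const.mul (contOn_inv_seg hz'))
  have c3 : ContinuousOn (fun s => τ.t ((seg z s)⁻¹ʳ * (z' - z) * (seg z s)⁻¹ʳ))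
      (Set.uIcc (0 : ℝ) 1) :=
    τ.t.continuous.comp_continuousOn
      (((contOn_inv_seg hz).mul continuousOn_const).mul (contOn_inv_seg hz))
  rw [← τ.integral_sq hz, Lam, Lam, ← intervalIntegral.integral_sub c2.intervalIntegrable
    c1.intervalIntegrable, ← intervalIntegral.integral_sub
    (c2.intervalIntegrable.sub c1.intervalIntegrable) c3.intervalIntegrable]
  have := intervalIntegral.norm_integral_le_of_norm_le_const (a := (0 : ℝ)) (b := 1)
    (C := ‖τ.t‖ * m⁻¹ ^ 3 * ‖z' - z‖ ^ 2)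
    (f := fun s => τ.t ((z' - 1) * (seg z' s)⁻¹ʳ) - τ.t ((z - 1) * (seg z s)⁻¹ʳ) -
      τ.t ((seg z s)⁻¹ʳ * (z' - z) * (seg z s)⁻¹ʳ)) ?_
  · simpa using this
  intro s hs
  have hs : s ∈ Set.Icc (0 : ℝ) 1 := by
    rw [Set.uIoc_of_le zero_le_one] at hs
    exact Set.Ioc_subset_Icc_self hs
  have n1 := norm_inv_le hm (seg_ge hm1 h hs)
  have n2 := norm_inv_le hm (seg_ge hm1 h' hs)
  have e1 : (seg z s)⁻¹ʳ * (seg z s) = 1 := Ring.inverse_mul_cancel _ (seg_sp hz hs).isUnit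
  have e2 : (seg z' s) * (seg z' s)⁻¹ʳ = 1 := Ring.mul_inverse_cancel _ (seg_sp hz' hs).isUnit
  set R := (seg z s)⁻¹ʳ with hR
  set R' := (seg z' s)⁻¹ʳ with hR'
  set k := z' - z with hk
  have e3 : (z' - 1) * R' - R * (z - 1) = R * k * R' := by
    have : R * k * R' = R * (seg z s * (z' - 1) - (z - 1) * seg z' s) * R' := by
      congr 2
      unfold seg
      simp only [hk, add_mul, mul_add, smul_mul_assoc, mul_smul_comm, one_mul, mul_one]
      abel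
    have h5 : R * (seg z s * (z' - 1) - (z - 1) * seg z' s) * R' =
        (R * seg z s) * (z' - 1) * R' - R * (z - 1) * (seg z' s * R') := by noncomm_ring
    rw [this, h5, e1, e2, one_mul, mul_one]
  have e4 : R' = R - s • (R * k * R') := by
    have : s • (R * k * R') = R * (seg z' s - seg z s) * R' := by
      have : seg z' s - seg z s = s • k := by unfold seg; rw [hk]; module
      rw [this]; simp only [smul_mul_assoc, mul_smul_comm]
    rw [this, mul_sub, sub_mul, mul_assoc, e2, e1]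
    simp
  have e5 : τ.t ((z' - 1) * R') - τ.t ((z - 1) * R) - τ.t (R * k * R) =
      τ.t (-(s • (R * k * (R * k * R')))) := by
    rw [τ.comm (z - 1) R, ← map_sub, e3, ← map_sub]
    congr 1
    conv_lhs => rw [e4]
    simp only [mul_sub, mul_smul_comm]
    abel
  rw [e5]
  refine (τ.t.le_opNorm _).trans ?_
  rw [mul_assoc ‖τ.t‖]
  refine mul_le_mul_of_nonneg_left ?_ (norm_nonneg _)
  rw [norm_neg, norm_smul]
  have hs1 : ‖s‖ ≤ 1 := by rw [Real.norm_eq_abs, abs_of_nonneg hs.1]; exact hs.2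
  have hmi : 0 ≤ m⁻¹ := inv_nonneg.mpr hm.le
  calc ‖s‖ * ‖R * k * (R * k * R')‖ ≤ 1 * (‖R‖ * ‖k‖ * (‖R‖ * ‖k‖ * ‖R'‖)) := by
        gcongr
        refine (norm_mul_le _ _).trans ?_
        gcongr
        · exact norm_mul_le _ _
        · exact (norm_mul_le _ _).trans (by gcongr; exact norm_mul_le _ _)
    _ ≤ 1 * (m⁻¹ * ‖k‖ * (m⁻¹ * ‖k‖ * m⁻¹)) := by gcongr
    _ = _ := by ring

lemma hasDerivAt_Lam {f : ℝ → A} {f' : A} {s : ℝ} (hf : HasDerivAt f f' s)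
    (hsa : ∀ u, IsSelfAdjoint (f u)) (hs : IsStrictlyPositive (f s)) :
    HasDerivAt (fun u => τ.Lam (f u)) (τ.t ((f s)⁻¹ʳ * f')) s := by
  obtain ⟨m, hm, hm1, h⟩ := exists_le_of_sp hs
  have hc : Tendsto (fun u => ‖f u - f s‖) (𝓝 s) (𝓝 0) :=
    tendsto_iff_norm_sub_tendsto_zero.mp hf.continuousAt
  have hev : ∀ᶠ u in 𝓝 s, (m / 2) • (1 : A) ≤ f u := by
    filter_upwards [hc.eventually (gt_mem_nhds (half_pos hm))] with u hu
    have h1 := neg_norm_smul_one_le ((hsa u).sub (hsa s))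
    have h2 : ‖f u - f s‖ • (1 : A) ≤ (m / 2) • (1 : A) := smul_one_le_smul_one hu.le
    have h3 : (m / 2) • (1 : A) = m • (1 : A) - (m / 2) • (1 : A) := by module
    rw [h3]
    calc m • (1 : A) - (m / 2) • (1 : A) ≤ f s - ‖f u - f s‖ • (1 : A) := sub_le_sub h h2
      _ ≤ f s + (f u - f s) := by rw [sub_eq_add_neg]; gcongr
      _ = f u := by abel
  have hlin : HasDerivAt (fun u => τ.t ((f s)⁻¹ʳ * f u)) (τ.t ((f s)⁻¹ʳ * f')) s :=
    τ.t.hasFDerivAt.comp_hasDerivAt s (hf.const_mul _)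
  have hrem : HasDerivAt (fun u => τ.Lam (f u) - τ.t ((f s)⁻¹ʳ * f u)) 0 s := by
    rw [hasDerivAt_iff_isLittleO]
    have hO : (fun u => f u - f s) =O[𝓝 s] fun u => u - s := hf.isBigO_sub
    have ho : (fun u => ‖f u - f s‖ ^ 2) =o[𝓝 s] fun u => u - s := by
      have h1 : (fun u => ‖f u - f s‖) =o[𝓝 s] fun _ => (1 : ℝ) :=
        (Asymptotics.isLittleO_one_iff ℝ).mpr hc
      have h2 := h1.mul_isBigO hO.norm_left
      simpa [sq] using h2
    refine Asymptotics.IsBigO.trans_isLittleO ?_ ho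
    refine Asymptotics.IsBigO.of_bound (‖τ.t‖ * (m / 2)⁻¹ ^ 3) ?_
    filter_upwards [hev] with u hu
    have := τ.Lam_remainder (half_pos hm) (by linarith)
      ((smul_one_le_smul_one (by linarith)).trans h) hu
    rw [mul_sub, map_sub] at this
    rw [Real.norm_eq_abs, Real.norm_eq_abs, abs_of_nonneg (sq_nonneg ‖f u - f s‖)]
    convert this using 2
    simp only [smul_zero]
    ring
  have := (hrem.add hlin).congr_deriv (zero_add _)
  refine this.congr_of_eventuallyEq (Eventually.of_forall fun u => ?_)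
  simp

lemma hasDerivAt_Lam_affine {z h : A} (hz : IsSelfAdjoint z) (hh : IsSelfAdjoint h) {s : ℝ}
    (hs : IsStrictlyPositive (z + s • h)) :
    HasDerivAt (fun u : ℝ => τ.Lam (z + u • h)) (τ.t ((z + s • h)⁻¹ʳ * h)) s :=
  τ.hasDerivAt_Lam (hasDerivAt_affine z h s) (fun u => hz.add (sa_smul u hh)) hs

end Tr

end Pool.Agent.P.MP_f981b0_an.Bish
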