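import Pool.Agent.P.MP_f981b0_an.Bish.Alg

/-! Schur products of the zeroth rows of two fields. -/

open MeasureTheory Filter
open scoped ENNReal

noncomputable section
namespace Pool.Agent.P.MP_f981b0_an.Bish

variable {X : Type*}

/-- Schur product of the zeroth rows, paired with the coefficients `c` -/
def sq0 (u v : Big X) (x : X) (c : ℤ → ℂ) : ℂ := ∑' j, ker u x 0 j * ker v x 0 j * c j

theorem sum_row_le (u v : Big X) (x : X) (s : Finset ℤ) :
    ∑ j ∈ s, ‖ker u x 0 j‖ * ‖ker v x 0 j‖ ≤ row u x 0 * row v x 0 := by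
  have h1 : ∑ k ∈ s, ‖ker u x 0 k‖ ^ 2 ≤ row u x 0 ^ 2 :=
    sum_le_hasSum s (fun k _ => by positivity) (hasSum_row u x 0)
  have h2 : ∑ k ∈ s, ‖ker v x 0 k‖ ^ 2 ≤ row v x 0 ^ 2 :=
    sum_le_hasSum s (fun k _ => by positivity) (hasSum_row v x 0)
  refine (Real.sum_mul_le_sqrt_mul_sqrt s _ _).trans ?_
  exact mul_le_mul (Real.sqrt_le_iff.mpr ⟨row_nonneg _ _ _, h1⟩)
    (Real.sqrt_le_iff.mpr ⟨row_nonneg _ _ _, h2⟩) (Real.sqrt_nonneg _) (row_nonneg _ _ _)

theorem summable_rows (u v : Big X) (x : X) :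
    Summable fun j => ‖ker u x 0 j‖ * ‖ker v x 0 j‖ :=
  summable_of_sum_le (fun j => by positivity) (sum_row_le u v x)

theorem term_le (u v : Big X) (x : X) {c : ℤ → ℂ} (hc : ∀ j, ‖c j‖ ≤ 1) (j : ℤ) :
    ‖ker u x 0 j * ker v x 0 j * c j‖ ≤ ‖ker u x 0 j‖ * ‖ker v x 0 j‖ := by
  rw [norm_mul, norm_mul]
  exact mul_le_of_le_one_right (by positivity) (hc j)

theorem summable_sq0 (u v : Big X) (x : X) {c : ℤ → ℂ} (hc : ∀ j, ‖c j‖ ≤ 1) :
    Summable fun j => ker u x 0 j * ker v x 0 j * c j :=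
  Summable.of_norm_bounded (summable_rows u v x) (term_le u v x hc)

theorem norm_sq0_le (u v : Big X) (x : X) {c : ℤ → ℂ} (hc : ∀ j, ‖c j‖ ≤ 1) :
    ‖sq0 u v x c‖ ≤ row u x 0 * row v x 0 :=
  (tsum_of_norm_bounded (summable_rows u v x).hasSum (term_le u v x hc)).trans
    (Real.tsum_le_of_sum_le (fun j => by positivity) (sum_row_le u v x))

theorem norm_sq0_le' (u v : Big X) (x : X) {c : ℤ → ℂ} (hc : ∀ j, ‖c j‖ ≤ 1) :
    ‖sq0 u v x c‖ ≤ ‖u‖ * ‖v‖ :=
  (norm_sq0_le u v x hc).trans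
    (mul_le_mul (row_le _ _ _) (row_le _ _ _) (row_nonneg _ _ _) (norm_nonneg _))

theorem sq0_sub_left (u u' v : Big X) (x : X) {c : ℤ → ℂ} (hc : ∀ j, ‖c j‖ ≤ 1) :
    sq0 (u - u') v x c = sq0 u v x c - sq0 u' v x c := by
  unfold sq0
  rw [← (summable_sq0 u v x hc).tsum_sub (summable_sq0 u' v x hc)]
  exact tsum_congr fun j => by rw [ker_sub]; ring

theorem sq0_sub_right (u v v' : Big X) (x : X) {c : ℤ → ℂ} (hc : ∀ j, ‖c j‖ ≤ 1) :
    sq0 u (v - v') x c = sq0 u v x c - sq0 u v' x c := by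
  unfold sq0
  rw [← (summable_sq0 u v x hc).tsum_sub (summable_sq0 u v' x hc)]
  exact tsum_congr fun j => by rw [ker_sub]; ring

theorem sq0_smul_left (z : ℂ) (u v : Big X) (x : X) (c : ℤ → ℂ) :
    sq0 (z • u) v x c = z * sq0 u v x c := by
  unfold sq0
  rw [← tsum_mul_left]
  exact tsum_congr fun j => by rw [ker_smul]; ring

theorem sq0_smul_right (z : ℂ) (u v : Big X) (x : X) (c : ℤ → ℂ) :
    sq0 u (z • v) x c = z * sq0 u v x c := by
  unfold sq0
  rw [← tsum_mul_left]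
  exact tsum_congr fun j => by rw [ker_smul]; ring

variable [MeasurableSpace X]

/-- the Schur product applied to the test function `al`, twisted by the phase `lam` -/
def Sys.Sq (S : Sys X) (lam : ℂ) (al : X → ℂ) (u v : S.A) (x : X) : ℂ :=
  sq0 u.1 v.1 x fun j => lam ^ j * al (S.σ j x)

theorem coef_le (S : Sys X) {lam : ℂ} (hl : ‖lam‖ = 1) {al : X → ℂ} (hal : Bdd al 1) (x : X)
    (j : ℤ) : ‖lam ^ j * al (S.σ j x)‖ ≤ 1 := by
  rw [norm_mul, norm_zpow, hl, one_zpow, one_mul]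
  exact hal.le _

theorem Sys.meas_Sq (S : Sys X) (lam : ℂ) {al : X → ℂ} (hal : Measurable al) (u v : S.A) :
    Measurable (S.Sq lam al u v) :=
  Measurable.tsum fun j => ((S.meas_ker u 0 j).mul (S.meas_ker v 0 j)).mul
    ((hal.comp (S.mp j).measurable).const_mul _)

theorem Sys.norm_Sq_le (S : Sys X) {lam : ℂ} (hl : ‖lam‖ = 1) {al : X → ℂ} (hal : Bdd al 1)
    (u v : S.A) (x : X) : ‖S.Sq lam al u v x‖ ≤ ‖u‖ * ‖v‖ :=
  norm_sq0_le' _ _ _ (coef_le S hl hal x)

theorem Sys.Sq_W (S : Sys X) {lam : ℂ} (hl : lam ≠ 0) (al : X → ℂ) (a : X → ℂ) {C : ℝ}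
    (ha : Bdd a C) (u v : S.A) (x : X) :
    S.Sq lam al (S.W a ha 1 * u) (S.W a ha 1 * v) x =
      lam * (a x ^ 2 * S.Sq lam al u v (S.σ 1 x)) := by
  unfold Sys.Sq sq0
  rw [← tsum_mul_left, ← tsum_mul_left, ← (Equiv.addRight (1 : ℤ)).tsum_eq]
  refine tsum_congr fun j => ?_
  simp only [Equiv.coe_addRight, S.ker_W_mul, S.ker_σ, S.σ_zero, S.σ_add, zpow_add_one₀ hl]
  ring

/-- `T - s` acting on functions -/
def Sys.Ts (S : Sys X) (w : X → ℂ) (s : ℝ) (f : X → ℂ) : X → ℂ :=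
  fun x => w x * f (S.σ 1 x) - s * f x

theorem Sys.Ts_iter_lin (S : Sys X) (w : X → ℂ) (s : ℝ) (k : ℕ) (c₁ c₂ : ℂ) (f g : X → ℂ) :
    (S.Ts w s)^[k] (fun x => c₁ * f x + c₂ * g x) =
      fun x => c₁ * (S.Ts w s)^[k] f x + c₂ * (S.Ts w s)^[k] g x := by
  induction k generalizing f g with
  | zero => rfl
  | succ k ih =>
    simp only [Function.iterate_succ_apply]
    rw [← ih]
    congr 1
    funext x
    simp only [Sys.Ts]
    ring

theorem Sys.Ts_Sq (S : Sys X) {lam ζ : ℂ} {s : ℝ} (hl : ‖lam‖ = 1) (hζ : ζ ^ 2 = lam * s)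
    {al : X → ℂ} (hal : Bdd al 1) (a : X → ℂ) {C : ℝ} (ha : Bdd a C) (u v : S.A) :
    S.Ts (fun x => a x ^ 2) s (S.Sq lam al u v) = fun x =>
      lam⁻¹ * S.Sq lam al ((S.W a ha 1 - algebraMap ℂ S.A ζ) * u) (S.W a ha 1 * v) x +
      (lam⁻¹ * ζ) * S.Sq lam al u ((S.W a ha 1 - algebraMap ℂ S.A ζ) * v) x := by
  have hl0 : lam ≠ 0 := by
    rintro rfl
    simp at hl
  funext x
  have hc := coef_le S hl hal x
  have h1 : S.Sq lam al ((S.W a ha 1 - algebraMap ℂ S.A ζ) * u) (S.W a ha 1 * v) x =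
      S.Sq lam al (S.W a ha 1 * u) (S.W a ha 1 * v) x - ζ * S.Sq lam al u (S.W a ha 1 * v) x := by
    rw [sub_mul, ← Algebra.smul_def]
    exact (sq0_sub_left _ _ _ x hc).trans (by unfold Sys.Sq; rw [← sq0_smul_left]; rfl)
  have h2 : S.Sq lam al u ((S.W a ha 1 - algebraMap ℂ S.A ζ) * v) x =
      S.Sq lam al u (S.W a ha 1 * v) x - ζ * S.Sq lam al u v x := by
    rw [sub_mul, ← Algebra.smul_def]
    exact (sq0_sub_right _ _ _ x hc).trans (by unfold Sys.Sq; rw [← sq0_smul_right]; rfl)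
  rw [h1, h2, S.Sq_W hl0]
  simp only [Sys.Ts]
  field_simp
  linear_combination (S.Sq lam al u v x) * hζ

theorem norm_pow_mul_le {A : Type*} [NormedRing A] {y : A} {M : ℝ} (hM : 0 ≤ M) (hy : ‖y‖ ≤ M)
    (i : ℕ) (z : A) : ‖y ^ i * z‖ ≤ M ^ i * ‖z‖ := by
  induction i with
  | zero => simp
  | succ i ih =>
    rw [pow_succ', mul_assoc, pow_succ', mul_assoc]
    exact (norm_mul_le _ _).trans (mul_le_mul hy ih (norm_nonneg _) hM)

theorem Sys.iter_bound (S : Sys X) {lam ζ : ℂ} {s : ℝ} (hl : ‖lam‖ = 1) (hζ : ζ ^ 2 = lam * s)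
    {al : X → ℂ} (hal : Bdd al 1) (a : X → ℂ) {C : ℝ} (ha : Bdd a C) {M δ : ℝ} (hM : 1 ≤ M)
    (hδ : 0 ≤ δ) (hA : ‖S.W a ha 1‖ ≤ M) (hX : ‖S.W a ha 1 - algebraMap ℂ S.A ζ‖ ≤ M)
    (hζM : ‖ζ‖ ≤ M) (p : S.A) (hp : ‖p‖ ≤ 1) (n : ℕ)
    (hn : ‖(S.W a ha 1 - algebraMap ℂ S.A ζ) ^ n * p‖ ≤ δ ^ n) (k : ℕ) :
    ∀ i j l : ℕ, 2 * n ≤ i + j + k → ∀ x,
      ‖(S.Ts (fun x => a x ^ 2) s)^[k]
        (S.Sq lam al ((S.W a ha 1 - algebraMap ℂ S.A ζ) ^ i * p)
          ((S.W a ha 1 - algebraMap ℂ S.A ζ) ^ j * (S.W a ha 1 ^ l * p))) x‖ ≤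
        2 ^ k * M ^ (i + j + l + 2 * k) * δ ^ n := by
  set A := S.W a ha 1 with hAdef
  set Y := A - algebraMap ℂ S.A ζ with hY
  have hM0 : 0 ≤ M := by linarith
  have hcomm : Commute A Y := (Commute.refl A).sub_right (Algebra.commutes ζ A).symm
  induction k with
  | zero =>
    intro i j l h x
    simp only [Function.iterate_zero, id, pow_zero, one_mul, mul_zero, add_zero] at h ⊢
    refine (S.norm_Sq_le hl hal _ _ x).trans ?_
    have hδn : 0 ≤ δ ^ n := by positivity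
    by_cases hi : n ≤ i
    · obtain ⟨d, rfl⟩ := Nat.exists_eq_add_of_le hi
      have h1 : ‖Y ^ (n + d) * p‖ ≤ M ^ d * δ ^ n := by
        rw [add_comm, pow_add, mul_assoc]
        exact (norm_pow_mul_le hM0 hX d _).trans (mul_le_mul_of_nonneg_left hn (by positivity))
      have h2 : ‖Y ^ j * (A ^ l * p)‖ ≤ M ^ j * M ^ l :=
        (norm_pow_mul_le hM0 hX j _).trans (mul_le_mul_of_nonneg_left
          ((norm_pow_mul_le hM0 hA l _).trans (mul_le_of_le_one_right (by positivity) hp))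
          (by positivity))
      calc _ ≤ (M ^ d * δ ^ n) * (M ^ j * M ^ l) :=
            mul_le_mul h1 h2 (norm_nonneg _) (by positivity)
        _ = M ^ (d + j + l) * δ ^ n := by ring
        _ ≤ _ := mul_le_mul_of_nonneg_right (pow_le_pow_right₀ hM (by omega)) hδn
    · obtain ⟨d, rfl⟩ := Nat.exists_eq_add_of_le (show n ≤ j by omega)
      have h1 : ‖Y ^ i * p‖ ≤ M ^ i :=
        (norm_pow_mul_le hM0 hX i _).trans (mul_le_of_le_one_right (by positivity) hp)
      have h2 : ‖Y ^ (n + d) * (A ^ l * p)‖ ≤ M ^ d * (M ^ l * δ ^ n) := by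
        have : Y ^ (n + d) * (A ^ l * p) = Y ^ d * (A ^ l * (Y ^ n * p)) := by
          rw [add_comm, pow_add, mul_assoc, ← mul_assoc (Y ^ n), ← (hcomm.pow_pow l n).eq,
            mul_assoc]
        rw [this]
        exact (norm_pow_mul_le hM0 hX d _).trans (mul_le_mul_of_nonneg_left
          ((norm_pow_mul_le hM0 hA l _).trans (mul_le_mul_of_nonneg_left hn (by positivity)))
          (by positivity))
      calc _ ≤ M ^ i * (M ^ d * (M ^ l * δ ^ n)) :=
            mul_le_mul h1 h2 (norm_nonneg _) (by positivity)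
        _ = M ^ (i + d + l) * δ ^ n := by ring
        _ ≤ _ := mul_le_mul_of_nonneg_right (pow_le_pow_right₀ hM (by omega)) hδn
  | succ k ih =>
    intro i j l h x
    rw [Function.iterate_succ_apply, S.Ts_Sq hl hζ hal a ha, S.Ts_iter_lin, ← hAdef, ← hY]
    have e1 : Y * (Y ^ i * p) = Y ^ (i + 1) * p := by rw [← mul_assoc, ← pow_succ']
    have e2 : A * (Y ^ j * (A ^ l * p)) = Y ^ j * (A ^ (l + 1) * p) := by
      rw [← mul_assoc, (hcomm.pow_right j).eq, mul_assoc, ← mul_assoc A, ← pow_succ']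
    have e3 : Y * (Y ^ j * (A ^ l * p)) = Y ^ (j + 1) * (A ^ l * p) := by
      rw [← mul_assoc, ← pow_succ']
    rw [e1, e2, e3]
    have h1 := ih (i + 1) j (l + 1) (by omega) x
    have h2 := ih i (j + 1) l (by omega) x
    refine (norm_add_le _ _).trans ?_
    rw [norm_mul, norm_mul, norm_mul, norm_inv, hl, inv_one, one_mul, one_mul]
    have h3 := mul_le_mul hζM h2 (norm_nonneg _) hM0
    calc _ ≤ 2 ^ k * M ^ (i + 1 + j + (l + 1) + 2 * k) * δ ^ n +
          M * (2 ^ k * M ^ (i + (j + 1) + l + 2 * k) * δ ^ n) := add_le_add h1 h3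
      _ = _ := by ring

theorem Sys.integral_Sq_sub_le (S : Sys X) {lam : ℂ} (hl : ‖lam‖ = 1) {al : X → ℂ}
    (hal : Bdd al 1) {p q : S.A} (hp : IsSelfAdjoint p) (hq : IsSelfAdjoint q) (hp1 : ‖p‖ ≤ 1)
    (hq1 : ‖q‖ ≤ 1) {ε : ℝ} (hε : 0 < ε) (h : S.tr.t ((p - q) * (p - q)) ≤ ε ^ 2) :
    ∫ x, ‖S.Sq lam al p p x - S.Sq lam al q q x‖ ∂S.μ ≤ 2 * ε := by
  have := S.prob
  have hsa : star (p - q) = p - q := (hp.sub hq).star_eq
  have h1 : ∫ x, row (p - q).1 x 0 ^ 2 ∂S.μ ≤ ε ^ 2 := by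
    rw [← S.tr_mul_star, hsa]
    exact h
  have hint : Integrable (fun x => row (p - q).1 x 0 ^ 2) S.μ :=
    S.integrable_of_le (S.meas_row_sq (p - q) 0).aestronglyMeasurable (‖(p - q).1‖ ^ 2) fun x => by
      rw [Real.norm_eq_abs, abs_of_nonneg (by positivity)]
      exact pow_le_pow_left₀ (row_nonneg _ _ _) (row_le _ _ _) 2
  have h2 : ∀ x, ‖S.Sq lam al p p x - S.Sq lam al q q x‖ ≤ ε + row (p - q).1 x 0 ^ 2 / ε := by
    intro x
    have hc := coef_le S hl hal x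
    have e : S.Sq lam al p p x - S.Sq lam al q q x =
        sq0 (p.1 - q.1) p.1 x (fun j => lam ^ j * al (S.σ j x)) +
        sq0 q.1 (p.1 - q.1) x (fun j => lam ^ j * al (S.σ j x)) := by
      rw [sq0_sub_left _ _ _ x hc, sq0_sub_right _ _ _ x hc]
      simp only [Sys.Sq]
      ring
    rw [e]
    have a1 := norm_sq0_le (p.1 - q.1) p.1 x hc
    have a2 := norm_sq0_le q.1 (p.1 - q.1) x hc
    have b1 : row p.1 x 0 ≤ 1 := (row_le _ _ _).trans hp1
    have b2 : row q.1 x 0 ≤ 1 := (row_le _ _ _).trans hq1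
    have r0 := row_nonneg (p.1 - q.1) x 0
    have e2 : (p - q).1 = p.1 - q.1 := rfl
    rw [e2]
    set r := row (p.1 - q.1) x 0
    have c1 : r * row p.1 x 0 ≤ r := mul_le_of_le_one_right r0 b1
    have c2 : row q.1 x 0 * r ≤ r := mul_le_of_le_one_left r0 b2
    have c3 : 2 * r ≤ ε + r ^ 2 / ε := by
      rw [← sub_nonneg]
      have : ε + r ^ 2 / ε - 2 * r = (ε - r) ^ 2 / ε := by field_simp; ring
      rw [this]
      positivity
    linarith [norm_add_le (sq0 (p.1 - q.1) p.1 x fun j => lam ^ j * al (S.σ j x))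
      (sq0 q.1 (p.1 - q.1) x fun j => lam ^ j * al (S.σ j x))]
  calc _ ≤ ∫ x, (ε + row (p - q).1 x 0 ^ 2 / ε) ∂S.μ :=
        integral_mono_of_nonneg (Eventually.of_forall fun x => norm_nonneg _)
          ((integrable_const ε).add (hint.div_const ε)) (Eventually.of_forall h2)
    _ = ε + (∫ x, row (p - q).1 x 0 ^ 2 ∂S.μ) / ε := by
        rw [integral_add (integrable_const ε) (hint.div_const ε), integral_div]
        simp
    _ ≤ ε + ε ^ 2 / ε := by gcongr
    _ = 2 * ε := by field_simp; ring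

/-- the signs attached to a separating family -/
def sg (φ : X → ℕ → Bool) (i : ℕ) (x : X) : ℂ := if φ x i then 1 else -1

omit [MeasurableSpace X] in
theorem sum_sg (φ : X → ℕ → Bool) (m : ℕ) (x y : X) [Decidable (∀ i < m, φ x i = φ y i)] :
    ∑ s ∈ (Finset.range m).powerset, (∏ i ∈ s, sg φ i x) * ∏ i ∈ s, sg φ i y =
      if ∀ i < m, φ x i = φ y i then 2 ^ m else 0 := by
  simp only [← Finset.prod_mul_distrib]
  rw [← Finset.prod_one_add]
  split_ifs with h
  · rw [Finset.prod_congr rfl (g := fun _ => (2 : ℂ))]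
    · simp
    · intro i hi
      rw [sg, sg, ← h i (Finset.mem_range.mp hi)]
      split_ifs <;> norm_num
  · push Not at h
    obtain ⟨i, hi, hne⟩ := h
    refine Finset.prod_eq_zero (Finset.mem_range.mpr hi) ?_
    unfold sg
    cases hx : φ x i <;> cases hy : φ y i <;> simp_all

theorem bdd_sg {φ : X → ℕ → Bool} (hφ : Measurable φ) (s : Finset ℕ) :
    Bdd (fun x => ∏ i ∈ s, sg φ i x) 1 := by
  refine ⟨Finset.measurable_prod _ fun i _ => ?_, fun x => ?_⟩
  · exact Measurable.ite ((measurable_pi_apply i).comp hφ (measurableSet_singleton true))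
      measurable_const measurable_const
  · rw [norm_prod]
    refine (Finset.prod_eq_one fun i _ => ?_).le
    unfold sg
    split_ifs <;> simp

theorem Sys.exists_test [MeasurableSpace.CountablySeparated X] (S : Sys X)
    (hap : ∀ᵐ x ∂S.μ, ∀ j, j ≠ 0 → S.σ j x ≠ x) {lam : ℂ} (hl : ‖lam‖ = 1) {p : S.A}
    (hp : IsSelfAdjoint p) {θ : ℝ} (hθ : 0 < θ) (h : θ ≤ S.tr.t p) :
    ∃ al : X → ℂ, Bdd al 1 ∧ θ ^ 2 / 2 ≤ (∫ x, al x * S.Sq lam al p p x ∂S.μ).re := by
  classical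
  have := S.prob
  obtain ⟨φ, hφ, hinj⟩ := MeasurableSpace.measurable_injection_nat_bool_of_countablySeparated X
  let al : Finset ℕ → X → ℂ := fun s x => ∏ i ∈ s, sg φ i x
  have hal : ∀ s, Bdd (al s) 1 := fun s => bdd_sg hφ s
  let χ : ℕ → X → ℤ → ℂ := fun m x j => if ∀ i < m, φ x i = φ (S.σ j x) i then lam ^ j else 0
  have hχ : ∀ m x j, ‖χ m x j‖ ≤ 1 := by
    intro m x j
    simp only [χ]
    split_ifs
    · rw [norm_zpow, hl, one_zpow]
    · simp
  let G : ℕ → X → ℂ := fun m x => sq0 p.1 p.1 x (χ m x)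
  have hG : ∀ m x, ∑ s ∈ (Finset.range m).powerset, al s x * S.Sq lam (al s) p p x =
      2 ^ m * G m x := by
    intro m x
    simp only [Sys.Sq, G, sq0, ← tsum_mul_left]
    rw [← Summable.tsum_finsetSum fun s _ =>
      (summable_sq0 p.1 p.1 x (coef_le S hl (hal s) x)).mul_left (al s x)]
    refine tsum_congr fun j => ?_
    have e : ∀ s, al s x * (ker p.1 x 0 j * ker p.1 x 0 j * (lam ^ j * al s (S.σ j x))) =
        ker p.1 x 0 j * ker p.1 x 0 j * lam ^ j * (al s x * al s (S.σ j x)) := fun s => by ring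
    simp only [e, ← Finset.mul_sum, al, sum_sg, χ]
    split_ifs <;> ring
  have hint : ∀ s, Integrable (fun x => al s x * S.Sq lam (al s) p p x) S.μ := fun s =>
    S.integrable_of_le ((hal s).meas.mul (S.meas_Sq lam (hal s).meas p p)).aestronglyMeasurable
      (1 * (‖p‖ * ‖p‖)) fun x => by
        rw [norm_mul]
        exact mul_le_mul ((hal s).le x) (S.norm_Sq_le hl (hal s) p p x) (norm_nonneg _) zero_le_one
  have hGm : ∀ m, Measurable (G m) := by
    intro m
    have : G m = fun x => (2 ^ m)⁻¹ *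
        ∑ s ∈ (Finset.range m).powerset, al s x * S.Sq lam (al s) p p x := by
      funext x
      rw [hG]
      field_simp
    rw [this]
    exact (Finset.measurable_sum _ fun s _ =>
      (hal s).meas.mul (S.meas_Sq lam (hal s).meas p p)).const_mul _
  have hlim : ∀ᵐ x ∂S.μ, Tendsto (fun m => G m x) atTop (nhds (ker p.1 x 0 0 * ker p.1 x 0 0)) := by
    filter_upwards [hap] with x hx
    have e : ker p.1 x 0 0 * ker p.1 x 0 0 =
        ∑' j : ℤ, ker p.1 x 0 j * ker p.1 x 0 j * (if j = 0 then 1 else 0) := by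
      rw [tsum_eq_single 0]
      · simp
      · intro j hj
        simp [hj]
    rw [e]
    refine tendsto_tsum_of_dominated_convergence (summable_rows p.1 p.1 x) (fun j => ?_)
      (Eventually.of_forall fun m j => term_le _ _ _ (hχ m x) j)
    refine Tendsto.const_mul _ ?_
    by_cases hj : j = 0
    · subst hj
      simp [χ, S.σ_zero]
    · have hne : φ x ≠ φ (S.σ j x) := fun h => hx j hj (hinj h).symm
      obtain ⟨i, hi⟩ := Function.ne_iff.mp hne
      rw [if_neg hj]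
      refine tendsto_const_nhds.congr' ?_
      filter_upwards [eventually_gt_atTop i] with m hm
      simp only [χ]
      rw [if_neg fun h => hi (h i hm)]
  have hI := tendsto_integral_of_dominated_convergence (fun _ => ‖p.1‖ * ‖p.1‖)
    (fun m => (hGm m).aestronglyMeasurable) (integrable_const _)
    (fun m => Eventually.of_forall fun x => norm_sq0_le' _ _ _ (hχ m x)) hlim
  have hreal : ∀ x, ker p.1 x 0 0 = ((ker p.1 x 0 0).re : ℂ) := by
    intro x
    have h1 : ker (star p).1 x 0 0 = (starRingEnd ℂ) (ker p.1 x 0 0) := ker_star _ x 0 0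
    rw [hp.star_eq] at h1
    exact (Complex.conj_eq_iff_re.mp h1.symm).symm
  have hlow : θ ^ 2 ≤ (∫ x, ker p.1 x 0 0 * ker p.1 x 0 0 ∂S.μ).re := by
    have e : ∀ x, ker p.1 x 0 0 * ker p.1 x 0 0 = (((ker p.1 x 0 0).re ^ 2 : ℝ) : ℂ) := by
      intro x
      rw [hreal x]
      push_cast
      simp only [Complex.ofReal_re]
      ring
    simp only [e]
    rw [integral_complex_ofReal, Complex.ofReal_re]
    have hi1 : Integrable (fun x => (ker p.1 x 0 0).re) S.μ := (S.integrable_ker p 0 0).re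
    have hi2 : Integrable (fun x => (ker p.1 x 0 0).re ^ 2) S.μ :=
      S.integrable_of_le
        ((Complex.measurable_re.comp (S.meas_ker p 0 0)).pow_const 2).aestronglyMeasurable
        (‖p.1‖ ^ 2) fun x => by
          rw [norm_pow]
          exact pow_le_pow_left₀ (norm_nonneg _)
            ((Complex.abs_re_le_norm _).trans (norm_ker_le _ _ _ _)) 2
    have h2 := integral_mono ((hi1.const_mul (2 * θ)).sub (integrable_const (θ ^ 2))) hi2
      (fun x => by
        simp only [Pi.sub_apply]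
        nlinarith [sq_nonneg ((ker p.1 x 0 0).re - θ)])
    simp only [Pi.sub_apply] at h2
    rw [integral_sub (hi1.const_mul (2 * θ)) (integrable_const (θ ^ 2)), integral_const_mul,
      ← S.tr_apply] at h2
    simp only [integral_const, probReal_univ, smul_eq_mul, one_mul] at h2
    nlinarith
  have hev := ((Complex.continuous_re.tendsto _).comp hI).eventually
    (lt_mem_nhds (show θ ^ 2 / 2 < (∫ x, ker p.1 x 0 0 * ker p.1 x 0 0 ∂S.μ).re by
      have : 0 < θ ^ 2 := by positivity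
      linarith))
  obtain ⟨m, hm⟩ := hev.exists
  have hsum : ∑ s ∈ (Finset.range m).powerset, θ ^ 2 / 2 ≤
      ∑ s ∈ (Finset.range m).powerset, (∫ x, al s x * S.Sq lam (al s) p p x ∂S.μ).re := by
    rw [← Complex.re_sum, ← integral_finsetSum _ fun s _ => hint s]
    simp only [hG]
    rw [integral_const_mul, Finset.sum_const, Finset.card_powerset, Finset.card_range,
      nsmul_eq_mul]
    have e : ((2 : ℂ) ^ m) = ((2 ^ m : ℝ) : ℂ) := by push_cast; rfl
    rw [e, Complex.re_ofReal_mul]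
    push_cast
    exact mul_le_mul_of_nonneg_left (le_of_lt hm) (by positivity)
  obtain ⟨s, -, hs⟩ := Finset.exists_le_of_sum_le ⟨∅, Finset.empty_mem_powerset _⟩ hsum
  exact ⟨al s, hal s, hs⟩

end Pool.Agent.P.MP_f981b0_an.Bish
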