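import Pool.Agent.P.MP_f981b0_an.Bish.Det

/-! Soft spectral projections converge in the trace norm. -/

open Ring Filter Topology

noncomputable section
namespace Pool.Agent.P.MP_f981b0_an.Bish

variable {A : Type*} [CStarAlgebra A] [PartialOrder A] [StarOrderedRing A]

/-- soft projection onto the part where `|a|^2` is at most `α` -/
def sp (α : ℝ) (a : A) : A := α • (α • (1 : A) + star a * a)⁻¹ʳ

lemma sp_nonneg {α : ℝ} (hα : 0 < α) (a : A) : 0 ≤ sp α a :=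
  smul_nonneg hα.le (inv_nonneg' (sp_eps hα a))

lemma sp_le_one {α : ℝ} (hα : 0 < α) (a : A) : sp α a ≤ 1 := by
  have := smul_le_smul_of_nonneg_left (inv_le_of_le hα
    (le_add_of_nonneg_right (star_mul_self_nonneg a))) hα.le
  rwa [smul_smul, mul_inv_cancel₀ hα.ne', one_smul] at this

lemma norm_sp_le {α : ℝ} (hα : 0 < α) (a : A) : ‖sp α a‖ ≤ 1 :=
  norm_le_of_le_smul_one (sp_nonneg hα a) zero_le_one (by simpa using sp_le_one hα a)

lemma norm_mul_sp_sq_le {α : ℝ} (hα : 0 < α) (a : A) : ‖a * sp α a‖ ^ 2 ≤ α := by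
  rw [sq, ← CStarRing.norm_star_mul_self]
  refine norm_le_of_le_smul_one (star_mul_self_nonneg _) hα.le ?_
  have hZ := sp_eps hα a
  have hs : star (sp α a) = sp α a := (sp_nonneg hα a).isSelfAdjoint.star_eq
  have e1 : (α • (1 : A) + star a * a) * sp α a = α • 1 := by
    unfold sp
    rw [mul_smul_comm, Ring.mul_inverse_cancel _ hZ.isUnit]
  have h1 : star (a * sp α a) * (a * sp α a) = star (sp α a) * (star a * a) * sp α a := by
    rw [star_mul]; noncomm_ring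
  rw [h1]
  calc star (sp α a) * (star a * a) * sp α a
      ≤ star (sp α a) * (α • (1 : A) + star a * a) * sp α a :=
        star_left_conjugate_le_conjugate (le_add_of_nonneg_left (sp_smul_one hα).nonneg) _
    _ = α • sp α a := by rw [mul_assoc, e1, hs, mul_smul_comm, mul_one]
    _ ≤ α • 1 := smul_le_smul_of_nonneg_left (sp_le_one hα a) hα.le

lemma smul_one_sub_sp_le {α : ℝ} (hα : 0 < α) (a : A) : α • (1 - sp α a) ≤ star a * a := by
  have hZ := sp_eps hα a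
  have hy : star (star a * a) = star a * a := (IsSelfAdjoint.star_mul_self a).star_eq
  have e1 := Ring.mul_inverse_cancel _ hZ.isUnit
  have e2 := Ring.inverse_mul_cancel _ hZ.isUnit
  have h := star_left_conjugate_nonneg (inv_nonneg' hZ) (star a * a)
  rw [hy] at h
  unfold sp
  set y := star a * a
  set R := (α • (1 : A) + y)⁻¹ʳ
  have e3 : y * R = 1 - α • R := by
    rw [← e1, add_mul, smul_mul_assoc, one_mul]; abel
  have e4 : R * y = 1 - α • R := by
    rw [← e2, mul_add, mul_smul_comm, mul_one]; abel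
  rw [e3, sub_mul, one_mul, smul_mul_assoc, e4] at h
  exact sub_nonneg.mp h

lemma exists_record {v : ℕ → ℝ} (hv : Tendsto v atTop atTop) (N0 : ℕ) :
    ∃ N ≥ N0, ∀ k ≤ N, v k ≤ v N := by
  obtain ⟨B, hB⟩ : ∃ B : ℝ, ∀ k < N0, v k < B := by
    refine ⟨∑ k ∈ Finset.range N0, |v k| + 1, fun k hk => ?_⟩
    have := Finset.single_le_sum (f := fun k => |v k|) (fun i _ => abs_nonneg (v i))
      (Finset.mem_range.mpr hk)
    linarith [le_abs_self (v k)]
  obtain ⟨M, hM⟩ := (hv.eventually (eventually_ge_atTop B)).exists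
  obtain ⟨N, hN, hmax⟩ := Finset.exists_max_image (Finset.range (M + 1)) v ⟨0, by simp⟩
  refine ⟨N, ?_, fun k hk => hmax k ?_⟩
  · by_contra h
    have h1 := hB N (not_le.mp h)
    have h2 := hmax M (by simp)
    linarith
  · simp only [Finset.mem_range] at hN ⊢
    omega

namespace Tr
variable (τ : Tr A)

lemma t_sp_mul_le {α : ℝ} (hα : 0 < α) (a : A) {q : A} (hq : 0 ≤ q) :
    τ.t (sp α a * q) ≤ τ.t q := by
  simpa using τ.mul_le_mul (sp_le_one hα a) hq

lemma upper {α c : ℝ} (hα : 0 < α) (a : A) :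
    c * τ.t (sp α a) ≤ τ.D (α * Real.exp c) a - τ.D α a := by
  have := τ.Lam_log (sp_eps hα a) (sp_smul_one hα).nonneg
    (le_add_of_nonneg_right (star_mul_self_nonneg a)) (u := Real.exp c - 1)
    (by linarith [Real.exp_pos c])
  have e : α • (1 : A) + star a * a + (Real.exp c - 1) • α • (1 : A) =
      (α * Real.exp c) • (1 : A) + star a * a := by module
  rw [e, add_sub_cancel, Real.log_exp, mul_smul_comm, mul_one] at this
  unfold D sp
  linarith

lemma key {α β c : ℝ} (hα : 0 < α) (hβ : 0 < β) (hc : 0 ≤ c) (a b : A) :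
    τ.D (β * α) (b * a) - τ.D β b - τ.D (α * Real.exp (-c)) a - Real.log 2 ≤
      c * τ.t (sp α a * sp (β * α) (b * a)) := by
  have hβα := mul_pos hβ hα
  have he := Real.exp_pos (-c)
  have he1 : Real.exp (-c) ≤ 1 := Real.exp_le_one_iff.mpr (by linarith)
  set κ := 1 - Real.exp (-c) with hκ
  have hκ0 : 0 ≤ κ := by linarith
  set p := sp α a with hp
  have hp0 : 0 ≤ p := sp_nonneg hα a
  have hp1 : 0 ≤ 1 - p := sub_nonneg.mpr (sp_le_one hα a)
  set z : A := (α * Real.exp (-c)) • (1 : A) + κ • α • (1 - p) with hz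
  have hzs : IsStrictlyPositive z :=
    (sp_smul_one (mul_pos hα he)).add_nonneg (smul_nonneg hκ0 (smul_nonneg hα.le hp1))
  have h1 := τ.Lam_sub hzs (star_mul_self_nonneg b) a hβ
  have h2 : τ.Lam (z + star a * a) ≤ Real.log 2 + τ.D (α * Real.exp (-c)) a := by
    rw [D, ← τ.Lam_smul (sp_eps (mul_pos hα he) a) two_pos]
    refine τ.Lam_mono (hzs.add_nonneg (star_mul_self_nonneg a)) ?_
    have h3 : κ • α • (1 - p) ≤ star a * a := by
      calc κ • α • (1 - p) ≤ (1 : ℝ) • α • (1 - p) :=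
            smul_le_smul_of_nonneg_right (by linarith) (smul_nonneg hα.le hp1)
        _ ≤ star a * a := by rw [one_smul]; exact smul_one_sub_sp_le hα a
    rw [two_smul, hz]
    refine add_le_add (add_le_add le_rfl h3) ?_
    exact le_add_of_nonneg_left (sp_smul_one (mul_pos hα he)).nonneg
  have h4 := τ.Lam_log (sp_eps hβα (b * a)) (q := (β * α) • p) (smul_nonneg hβα.le hp0)
    ((smul_le_smul_of_nonneg_left (sp_le_one hα a) hβα.le).trans
      (le_add_of_nonneg_right (star_mul_self_nonneg _))) (u := -κ) (by linarith)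
  have e : (β * α) • (1 : A) + star (b * a) * (b * a) + -κ • (β * α) • p =
      β • z + star a * (star b * b) * a := by
    have : star (b * a) * (b * a) = star a * (star b * b) * a := by rw [star_mul]; noncomm_ring
    rw [this, hz, hκ]
    module
  have e2 : Real.log (1 + -κ) = -c := by
    rw [hκ]; simp
  have e3 : τ.t (((β * α) • (1 : A) + star (b * a) * (b * a))⁻¹ʳ * (β * α) • p) =
      τ.t (p * sp (β * α) (b * a)) := by
    rw [τ.comm p, sp, mul_smul_comm, smul_mul_assoc]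
  rw [e, e2, e3] at h4
  unfold D at *
  linarith

/-- the subadditive sequence -/
def Hn (x : A) (ρ : ℝ) (n : ℕ) : ℝ := τ.D (Real.exp (n * ρ)) (x ^ n)

lemma Hn_subadd (x : A) (ρ : ℝ) : Subadditive (τ.Hn x ρ) := by
  intro m n
  unfold Hn
  rw [Nat.cast_add, add_mul, Real.exp_add, pow_add]
  exact τ.D_mul_le (Real.exp_pos _) (Real.exp_pos _) _ _

lemma Hn_bdd (x : A) (ρ : ℝ) : BddBelow (Set.range fun n : ℕ => τ.Hn x ρ n / n) := by
  refine ⟨min ρ 0, ?_⟩
  rintro _ ⟨n, rfl⟩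
  rcases Nat.eq_zero_or_pos n with h | h
  · subst h; simp
  · have hn : (0 : ℝ) < n := by exact_mod_cast h
    have := τ.log_le_D (Real.exp_pos (n * ρ)) (x ^ n)
    rw [Real.log_exp] at this
    refine (min_le_left _ _).trans ?_
    rw [le_div_iff₀ hn]
    unfold Hn
    linarith

/-- the exponential growth rate -/
def L (x : A) (ρ : ℝ) : ℝ := (τ.Hn_subadd x ρ).lim

lemma tendsto_L (x : A) (ρ : ℝ) : Tendsto (fun n : ℕ => τ.Hn x ρ n / n) atTop (𝓝 (τ.L x ρ)) :=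
  (τ.Hn_subadd x ρ).tendsto_lim (τ.Hn_bdd x ρ)

lemma L_le (x : A) (ρ : ℝ) {n : ℕ} (hn : n ≠ 0) : n * τ.L x ρ ≤ τ.Hn x ρ n := by
  have := (τ.Hn_subadd x ρ).lim_le_div (τ.Hn_bdd x ρ) hn
  have hn' : (0 : ℝ) < n := by exact_mod_cast Nat.pos_of_ne_zero hn
  rw [le_div_iff₀ hn'] at this
  unfold L
  linarith

lemma L_mono (x : A) : Monotone (τ.L x) := by
  intro ρ ρ' h
  refine le_of_tendsto_of_tendsto' (τ.tendsto_L x ρ) (τ.tendsto_L x ρ') fun n => ?_
  refine div_le_div_of_nonneg_right ?_ (Nat.cast_nonneg n)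
  exact τ.D_mono (Real.exp_pos _)
    (Real.exp_le_exp.mpr (mul_le_mul_of_nonneg_left h (Nat.cast_nonneg n))) _

lemma ev_Hn_le (x : A) (ρ : ℝ) {η : ℝ} (hη : 0 < η) :
    ∀ᶠ n : ℕ in atTop, τ.Hn x ρ n ≤ n * (τ.L x ρ + η) := by
  filter_upwards [(τ.tendsto_L x ρ).eventually (gt_mem_nhds (lt_add_of_pos_right _ hη)),
    eventually_gt_atTop 0] with n hn h0
  have hn' : (0 : ℝ) < n := by exact_mod_cast h0
  rw [div_lt_iff₀ hn'] at hn
  linarith

end Tr

/-- the soft projections -/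
def pn (x : A) (ρ : ℝ) (n : ℕ) : A := sp (Real.exp (n * ρ)) (x ^ n)

lemma ev_const_le (K : ℝ) {η : ℝ} (hη : 0 < η) : ∀ᶠ n : ℕ in atTop, K ≤ n * η := by
  have : Tendsto (fun n : ℕ => (n : ℝ) * η) atTop atTop :=
    tendsto_natCast_atTop_atTop.atTop_mul_const hη
  exact this.eventually (eventually_ge_atTop K)

namespace Tr
variable (τ : Tr A)

lemma ev_upper (x : A) (ρ : ℝ) {γ η : ℝ} (hγ : 0 < γ) (hη : 0 < η) :
    ∀ᶠ n : ℕ in atTop, τ.t (pn x ρ n) ≤ (τ.L x (ρ + γ) - τ.L x ρ) / γ + η := by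
  filter_upwards [τ.ev_Hn_le x (ρ + γ) (mul_pos hη hγ), eventually_gt_atTop 0] with n hn h0
  have hn' : (0 : ℝ) < n := by exact_mod_cast h0
  have h1 := τ.upper (c := n * γ) (Real.exp_pos (n * ρ)) (x ^ n)
  rw [← Real.exp_add, ← mul_add] at h1
  have h2 := τ.L_le x ρ h0.ne'
  have h3 : n * γ * τ.t (pn x ρ n) ≤ n * γ * ((τ.L x (ρ + γ) - τ.L x ρ) / γ + η) := by
    have : n * γ * ((τ.L x (ρ + γ) - τ.L x ρ) / γ + η) =
        n * (τ.L x (ρ + γ) + η * γ) - n * τ.L x ρ := by field_simp; ring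
    rw [this]
    unfold Hn at hn h2
    unfold pn
    linarith
  exact le_of_mul_le_mul_left h3 (mul_pos hn' hγ)

lemma ev_lower (x : A) (ρ : ℝ) {γ η : ℝ} (hγ : 0 < γ) (hη : 0 < η) :
    ∃ n0 : ℕ, ∀ N0, ∃ N ≥ N0, ∀ n, n0 ≤ n → n ≤ N →
      (τ.L x ρ - τ.L x (ρ - γ)) / γ - 3 * η ≤ τ.t (pn x ρ n * pn x ρ N) := by
  have hε := mul_pos hη hγ
  obtain ⟨n0, hn0⟩ := eventually_atTop.mp ((τ.ev_Hn_le x (ρ - γ) hε).and
    ((ev_const_le (Real.log 2) hε).and (eventually_gt_atTop 0)))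
  refine ⟨n0, fun N0 => ?_⟩
  have hv : Tendsto (fun N : ℕ => τ.Hn x ρ N - N * (τ.L x ρ - η * γ)) atTop atTop := by
    refine tendsto_atTop_mono' atTop ?_ (tendsto_natCast_atTop_atTop.atTop_mul_const hε)
    filter_upwards [eventually_gt_atTop 0] with N hN
    have := τ.L_le x ρ hN.ne'
    linarith
  obtain ⟨N, hN, hrec⟩ := exists_record hv N0
  refine ⟨N, hN, fun n hn hnN => ?_⟩
  obtain ⟨h1, h2, h0⟩ := hn0 n hn
  have hn' : (0 : ℝ) < n := by exact_mod_cast h0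
  obtain ⟨k, rfl⟩ := Nat.exists_eq_add_of_le' hnN
  have h3 := hrec k (Nat.le_add_right k n)
  have h4 := τ.key (c := n * γ) (Real.exp_pos (n * ρ)) (Real.exp_pos (k * ρ))
    (mul_pos hn' hγ).le (x ^ n) (x ^ k)
  rw [← Real.exp_add, ← Real.exp_add, ← add_mul, ← Nat.cast_add, ← pow_add,
    show n * ρ + -(n * γ) = n * (ρ - γ) by ring] at h4
  have h5 : n * γ * ((τ.L x ρ - τ.L x (ρ - γ)) / γ - 3 * η) ≤
      n * γ * τ.t (pn x ρ n * pn x ρ (k + n)) := by
    have : n * γ * ((τ.L x ρ - τ.L x (ρ - γ)) / γ - 3 * η) =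
        n * (τ.L x ρ - η * γ) - n * (τ.L x (ρ - γ) + η * γ) - n * (η * γ) := by field_simp; ring
    rw [this]
    unfold Hn at h1 h3
    unfold pn
    push_cast at h3 h4 ⊢
    linarith
  exact le_of_mul_le_mul_left h5 (mul_pos hn' hγ)

lemma sq_sub_le {p q : A} (hp0 : 0 ≤ p) (hp1 : p ≤ 1) (hq0 : 0 ≤ q) (hq1 : q ≤ 1) :
    τ.t ((p - q) * (p - q)) ≤ τ.t p + τ.t q - 2 * τ.t (p * q) := by
  have e : (p - q) * (p - q) = p * p + q * q - p * q - q * p := by noncomm_ring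
  have h1 := τ.mul_le_mul hp1 hp0
  have h2 := τ.mul_le_mul hq1 hq0
  rw [one_mul] at h1 h2
  rw [e, map_sub, map_sub, map_add, τ.comm q p]
  linarith

lemma sq_triangle {p q r : A} (hp : IsSelfAdjoint p) (hq : IsSelfAdjoint q) (hr : IsSelfAdjoint r) :
    τ.t ((p - q) * (p - q)) ≤ 2 * τ.t ((p - r) * (p - r)) + 2 * τ.t ((q - r) * (q - r)) := by
  have h := τ.mono (star_add_mul_le (p - r) (-(q - r)) one_pos)
  have e : p - r + -(q - r) = p - q := by abel
  rw [e, (hp.sub hq).star_eq, (hp.sub hr).star_eq, (hq.sub hr).neg.star_eq, neg_mul_neg, map_add,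
    map_smul, map_smul] at h
  simp only [smul_eq_mul, inv_one] at h
  linarith

theorem soft_of_lt (x : A) {ρ0 ρ1 ρ2 : ℝ} (h : τ.L x ρ0 < τ.L x ρ1) (h12 : ρ1 < ρ2) :
    ∃ ρ ≤ ρ2, ∃ θ > 0, (∀ᶠ n in atTop, θ ≤ τ.t (pn x ρ n)) ∧
      ∀ η > 0, ∃ N, ∀ n ≥ N, ∀ m ≥ N, τ.t ((pn x ρ n - pn x ρ m) * (pn x ρ n - pn x ρ m)) ≤ η := by
  have h01 : ρ0 < ρ1 := by
    by_contra hc
    exact absurd (τ.L_mono x (not_lt.mp hc)) (not_le.mpr h)
  obtain ⟨ρ, hρ, hd⟩ : ∃ ρ ∈ Set.Ioo ρ1 ρ2, DifferentiableAt ℝ (τ.L x) ρ := by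
    refine MeasureTheory.Measure.exists_mem_of_measure_ne_zero_of_ae (μ := MeasureTheory.volume) ?_
      (MeasureTheory.ae_restrict_of_ae (τ.L_mono x).ae_differentiableAt)
    simp [h12]
  have hp0 : ∀ n, 0 ≤ pn x ρ n := fun n => sp_nonneg (Real.exp_pos _) _
  have hp1 : ∀ n, pn x ρ n ≤ 1 := fun n => sp_le_one (Real.exp_pos _) _
  refine ⟨ρ, hρ.2.le, ?_⟩
  have hγ0 : 0 < ρ - ρ0 := by linarith [hρ.1]
  have hs0 : 0 < (τ.L x ρ - τ.L x (ρ - (ρ - ρ0))) / (ρ - ρ0) := by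
    refine div_pos ?_ hγ0
    rw [sub_sub_cancel]
    linarith [τ.L_mono x hρ.1.le]
  set s0 := (τ.L x ρ - τ.L x (ρ - (ρ - ρ0))) / (ρ - ρ0) with hs0'
  refine ⟨s0 / 4, by positivity, ?_, fun η hη => ?_⟩
  · obtain ⟨n0, hn0⟩ := τ.ev_lower x ρ hγ0 (η := s0 / 4) (by positivity)
    filter_upwards [eventually_ge_atTop n0] with n hn
    obtain ⟨N, hN, hN'⟩ := hn0 n
    have h1 := hN' n hn hN
    have h2 := τ.mul_le_mul (hp1 N) (hp0 n)
    rw [τ.comm, one_mul] at h2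
    linarith
  · have hη' : 0 < η / 48 := by positivity
    set θ := deriv (τ.L x) ρ
    have hsl := hasDerivAt_iff_tendsto_slope_zero.mp hd.hasDerivAt
    have hr : Tendsto (fun γ : ℝ => γ) (𝓝[>] 0) (𝓝[≠] 0) :=
      tendsto_nhdsWithin_mono_right (fun _ h => ne_of_gt h) tendsto_id
    have hl : Tendsto (fun γ : ℝ => -γ) (𝓝[>] 0) (𝓝[≠] 0) := by
      refine tendsto_nhdsWithin_iff.mpr ⟨?_, ?_⟩
      · have : Tendsto (fun γ : ℝ => -γ) (𝓝 0) (𝓝 (-0)) := continuous_neg.tendsto 0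
        rw [neg_zero] at this
        exact this.mono_left nhdsWithin_le_nhds
      · filter_upwards [self_mem_nhdsWithin] with γ hγ
        exact neg_ne_zero.mpr (ne_of_gt hγ)
    obtain ⟨γ, ⟨hg1, hg2⟩, hγ⟩ := ((((hsl.comp hr).eventually
      (gt_mem_nhds (lt_add_of_pos_right θ hη'))).and ((hsl.comp hl).eventually
      (lt_mem_nhds (sub_lt_self θ hη')))).and self_mem_nhdsWithin).exists
    have hγ : 0 < γ := hγ
    simp only [Function.comp, smul_eq_mul] at hg1 hg2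
    have hg1' : (τ.L x (ρ + γ) - τ.L x ρ) / γ ≤ θ + η / 48 := by
      rw [div_eq_inv_mul]; exact hg1.le
    have hg2' : θ - η / 48 ≤ (τ.L x ρ - τ.L x (ρ - γ)) / γ := by
      rw [sub_eq_add_neg ρ γ]
      refine hg2.le.trans (le_of_eq ?_)
      rw [inv_neg]; ring
    obtain ⟨n1, hn1⟩ := eventually_atTop.mp (τ.ev_upper x ρ hγ hη')
    obtain ⟨n0, hn0⟩ := τ.ev_lower x ρ hγ hη'
    refine ⟨max n0 n1, fun n hn m hm => ?_⟩
    obtain ⟨N, hN, hN'⟩ := hn0 (max n m)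
    have hb : ∀ k, max n0 n1 ≤ k → k ≤ N →
        τ.t ((pn x ρ k - pn x ρ N) * (pn x ρ k - pn x ρ N)) ≤ η / 4 := by
      intro k hk hkN
      have h1 := τ.sq_sub_le (hp0 k) (hp1 k) (hp0 N) (hp1 N)
      have h2 := hN' k ((le_max_left _ _).trans hk) hkN
      have h3 := hn1 k ((le_max_right _ _).trans hk)
      have h4 := hn1 N (((le_max_right _ _).trans hk).trans hkN)
      linarith
    have h1 := τ.sq_triangle (hp0 n).isSelfAdjoint (hp0 m).isSelfAdjoint (hp0 N).isSelfAdjoint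
    have h2 := hb n hn ((le_max_left _ _).trans hN)
    have h3 := hb m hm ((le_max_right _ _).trans hN)
    linarith

end Tr

end Pool.Agent.P.MP_f981b0_an.Bish
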