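import Mathlib

noncomputable section
namespace Pool.Agent.P.MP_f981b0_an.Bish

/-- real part of a tracial state -/
structure Tr (A : Type*) [CStarAlgebra A] where
  t : A →L[ℝ] ℝ
  one : t 1 = 1
  comm : ∀ a b, t (a * b) = t (b * a)
  protected star : ∀ a, t (star a) = t a
  nonneg : ∀ a, 0 ≤ t (Star.star a * a)

end Pool.Agent.P.MP_f981b0_an.Bish
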