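import Pool.Agent.P.MP_f981b0_an.Bish.Soft

/-! A minimum principle: the growth rate is not constant at some point of an annulus. -/

open Ring Filter Topology Polynomial

noncomputable section
namespace Pool.Agent.P.MP_f981b0_an.Bish

lemma re_root_le {m j : ℕ} (hm : 0 < m) (h1 : m ≤ j) (h2 : j < 2 * m) :
    (Complex.exp (2 * Real.pi * Complex.I / (3 * m : ℕ)) ^ j).re ≤ -(1 / 2) := by
  have hm' : (0 : ℝ) < m := by exact_mod_cast hm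
  have e : Complex.exp (2 * Real.pi * Complex.I / (3 * m : ℕ)) ^ j =
      Complex.exp (((2 * Real.pi * j / (3 * m) : ℝ) : ℂ) * Complex.I) := by
    rw [← Complex.exp_nat_mul]
    congr 1
    push_cast
    ring
  rw [e, Complex.exp_ofReal_mul_I_re]
  set θ : ℝ := 2 * Real.pi * j / (3 * m) with hθ
  have hpi := Real.pi_pos
  have h1' : (m : ℝ) ≤ j := by exact_mod_cast h1
  have h2' : (j : ℝ) ≤ 2 * m := by exact_mod_cast h2.le
  have hl : 2 * Real.pi / 3 ≤ θ := by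
    rw [hθ, div_le_div_iff₀ (by norm_num) (by positivity)]
    nlinarith
  have hu : θ ≤ 4 * Real.pi / 3 := by
    rw [hθ, div_le_div_iff₀ (by positivity) (by norm_num)]
    nlinarith
  have h3 : Real.cos θ = -Real.cos |θ - Real.pi| := by
    rw [Real.cos_abs, Real.cos_sub_pi, neg_neg]
  have h4 : Real.cos (Real.pi / 3) ≤ Real.cos |θ - Real.pi| :=
    Real.cos_le_cos_of_nonneg_of_le_pi (abs_nonneg _) (by linarith)
      (abs_le.mpr ⟨by linarith, by linarith⟩)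
  rw [Real.cos_pi_div_three] at h4
  linarith

lemma norm_step_le {s t : ℝ} {w : ℂ} (hw : ‖w‖ = 1) (hre : w.re ≤ -(1 / 2)) (ht : 0 < t)
    (hts : t ≤ s / 2) : ‖(s : ℂ) + w * t‖ ≤ s - t / 4 := by
  have h1 : w.re ^ 2 + w.im ^ 2 = 1 := by
    have := Complex.sq_norm w
    rw [hw, Complex.normSq_apply] at this
    nlinarith
  refine (pow_le_pow_iff_left₀ (norm_nonneg _) (by linarith) two_ne_zero).mp ?_
  rw [Complex.sq_norm, Complex.normSq_apply]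
  simp only [Complex.add_re, Complex.ofReal_re, Complex.mul_re, Complex.ofReal_im, mul_zero,
    sub_zero, Complex.add_im, Complex.mul_im, zero_add]
  have h2 : (s + w.re * t) * (s + w.re * t) + w.im * t * (w.im * t) =
      s ^ 2 + 2 * s * t * w.re + t ^ 2 * (w.re ^ 2 + w.im ^ 2) := by ring
  rw [h2, h1]
  have hs : 0 < s := by linarith
  nlinarith [mul_pos hs ht, mul_le_mul_of_nonneg_left hre (mul_pos hs ht).le]

variable {A : Type*} [CStarAlgebra A] [PartialOrder A] [StarOrderedRing A]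

omit [PartialOrder A] [StarOrderedRing A] in
lemma star_algebraMap_mul (c : ℂ) :
    star (algebraMap ℂ A c) * algebraMap ℂ A c = (‖c‖ ^ 2) • (1 : A) := by
  rw [← algebraMap_star_comm, ← map_mul, Complex.star_def, Complex.conj_mul',
    Algebra.algebraMap_eq_smul_one, ← Complex.coe_smul]
  push_cast
  rfl

namespace Tr
variable (τ : Tr A)

lemma LB_mul {a b : A} {α β : ℝ} (ha : ∀ ε > 0, α ≤ τ.D ε a) (hb : ∀ ε > 0, β ≤ τ.D ε b) :
    ∀ δ > 0, α + β ≤ τ.D δ (a * b) := by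
  intro δ hδ
  set ε : ℝ := min 1 (δ / (2 * (‖b‖ ^ 2 + 1))) with hε
  set ε' : ℝ := δ / (2 * (1 + ‖a‖ ^ 2)) with hε'
  have h0 : 0 < ε := lt_min one_pos (by positivity)
  have h0' : 0 < ε' := by positivity
  have h1 : ε' * (ε + ‖a‖ ^ 2) ≤ δ / 2 := by
    calc ε' * (ε + ‖a‖ ^ 2) ≤ ε' * (1 + ‖a‖ ^ 2) := by gcongr; exact min_le_left _ _
      _ = δ / 2 := by rw [hε']; field_simp
  have h2 : ε * ‖b‖ ^ 2 ≤ δ / 2 := by
    calc ε * ‖b‖ ^ 2 ≤ δ / (2 * (‖b‖ ^ 2 + 1)) * (‖b‖ ^ 2 + 1) := by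
          gcongr
          · exact min_le_right _ _
          · linarith
      _ = δ / 2 := by field_simp
  have h3 := τ.le_D_mul h0 h0' a b
  have h4 := τ.D_mono (ε := ε' * (ε + ‖a‖ ^ 2) + ε * ‖b‖ ^ 2) (ε' := δ) (by positivity)
    (by linarith) (a * b)
  linarith [ha ε h0, hb ε' h0']

lemma LB_prod (x : A) (r : ℕ → ℂ) (α : ℕ → ℝ)
    (h : ∀ i, ∀ ε > 0, α i ≤ τ.D ε (x - algebraMap ℂ A (r i))) (n : ℕ) :
    ∀ δ > 0, ∑ i ∈ Finset.range n, α i ≤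
      τ.D δ (aeval x (∏ i ∈ Finset.range n, (X - C (r i)))) := by
  induction n with
  | zero =>
    intro δ hδ
    simp only [Finset.range_zero, Finset.sum_empty, Finset.prod_empty, map_one]
    rw [D, ← τ.Lam_one]
    refine τ.Lam_mono isStrictlyPositive_one ?_
    rw [star_one, one_mul]
    exact le_add_of_nonneg_left (sp_smul_one hδ).nonneg
  | succ n ih =>
    rw [Finset.sum_range_succ, Finset.prod_range_succ, map_mul]
    refine τ.LB_mul ih ?_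
    simpa using h n

lemma D_pow_sub_le (x : A) (c : ℂ) {α : ℝ} (hα : 0 < α) (hc : ‖c‖ ^ 2 = α) :
    τ.D (2 * α) (x - algebraMap ℂ A c) ≤ Real.log 4 + τ.D α x := by
  rw [D, D, ← τ.Lam_smul (sp_eps hα x) (by norm_num)]
  refine τ.Lam_mono (sp_eps (by positivity) _) ?_
  have h := star_add_mul_le x (-algebraMap ℂ A c) one_pos
  rw [← sub_eq_add_neg, star_neg, neg_mul_neg, star_algebraMap_mul, hc] at h
  have h2 : (0 : A) ≤ (2 : ℝ) • (star x * x) := smul_nonneg (by norm_num) (star_mul_self_nonneg x)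
  calc (2 * α) • (1 : A) + star (x - algebraMap ℂ A c) * (x - algebraMap ℂ A c)
      ≤ (2 * α) • (1 : A) + (((1 : ℝ) + 1) • (star x * x) + ((1 : ℝ) + 1⁻¹) • α • (1 : A)) := by
        gcongr
    _ ≤ (2 * α) • (1 : A) + (((1 : ℝ) + 1) • (star x * x) + ((1 : ℝ) + 1⁻¹) • α • (1 : A)) +
        (2 : ℝ) • (star x * x) := le_add_of_nonneg_right h2
    _ = _ := by rw [inv_one]; module

/-- the mean value step -/
lemma step (a : A) (h : ℂ → ℝ) (hLB : ∀ ζ, ∀ ε > 0, h ζ ≤ τ.D ε (a - algebraMap ℂ A ζ))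
    (hpos : ∀ ζ, ζ ≠ 0 → Real.log (‖ζ‖ ^ 2) ≤ h ζ) {ρ : ℝ} {ζ : ℂ}
    (ht : Real.exp (ρ / 2) ≤ ‖ζ‖ / 2) (hL : τ.L (a - algebraMap ℂ A ζ) ρ ≤ h ζ) {η : ℝ}
    (hη : 0 < η) :
    ∃ ζ' : ℂ, ‖ζ‖ - Real.exp (ρ / 2) ≤ ‖ζ'‖ ∧ ‖ζ'‖ ≤ ‖ζ‖ - Real.exp (ρ / 2) / 4 ∧
      h ζ' - Real.log (‖ζ'‖ ^ 2) ≤ 3 * (h ζ - Real.log (‖ζ‖ ^ 2) + η) := by
  set t := Real.exp (ρ / 2) with htdef
  have ht0 : 0 < t := Real.exp_pos _
  have hs : 0 < ‖ζ‖ := by linarith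
  set x := a - algebraMap ℂ A ζ with hx
  obtain ⟨n0, hn0⟩ := eventually_atTop.mp ((τ.ev_Hn_le x ρ (half_pos hη)).and
    (ev_const_le (2 * Real.log 4) (half_pos hη)))
  set m := n0 + 1 with hm
  have hm0 : 0 < m := Nat.succ_pos _
  obtain ⟨hH, hK⟩ := hn0 (3 * m) (by omega)
  have hn : 0 < 3 * m := by omega
  set ω := Complex.exp (2 * Real.pi * Complex.I / (3 * m : ℕ)) with hω
  have hprim : IsPrimitiveRoot ω (3 * m) := Complex.isPrimitiveRoot_exp _ hn.ne'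
  have hω1 : ∀ j, ‖ω ^ j‖ = 1 := fun j => by
    rw [norm_pow, hprim.norm'_eq_one hn.ne', one_pow]
  set u : ℂ := ζ / ‖ζ‖ with hu
  have hsC : (‖ζ‖ : ℂ) ≠ 0 := by exact_mod_cast hs.ne'
  have hu1 : ‖u‖ = 1 := by
    rw [hu, norm_div, Complex.norm_real, norm_norm, div_self hs.ne']
  set z : ℕ → ℂ := fun j => ζ + ω ^ j * (t * u) with hz
  have hzn : ∀ j, ‖z j‖ = ‖(‖ζ‖ : ℂ) + ω ^ j * t‖ := fun j => by
    have : z j = u * ((‖ζ‖ : ℂ) + ω ^ j * t) := by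
      simp only [hz, hu]
      field_simp
    rw [this, norm_mul, hu1, one_mul]
  have htu : ‖(t : ℂ) * u‖ = t := by
    rw [norm_mul, hu1, mul_one, Complex.norm_real, Real.norm_of_nonneg ht0.le]
  have hzl : ∀ j, ‖ζ‖ - t ≤ ‖z j‖ := fun j => by
    have h1 := norm_sub_le (z j) (ω ^ j * (t * u))
    rw [norm_mul, hω1, htu, one_mul] at h1
    simp only [hz, add_sub_cancel_right] at h1 ⊢
    linarith
  have hz0 : ∀ j, z j ≠ 0 := fun j => norm_pos_iff.mp (by linarith [hzl j])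
  have hfac := X_pow_sub_C_eq_prod hprim (α := t * u) hn rfl
  -- operator side
  have hα : ‖((t : ℂ) * u) ^ (3 * m)‖ ^ 2 = Real.exp ((3 * m : ℕ) * ρ) := by
    rw [norm_pow, htu, ← pow_mul, htdef, ← Real.exp_nat_mul]
    congr 1
    push_cast
    ring
  have h1 := τ.LB_prod x (fun j => ω ^ j * (t * u)) (fun j => h (z j)) (fun j ε hε => by
    have := hLB (z j) ε hε
    rwa [hz, map_add, ← sub_sub] at this) (3 * m) _
    (mul_pos two_pos (Real.exp_pos ((3 * m : ℕ) * ρ)))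
  rw [← hfac, map_sub, map_pow, aeval_X, aeval_C] at h1
  have h2 := τ.D_pow_sub_le (x ^ (3 * m)) _ (Real.exp_pos _) hα
  -- scalar side
  have h3 : ∏ j ∈ Finset.range (3 * m), ‖z j‖ = ‖(-ζ) ^ (3 * m) - (t * u) ^ (3 * m)‖ := by
    have := congrArg (eval (-ζ)) hfac
    simp only [eval_sub, eval_pow, eval_X, eval_C, eval_prod] at this
    rw [this, norm_prod]
    refine Finset.prod_congr rfl fun j _ => ?_
    rw [← norm_neg (z j)]
    congr 1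
    simp only [hz]
    ring
  have h4 : ‖ζ‖ ^ (3 * m) / 2 ≤ ∏ j ∈ Finset.range (3 * m), ‖z j‖ := by
    rw [h3]
    have h5 := norm_sub_norm_le ((-ζ) ^ (3 * m)) ((t * u) ^ (3 * m))
    rw [norm_pow, norm_neg, norm_pow, htu] at h5
    have h6 : t ^ (3 * m) ≤ ‖ζ‖ ^ (3 * m) / 2 := by
      calc t ^ (3 * m) ≤ (‖ζ‖ / 2) ^ (3 * m) := by gcongr
        _ = ‖ζ‖ ^ (3 * m) / 2 ^ (3 * m) := div_pow _ _ _
        _ ≤ ‖ζ‖ ^ (3 * m) / 2 := by
          gcongr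
          exact le_self_pow₀ (by norm_num) hn.ne'
    linarith
  have h5 : (3 * m : ℕ) * Real.log (‖ζ‖ ^ 2) - Real.log 4 ≤
      ∑ j ∈ Finset.range (3 * m), Real.log (‖z j‖ ^ 2) := by
    have h6 := Real.log_le_log (by positivity) h4
    rw [Real.log_prod (fun j _ => norm_ne_zero_iff.mpr (hz0 j)), Real.log_div (by positivity)
      (by norm_num), Real.log_pow] at h6
    simp only [Real.log_pow]
    rw [← Finset.mul_sum, show (4 : ℝ) = 2 ^ 2 by norm_num, Real.log_pow]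
    push_cast at h6 ⊢
    linarith
  have h6 : ∑ j ∈ Finset.range (3 * m), (h (z j) - Real.log (‖z j‖ ^ 2)) ≤
      (3 * m : ℕ) * (h ζ - Real.log (‖ζ‖ ^ 2) + η) := by
    rw [Finset.sum_sub_distrib]
    have h7 : ((3 * m : ℕ) : ℝ) * τ.L x ρ ≤ (3 * m : ℕ) * h ζ :=
      mul_le_mul_of_nonneg_left hL (Nat.cast_nonneg _)
    unfold Hn at hH
    linarith
  have h7 : ∑ j ∈ Finset.Ico m (2 * m), (h (z j) - Real.log (‖z j‖ ^ 2)) ≤
      ∑ j ∈ Finset.Ico m (2 * m), 3 * (h ζ - Real.log (‖ζ‖ ^ 2) + η) := by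
    refine (Finset.sum_le_sum_of_subset_of_nonneg (t := Finset.range (3 * m)) ?_ ?_).trans
      (h6.trans (le_of_eq ?_))
    · intro j hj
      simp only [Finset.mem_Ico, Finset.mem_range] at hj ⊢
      omega
    · intro j _ _
      exact sub_nonneg.mpr (hpos _ (hz0 j))
    · rw [Finset.sum_const, Nat.card_Ico, show 2 * m - m = m by omega, nsmul_eq_mul]
      push_cast
      ring
  obtain ⟨j, hj, hj'⟩ := Finset.exists_le_of_sum_le ⟨m, by simp; omega⟩ h7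
  rw [Finset.mem_Ico] at hj
  refine ⟨z j, hzl j, ?_, hj'⟩
  rw [hzn]
  exact norm_step_le (hω1 j) (re_root_le hm0 hj.1 hj.2) ht0 ht

theorem exists_lt (a : A) {c R ρ : ℝ} (hc : 0 < c) (hR : 0 < R)
    (H1 : ∀ ζ : ℂ, ζ ≠ 0 → ∀ ε > 0, Real.log (‖ζ‖ ^ 2) ≤ τ.D ε (a - algebraMap ℂ A ζ))
    (H2 : ∀ ζ : ℂ, ∀ ε > 0, Real.log ((2 * c) ^ 2) ≤ τ.D ε (a - algebraMap ℂ A ζ))
    (H3 : ∀ η > 0, ∃ ε > 0, τ.D ε (a - algebraMap ℂ A R) ≤ Real.log (R ^ 2) + η)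
    (hρ : Real.exp (ρ / 2) ≤ c / 2) :
    ∃ ζ : ℂ, c ≤ ‖ζ‖ ∧ ‖ζ‖ ≤ R ∧ ∃ ρ0, τ.L (a - algebraMap ℂ A ζ) ρ0 <
      τ.L (a - algebraMap ℂ A ζ) ρ := by
  by_contra hcon
  push Not at hcon
  set h : ℂ → ℝ := fun ζ => sInf ((fun ε => τ.D ε (a - algebraMap ℂ A ζ)) '' Set.Ioi 0) with hh
  have hle : ∀ ζ (β : ℝ), (∀ ε > 0, β ≤ τ.D ε (a - algebraMap ℂ A ζ)) → β ≤ h ζ := by
    intro ζ β hβ
    refine le_csInf ⟨_, 1, Set.mem_Ioi.mpr one_pos, rfl⟩ ?_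
    rintro _ ⟨ε, hε, rfl⟩
    exact hβ ε hε
  have hLB : ∀ ζ, ∀ ε > 0, h ζ ≤ τ.D ε (a - algebraMap ℂ A ζ) := by
    intro ζ ε hε
    refine csInf_le ⟨Real.log ((2 * c) ^ 2), ?_⟩ ⟨ε, hε, rfl⟩
    rintro _ ⟨ε, hε, rfl⟩
    exact H2 ζ ε hε
  have hpos : ∀ ζ, ζ ≠ 0 → Real.log (‖ζ‖ ^ 2) ≤ h ζ := fun ζ h0 => hle ζ _ (H1 ζ h0)
  have hL : ∀ ζ, c ≤ ‖ζ‖ → ‖ζ‖ ≤ R → τ.L (a - algebraMap ℂ A ζ) ρ ≤ h ζ := by
    intro ζ h1 h2
    refine hle ζ _ fun ε hε => (hcon ζ h1 h2 (Real.log ε)).trans ?_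
    have := τ.L_le (a - algebraMap ℂ A ζ) (Real.log ε) one_ne_zero
    simpa [Hn, Real.exp_log hε] using this
  have hlog4 : 0 < Real.log 4 := Real.log_pos (by norm_num)
  have hbig : ∀ ζ : ℂ, 0 < ‖ζ‖ → h ζ - Real.log (‖ζ‖ ^ 2) < Real.log 4 → c ≤ ‖ζ‖ := by
    intro ζ h0 h1
    by_contra h2
    have h3 := hle ζ _ (H2 ζ)
    have h4 : Real.log (‖ζ‖ ^ 2) ≤ Real.log (c ^ 2) :=
      Real.log_le_log (by positivity) (by gcongr; exact (not_le.mp h2).le)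
    rw [mul_pow, Real.log_mul (by norm_num) (by positivity), show (2 : ℝ) ^ 2 = 4 by norm_num] at h3
    linarith
  set t := Real.exp (ρ / 2) with ht
  have ht0 : 0 < t := Real.exp_pos _
  have hRn : ‖(R : ℂ)‖ = R := by rw [Complex.norm_real, Real.norm_of_nonneg hR.le]
  have hZ : ∀ i : ℕ, ∀ δ > 0, ∃ ζ : ℂ, 0 < ‖ζ‖ ∧ ‖ζ‖ ≤ R - i * (t / 4) ∧
      h ζ - Real.log (‖ζ‖ ^ 2) ≤ δ := by
    intro i
    induction i with
    | zero =>
      intro δ hδ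
      obtain ⟨ε, hε, h1⟩ := H3 δ hδ
      refine ⟨R, by rwa [hRn], by simp [abs_of_pos hR], ?_⟩
      rw [hRn]
      linarith [hLB R ε hε]
    | succ i ih =>
      intro δ hδ
      obtain ⟨ζ, h0, h1, h2⟩ := ih (min (δ / 6) (Real.log 4 / 2)) (by positivity)
      have h3 := hbig ζ h0 (by linarith [min_le_right (δ / 6) (Real.log 4 / 2)])
      have h4 : ‖ζ‖ ≤ R := by
        have : 0 ≤ (i : ℝ) * (t / 4) := by positivity
        linarith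
      obtain ⟨ζ', h5, h6, h7⟩ := τ.step a h hLB hpos (ρ := ρ) (ζ := ζ) (by linarith)
        (hL ζ h3 h4) (η := δ / 6) (by positivity)
      refine ⟨ζ', by linarith, ?_, by linarith [min_le_left (δ / 6) (Real.log 4 / 2)]⟩
      push_cast
      linarith
  obtain ⟨i, hi⟩ := (ev_const_le R (η := t / 4) (by positivity)).exists
  obtain ⟨ζ, h0, h1, -⟩ := hZ i 1 one_pos
  linarith

/-- the upper bound far outside the spectrum -/
lemma H3_of (a : A) {C : ℝ} (hC : 0 ≤ C) (ha : ‖a‖ ≤ C)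
    (htr : ∀ (c : ℝ) (k : ℕ), τ.t ((c • a) ^ (k + 1)) = 0) :
    ∀ η > 0, ∃ ε > 0, τ.D ε (a - algebraMap ℂ A ((2 * C + 2 : ℝ) : ℂ)) ≤
      Real.log ((2 * C + 2) ^ 2) + η := by
  intro η hη
  set R := 2 * C + 2 with hR
  have hR0 : 0 < R := by positivity
  have hB : ‖R⁻¹ • a‖ ≤ 1 / 2 := by
    rw [norm_smul, norm_inv, Real.norm_of_nonneg hR0.le, inv_mul_le_iff₀ hR0]
    linarith
  obtain ⟨hu, h0⟩ := τ.Lam_one_sub (B := R⁻¹ • a) (fun s hs => by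
    refine summable_geometric_of_norm_lt_one ?_
    rw [norm_smul, Real.norm_of_nonneg hs.1]
    nlinarith [hs.1, hs.2, norm_nonneg (R⁻¹ • a)]) (htr _)
  have e : a - algebraMap ℂ A (R : ℂ) = (-R) • (1 - R⁻¹ • a) := by
    rw [smul_sub, smul_smul, neg_mul, mul_inv_cancel₀ hR0.ne', Algebra.algebraMap_eq_smul_one,
      Complex.coe_smul]
    module
  have hsp := sp_star_mul hu
  set y := star (1 - R⁻¹ • a) * (1 - R⁻¹ • a) with hy
  have e2 : star (a - algebraMap ℂ A (R : ℂ)) * (a - algebraMap ℂ A (R : ℂ)) = (R ^ 2) • y := by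
    rw [e, star_smul, star_trivial, smul_mul_smul_comm, hy]
    congr 1
    ring
  obtain ⟨m, hm, -, hmy⟩ := exists_le_of_sp hsp
  refine ⟨η * (R ^ 2 * m), by positivity, ?_⟩
  have h1 : τ.D (η * (R ^ 2 * m)) (a - algebraMap ℂ A (R : ℂ)) ≤ τ.Lam (((1 + η) * R ^ 2) • y) := by
    refine τ.Lam_mono (sp_eps (by positivity) _) ?_
    rw [e2]
    have : ((1 + η) * R ^ 2) • y = (η * R ^ 2) • y + (R ^ 2) • y := by module
    rw [this, ← mul_assoc, ← smul_smul (η * R ^ 2) m]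
    gcongr
  rw [τ.Lam_smul hsp (by positivity), h0, Real.log_mul (by positivity) (by positivity)] at h1
  have h2 := Real.log_le_sub_one_of_pos (show 0 < 1 + η by linarith)
  linarith

theorem soft_abstract (a : A) {C c : ℝ} (hC : 0 ≤ C) (ha : ‖a‖ ≤ C) (hc : 0 < c)
    (htr : ∀ (c : ℝ) (k : ℕ), τ.t ((c • a) ^ (k + 1)) = 0)
    (H1 : ∀ ζ : ℂ, ζ ≠ 0 → ∀ ε > 0, Real.log (‖ζ‖ ^ 2) ≤ τ.D ε (a - algebraMap ℂ A ζ))
    (H2 : ∀ ζ : ℂ, ∀ ε > 0, Real.log ((2 * c) ^ 2) ≤ τ.D ε (a - algebraMap ℂ A ζ))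
    {δ : ℝ} (hδ : 0 < δ) :
    ∃ ζ : ℂ, c ≤ ‖ζ‖ ∧ ‖ζ‖ ≤ 2 * C + 2 ∧ ∃ θ > 0, ∃ p : ℕ → A,
      (∀ n, IsSelfAdjoint (p n)) ∧ (∀ n, ‖p n‖ ≤ 1) ∧
      (∀ n, ‖(a - algebraMap ℂ A ζ) ^ n * p n‖ ≤ δ ^ n) ∧
      (∀ᶠ n in atTop, θ ≤ τ.t (p n)) ∧
      (∀ η > 0, ∃ N, ∀ n ≥ N, ∀ m ≥ N, τ.t ((p n - p m) * (p n - p m)) ≤ η) := by
  have hm : 0 < min δ (c / 2) := lt_min hδ (half_pos hc)
  set ρ2 := 2 * Real.log (min δ (c / 2)) with hρ2
  have e2 : Real.exp (ρ2 / 2) = min δ (c / 2) := by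
    rw [hρ2, mul_div_cancel_left₀ _ two_ne_zero, Real.exp_log hm]
  obtain ⟨ζ, h1, h2, ρ0, h3⟩ := τ.exists_lt a (ρ := ρ2 - 1) hc (by positivity : 0 < 2 * C + 2) H1 H2
    (τ.H3_of a hC ha htr)
    ((Real.exp_le_exp.mpr (by linarith)).trans (e2.le.trans (min_le_right _ _)))
  obtain ⟨ρ, hρ, θ, hθ, h4, h5⟩ := τ.soft_of_lt _ h3 (sub_one_lt ρ2)
  refine ⟨ζ, h1, h2, θ, hθ, pn (a - algebraMap ℂ A ζ) ρ,
    fun n => (sp_nonneg (Real.exp_pos _) _).isSelfAdjoint,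
    fun n => norm_sp_le (Real.exp_pos _) _, fun n => ?_, h4, h5⟩
  refine (pow_le_pow_iff_left₀ (norm_nonneg _) (by positivity) two_ne_zero).mp ?_
  refine (norm_mul_sp_sq_le (Real.exp_pos _) _).trans ?_
  have h6 : Real.exp (ρ / 2) ≤ δ :=
    (Real.exp_le_exp.mpr (by linarith)).trans (e2.le.trans (min_le_left _ _))
  calc Real.exp (n * ρ) = (Real.exp (ρ / 2) ^ n) ^ 2 := by
        rw [← pow_mul, ← Real.exp_nat_mul]; congr 1; push_cast; ring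
    _ ≤ (δ ^ n) ^ 2 := by gcongr

end Tr

end Pool.Agent.P.MP_f981b0_an.Bish
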